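import Pool.Agent.Lib.MP_71915d_ag.Decomp

set_option autoImplicit false

namespace Pool.Agent.Lib.MP_71915d_ag

open Set

/-- There is no finite cover of the box `[0,M]^r` by closed convex sets such that the map `Φ` is
constant on the interior of each of them. -/
def NoConvexDecomposition {r : ℕ} {V : Type*} (Φ : (Fin r → ℝ) → V) (M : ℝ) : Prop :=
  ∀ (N : ℕ) (P : Fin N → Set (Fin r → ℝ)), (∀ j, IsClosed (P j)) → (∀ j, Convex ℝ (P j)) →
    box r M ⊆ ⋃ j, P j → ∃ j, ∃ x ∈ interior (P j), ∃ y ∈ interior (P j), Φ x ≠ Φ y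

theorem exists_common {r N K : ℕ} {M : ℝ} {P : Fin N → Set (Fin r → ℝ)}
    (hP : ∀ j, IsClosed (P j)) (hcov : box r M ⊆ ⋃ j, P j) (x : Fin K → Fin r → ℝ)
    {W : Set (Fin r → ℝ)} (hW : IsOpen W) (hWne : W.Nonempty)
    (hx : ∀ i, ∀ w ∈ W, x i + w ∈ box r M) :
    ∃ w ∈ W, ∀ i, ∃ j, x i + w ∈ interior (P j) := by
  classical
  have key : ∀ s : Finset (Fin K), ∃ U : Set (Fin r → ℝ), IsOpen U ∧ U ⊆ W ∧ U.Nonempty ∧
      ∀ i ∈ s, ∃ j, ∀ w ∈ U, x i + w ∈ interior (P j) := by
    intro s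
    induction s using Finset.induction_on with
    | empty => exact ⟨W, hW, subset_rfl, hWne, fun i hi => absurd hi (Finset.notMem_empty i)⟩
    | insert a s _ ih =>
      obtain ⟨U, hU, hUW, hUne, hs⟩ := ih
      have hV : IsOpen ((fun w => x a + w) '' U) := (Homeomorph.addLeft (x a)).isOpenMap U hU
      have hVne : ((fun w => x a + w) '' U).Nonempty := hUne.image _
      have hVc : ((fun w => x a + w) '' U) ⊆ ⋃ j, P j := by
        rintro _ ⟨w, hw, rfl⟩
        exact hcov (hx a w (hUW hw))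
      obtain ⟨j, _, ⟨w, hw, rfl⟩, hj⟩ := exists_interior hP hV hVne hVc
      refine ⟨U ∩ {w | x a + w ∈ interior (P j)}, hU.inter ?_, fun w hw => hUW hw.1,
        ⟨w, hw, hj⟩, ?_⟩
      · exact isOpen_interior.preimage (continuous_const.add continuous_id)
      · intro i hi
        rcases Finset.mem_insert.1 hi with rfl | hi
        · exact ⟨j, fun w hw => hw.2⟩
        · obtain ⟨j', hj'⟩ := hs i hi
          exact ⟨j', fun w hw => hj' w hw.1⟩
  obtain ⟨U, _, hUW, ⟨w, hw⟩, hs⟩ := key Finset.univ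
  refine ⟨w, hUW hw, fun i => ?_⟩
  obtain ⟨j, hj⟩ := hs i (Finset.mem_univ i)
  exact ⟨j, hj w hw⟩

/-- The number of changes of `Φ` along a line is bounded by the number of convex pieces. -/
theorem alternation {r N : ℕ} {V : Type*} {Φ : (Fin r → ℝ) → V} {M : ℝ}
    {P : Fin N → Set (Fin r → ℝ)} (hP : ∀ j, IsClosed (P j)) (hcv : ∀ j, Convex ℝ (P j))
    (hcov : box r M ⊆ ⋃ j, P j)
    (hconst : ∀ j, ∀ x ∈ interior (P j), ∀ y ∈ interior (P j), Φ x = Φ y)
    (K : ℕ) (a v : Fin r → ℝ) (t : ℕ → ℝ) (ht : ∀ i, i < K → t i < t (i + 1))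
    (hΦ : ∀ i, i < K → Φ (a + t i • v) ≠ Φ (a + t (i + 1) • v))
    (hrc : ∀ i, i ≤ K → ∃ δ > 0, ∀ w : Fin r → ℝ, (∀ l, 0 < w l ∧ w l < δ) →
      a + t i • v + w ∈ box r M ∧ Φ (a + t i • v + w) = Φ (a + t i • v)) :
    K < N := by
  classical
  by_contra hKN
  push Not at hKN
  have hrc' : ∀ i : Fin (K + 1), ∃ δ > 0, ∀ w : Fin r → ℝ, (∀ l, 0 < w l ∧ w l < δ) →
      a + t i • v + w ∈ box r M ∧ Φ (a + t i • v + w) = Φ (a + t i • v) :=
    fun i => hrc i (Nat.lt_succ_iff.1 i.2)
  choose δ hδ hδ2 using hrc'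
  obtain ⟨ε, hε, hε2⟩ : ∃ ε > 0, ∀ i, ε ≤ δ i := by
    refine ⟨Finset.univ.inf' Finset.univ_nonempty δ, ?_, fun i => Finset.inf'_le _
      (Finset.mem_univ i)⟩
    exact (Finset.lt_inf'_iff _).2 fun i _ => hδ i
  let W : Set (Fin r → ℝ) := {w | ∀ l, 0 < w l ∧ w l < ε}
  have hWo : IsOpen W := by
    have : W = ⋂ l, {w : Fin r → ℝ | 0 < w l ∧ w l < ε} := by
      ext w; simp [W]
    rw [this]
    refine isOpen_iInter_of_finite fun l => ?_
    exact (isOpen_lt continuous_const (continuous_apply l)).inter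
      (isOpen_lt (continuous_apply l) continuous_const)
  have hWne : W.Nonempty := ⟨fun _ => ε / 2, fun _ => ⟨by positivity, by linarith⟩⟩
  have hW2 : ∀ i : Fin (K + 1), ∀ w ∈ W, a + t i • v + w ∈ box r M ∧
      Φ (a + t i • v + w) = Φ (a + t i • v) :=
    fun i w hw => hδ2 i w fun l => ⟨(hw l).1, (hw l).2.trans_le (hε2 i)⟩
  obtain ⟨w, hw, hj⟩ := exists_common hP hcov (fun i : Fin (K + 1) => a + t i • v) hWo hWne
    (fun i w hw => (hW2 i w hw).1)
  choose j hj using hj
  have hmono : ∀ i i', i < i' → i' ≤ K → t i < t i' := by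
    intro i i' h
    induction i' with
    | zero => omega
    | succ n ih =>
      intro hn
      rcases Nat.lt_or_ge i n with h1 | h1
      · exact (ih h1 (by omega)).trans (ht n (by omega))
      · have : i = n := by omega
        subst this
        exact ht i (by omega)
  have hlast : ∀ i i' : Fin (K + 1), i < i' → j i = j i' → False := by
    intro i i' hii hjj
    have h1 : (i : ℕ) < K := by have := i'.2; have : (i : ℕ) < i' := hii; omega
    have h2 : t i < t (i + 1) := ht i h1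
    have h3 : t (i + 1) ≤ t i' := by
      have : (i : ℕ) < i' := hii
      rcases Nat.lt_or_ge (i + 1 : ℕ) i' with h4 | h4
      · exact (hmono _ _ h4 (Nat.lt_succ_iff.1 i'.2)).le
      · have : (i : ℕ) + 1 = i' := by omega
        rw [this]
    have h4 : a + t (i + 1) • v + w ∈ interior (P (j i)) := by
      have hA := hj i
      have hB := hj i'
      rw [← hjj] at hB
      have h5 : 0 < t i' - t i := by linarith
      have h6 := (hcv (j i)).interior hA hB
        (a := (t i' - t (i + 1)) / (t i' - t i)) (b := (t (i + 1) - t i) / (t i' - t i))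
        (div_nonneg (by linarith) h5.le) (div_nonneg (by linarith) h5.le)
        (by field_simp; ring)
      convert h6 using 1
      ext l
      simp only [Pi.add_apply, Pi.smul_apply, smul_eq_mul]
      field_simp
      ring
    have h5 := hconst (j i) _ (hj i) _ h4
    rw [(hW2 i w hw).2] at h5
    have h6 := (hW2 ⟨i + 1, by omega⟩ w hw).2
    simp only at h6
    rw [h6] at h5
    exact hΦ i h1 h5
  obtain ⟨i, i', hne, hjj⟩ := Fintype.exists_ne_map_eq_of_card_lt j (by
    simp only [Fintype.card_fin]; omega)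
  rcases lt_or_gt_of_ne hne with h | h
  · exact hlast i i' h hjj
  · exact hlast i' i h hjj.symm

/-- If `Φ` is constant on half-open grid cubes, there are rational decompositions. -/
theorem grid_decomposition {r : ℕ} {V : Type*} {Φ : (Fin r → ℝ) → V} {Q : ℕ} (hQ : 0 < Q)
    (h : ∀ x y : Fin r → ℝ, (∀ i, 0 ≤ x i) → (∀ i, 0 ≤ y i) →
      (∀ i, ⌊x i * Q⌋₊ = ⌊y i * Q⌋₊) → Φ x = Φ y) (M : ℝ) :
    HasRationalDecomposition Φ M := by
  classical
  have hQR : (0 : ℝ) < Q := by exact_mod_cast hQ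
  set L : ℕ := ⌊M * Q⌋₊ + 1 with hL
  let P : (Fin r → Fin L) → Set (Fin r → ℝ) := fun z =>
    {x | ∀ l : Fin r ⊕ Fin r, ∑ i, ((Sum.elim (fun m => Pi.single m (-(Q : ℚ)))
      (fun m => Pi.single m (Q : ℚ)) l : Fin r → ℚ) i : ℝ) * x i ≤
      ((Sum.elim (fun m => -((z m : ℕ) : ℚ)) (fun m => ((z m : ℕ) : ℚ) + 1) l : ℚ) : ℝ)}
  have hP : ∀ z x, x ∈ P z ↔ ∀ i, ((z i : ℕ) : ℝ) ≤ x i * Q ∧ x i * Q ≤ (z i : ℕ) + 1 := by
    intro z x
    have hs : ∀ (m : Fin r) (c : ℚ), ∑ i, ((Pi.single m c : Fin r → ℚ) i : ℝ) * x i =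
        (c : ℝ) * x m := by
      intro m c
      rw [Finset.sum_eq_single m]
      · rw [Pi.single_eq_same]
      · intro b _ hb
        rw [Pi.single_eq_of_ne hb]
        simp
      · intro hm
        exact absurd (Finset.mem_univ m) hm
    simp only [P, Set.mem_ofPred_eq, Sum.forall, Sum.elim_inl, Sum.elim_inr, hs]
    constructor
    · rintro ⟨h1, h2⟩ i
      have h3 := h1 i
      have h4 := h2 i
      push_cast at h3 h4
      constructor <;> nlinarith
    · intro h1
      constructor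
      · intro i
        have := (h1 i).1
        push_cast
        nlinarith
      · intro i
        have := (h1 i).2
        push_cast
        nlinarith
  refine HasRationalDecomposition.of_fintype P (fun z => IsRatPoly.of_fintype _ _) ?_ ?_ ?_
  · intro z x hx i
    have h1 := ((hP z x).1 hx i).1
    have h2 : (0 : ℝ) ≤ (z i : ℕ) := by positivity
    by_contra hneg
    rw [not_le] at hneg
    nlinarith
  · intro x hx
    have hlt : ∀ i, ⌊x i * Q⌋₊ < L := by
      intro i
      have : ⌊x i * Q⌋₊ ≤ ⌊M * Q⌋₊ :=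
        Nat.floor_le_floor (mul_le_mul_of_nonneg_right (hx i).2 hQR.le)
      omega
    refine Set.mem_iUnion.2 ⟨fun i => ⟨⌊x i * Q⌋₊, hlt i⟩, ?_⟩
    rw [hP]
    intro i
    exact ⟨Nat.floor_le (mul_nonneg (hx i).1 hQR.le), (Nat.lt_floor_add_one _).le⟩
  · intro z x hx y hy
    have hs : ∀ u ∈ interior (P z), ∀ i, 0 ≤ u i ∧ ⌊u i * Q⌋₊ = (z i : ℕ) := by
      intro u hu i
      obtain ⟨ε, hε, hp, hm⟩ := exists_move hu i
      have h1 := ((hP z _).1 hp i).2
      have h2 := ((hP z _).1 hm i).1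
      rw [Function.update_self] at h1 h2
      have h3 : (0 : ℝ) < ε * Q := mul_pos hε hQR
      have h4 : (0 : ℝ) ≤ (z i : ℕ) := by positivity
      have h5 : 0 ≤ u i * Q := by nlinarith
      refine ⟨nonneg_of_mul_nonneg_left h5 hQR, ?_⟩
      rw [Nat.floor_eq_iff h5]
      constructor <;> nlinarith
    refine h x y (fun i => (hs x hx i).1) (fun i => (hs y hy i).1) fun i => ?_
    rw [(hs x hx i).2, (hs y hy i).2]

/-- A rational decomposition is a cover by closed convex sets. -/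
theorem not_decomposition_of_noConvex {r : ℕ} {V : Type*} {Φ : (Fin r → ℝ) → V} {M : ℝ}
    (h : NoConvexDecomposition Φ M) : ¬ HasRationalDecomposition Φ M := by
  rintro ⟨N, P, h1, _, h3, h4⟩
  have hpoly : ∀ j, IsClosed (P j) ∧ Convex ℝ (P j) := by
    intro j
    obtain ⟨m, A, b, hP⟩ := h1 j
    have : P j = ⋂ l, {x : Fin r → ℝ | ∑ i, (A l i : ℝ) * x i ≤ (b l : ℝ)} := by
      rw [hP]; ext x; simp
    rw [this]
    constructor
    · refine isClosed_iInter fun l => isClosed_le ?_ continuous_const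
      exact continuous_finsetSum _ fun i _ => continuous_const.mul (continuous_apply i)
    · refine convex_iInter fun l => ?_
      intro x hx y hy s t hs ht hst
      rw [Set.mem_ofPred_eq] at hx hy ⊢
      have : ∑ i, (A l i : ℝ) * (s • x + t • y) i =
          s * ∑ i, (A l i : ℝ) * x i + t * ∑ i, (A l i : ℝ) * y i := by
        rw [Finset.mul_sum, Finset.mul_sum, ← Finset.sum_add_distrib]
        refine Finset.sum_congr rfl fun i _ => ?_
        simp only [Pi.add_apply, Pi.smul_apply, smul_eq_mul]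
        ring
      rw [this]
      calc s * ∑ i, (A l i : ℝ) * x i + t * ∑ i, (A l i : ℝ) * y i
          ≤ s * (b l : ℝ) + t * (b l : ℝ) :=
            add_le_add (mul_le_mul_of_nonneg_left hx hs) (mul_le_mul_of_nonneg_left hy ht)
        _ = (b l : ℝ) := by rw [← add_mul, hst, one_mul]
  obtain ⟨j, x, hx, y, hy, hne⟩ := h N P (fun j => (hpoly j).1) (fun j => (hpoly j).2) h3
  exact hne (h4 j x hx y hy)

end Pool.Agent.Lib.MP_71915d_ag
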