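import Mathlib

set_option autoImplicit false

namespace Pool.Agent.Lib.MP_71915d_ag

section ari

variable {p : ℕ} [hp : Fact p.Prime]

theorem lucas (a b : ℕ) : p ∣ a.choose b ↔ p ∣ (a % p).choose (b % p) ∨ p ∣ (a / p).choose (b / p) := by
  have h := Choose.choose_modEq_choose_mod_mul_choose_div_nat (p := p) (n := a) (k := b)
  rw [← hp.out.dvd_mul]
  exact (h.dvd_iff (dvd_refl p))

theorem not_dvd_choose_small {a b : ℕ} (ha : a < p) (hb : b ≤ a) : ¬ p ∣ a.choose b := by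
  intro h
  have h1 : a.choose b ∣ a.factorial := by
    rw [← Nat.choose_mul_factorial_mul_factorial hb, mul_assoc]
    exact dvd_mul_right _ _
  have h2 := h.trans h1
  rw [hp.out.dvd_factorial] at h2
  omega

theorem not_dvd_choose_add_pow (C l : ℕ) (h : (C / p ^ l) % p ≠ p - 1) :
    ¬ p ∣ (C + p ^ l).choose (p ^ l) := by
  have hp0 := hp.out.pos
  induction l generalizing C with
  | zero =>
    rw [pow_zero, Nat.choose_one_right]
    rw [pow_zero, Nat.div_one] at h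
    intro hd
    apply h
    have h1 : (C + 1) % p = 0 := Nat.mod_eq_zero_of_dvd hd
    have h2 : C % p < p := Nat.mod_lt _ hp0
    rw [Nat.add_mod] at h1
    rcases Nat.lt_or_ge (C % p + 1) p with h3 | h3
    · have h4 : 1 % p = 1 := Nat.mod_eq_of_lt hp.out.one_lt
      rw [h4, Nat.mod_eq_of_lt h3] at h1
      omega
    · omega
  | succ l ih =>
    rw [lucas]
    have h1 : (C + p ^ (l + 1)) % p = C % p := by
      rw [pow_succ, Nat.add_mul_mod_self_right]
    have h2 : p ^ (l + 1) % p = 0 := by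
      rw [pow_succ]; exact Nat.mul_mod_left _ _
    have h3 : (C + p ^ (l + 1)) / p = C / p + p ^ l := by
      rw [pow_succ, Nat.add_mul_div_right _ _ hp0]
    have h4 : p ^ (l + 1) / p = p ^ l := by
      rw [pow_succ, Nat.mul_div_cancel _ hp0]
    rw [h1, h2, h3, h4, Nat.choose_zero_right]
    rintro (h5 | h5)
    · exact hp.out.one_lt.ne' (Nat.dvd_one.1 h5)
    · refine ih (C / p) ?_ h5
      rwa [Nat.div_div_eq_div_mul, ← pow_succ']

theorem not_dvd_choose_in (C l : ℕ) (h : (C / p ^ l) % p ≠ p - 1) :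
    ¬ p ∣ (C + p ^ l).choose C := by
  have h1 := not_dvd_choose_add_pow C l h
  rwa [← Nat.choose_symm_add] at h1

theorem dvd_choose_out (C l : ℕ) (hl : 1 ≤ l) (h : C % p ≠ 0) :
    p ∣ (C + p ^ l - 1).choose C := by
  have hp0 := hp.out.pos
  rw [lucas]
  left
  obtain ⟨l', rfl⟩ : ∃ l', l = l' + 1 := ⟨l - 1, by omega⟩
  have h1 : (C + p ^ (l' + 1) - 1) % p = C % p - 1 := by
    have h2 : C + p ^ (l' + 1) - 1 = (C % p - 1) + p * (C / p + p ^ l') := by
      have h3 := Nat.mod_add_div C p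
      rw [pow_succ, mul_add, mul_comm (p ^ l') p]
      omega
    rw [h2, Nat.add_mul_mod_self_left, Nat.mod_eq_of_lt]
    have := Nat.mod_lt C hp0
    omega
  rw [h1, Nat.choose_eq_zero_of_lt (by omega)]
  exact dvd_zero _

theorem not_dvd_choose_top (n k : ℕ) (hk : k < p ^ n) : ¬ p ∣ (p ^ n - 1).choose k := by
  have hp0 := hp.out.pos
  induction n generalizing k with
  | zero =>
    have : k = 0 := by simpa using hk
    subst this
    simpa using hp.out.one_lt.ne'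
  | succ n ih =>
    rw [lucas]
    have h0 : 0 < p ^ n := Nat.pow_pos hp0
    have h1 : p ^ (n + 1) - 1 = (p - 1) + p * (p ^ n - 1) := by
      rw [pow_succ', Nat.mul_sub, mul_one]
      have : p * 1 ≤ p * p ^ n := Nat.mul_le_mul_left _ h0
      omega
    have h2 : (p ^ (n + 1) - 1) % p = p - 1 := by
      rw [h1, Nat.add_mul_mod_self_left, Nat.mod_eq_of_lt (by omega)]
    have h3 : (p ^ (n + 1) - 1) / p = p ^ n - 1 := by
      rw [h1, Nat.add_mul_div_left _ _ hp0, Nat.div_eq_of_lt (by omega), zero_add]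
    rw [h2, h3]
    rintro (h | h)
    · have := Nat.mod_lt k hp0
      exact not_dvd_choose_small (by omega) (by omega) h
    · refine ih (k / p) ?_ h
      rw [Nat.div_lt_iff_lt_mul hp0, ← pow_succ]
      exact hk

theorem not_dvd_choose_lift (b j d r : ℕ) (hr : r < p ^ d) (h : ¬ p ∣ b.choose j) :
    ¬ p ∣ (b * p ^ d + r).choose (j * p ^ d + r) := by
  have hp0 := hp.out.pos
  induction d generalizing r with
  | zero =>
    have : r = 0 := by simpa using hr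
    subst this
    simpa using h
  | succ d ih =>
    rw [lucas]
    have h1 : ∀ a : ℕ, (a * p ^ (d + 1) + r) % p = r % p := by
      intro a
      rw [pow_succ, ← mul_assoc, add_comm, Nat.add_mul_mod_self_right]
    have h2 : ∀ a : ℕ, (a * p ^ (d + 1) + r) / p = a * p ^ d + r / p := by
      intro a
      rw [pow_succ, ← mul_assoc, add_comm, Nat.add_mul_div_right _ _ hp0, add_comm]
    rw [h1, h1, h2, h2, Nat.choose_self]
    rintro (h3 | h3)
    · exact hp.out.one_lt.ne' (Nat.dvd_one.1 h3)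
    · refine ih (r / p) ?_ h3
      rw [Nat.div_lt_iff_lt_mul hp0, ← pow_succ]
      exact hr

theorem add_pow_lt {C l n : ℕ} (hl : l < n) (hC : C < p ^ n) (h : (C / p ^ l) % p ≠ p - 1) :
    C + p ^ l < p ^ n := by
  have hp0 := hp.out.pos
  by_contra hcon
  push Not at hcon
  apply h
  have h0 : 0 < p ^ l := Nat.pow_pos hp0
  have hpow : p ^ n = p ^ (n - l) * p ^ l := by rw [← pow_add]; congr 1; omega
  have h1 : C / p ^ l = p ^ (n - l) - 1 := by
    apply le_antisymm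
    · have : C / p ^ l < p ^ (n - l) := by
        rw [Nat.div_lt_iff_lt_mul h0, ← hpow]; exact hC
      omega
    · rw [Nat.le_div_iff_mul_le h0, Nat.sub_mul, one_mul, ← hpow]
      omega
  rw [h1]
  obtain ⟨t, ht⟩ : ∃ t, n - l = t + 1 := ⟨n - l - 1, by omega⟩
  have h4 : 0 < p ^ t := Nat.pow_pos hp0
  have h2 : p ^ (n - l) - 1 = (p - 1) + p * (p ^ t - 1) := by
    rw [ht, pow_succ', Nat.mul_sub, mul_one]
    have : p * 1 ≤ p * p ^ t := Nat.mul_le_mul_left _ h4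
    omega
  rw [h2, Nat.add_mul_mod_self_left, Nat.mod_eq_of_lt (by omega)]

/-- infinitely many nonzero digits -/
theorem digits_nonzero {c : ℝ} (hc : 0 ≤ c) (hn : ∀ n N : ℕ, c * (p : ℝ) ^ n ≠ N) (n0 : ℕ) :
    ∃ n, n0 ≤ n ∧ ⌊c * (p : ℝ) ^ n⌋₊ % p ≠ 0 := by
  have hpR : (1 : ℝ) < p := by exact_mod_cast hp.out.one_lt
  by_contra hcon
  push Not at hcon
  have key : ∀ k, ⌊c * (p : ℝ) ^ (n0 + k)⌋₊ = p ^ k * ⌊c * (p : ℝ) ^ n0⌋₊ := by
    intro k
    induction k with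
    | zero => simp
    | succ k ih =>
      have h1 := hcon (n0 + (k + 1)) (by omega)
      have h2 : ⌊c * (p : ℝ) ^ (n0 + (k + 1))⌋₊ / p = ⌊c * (p : ℝ) ^ (n0 + k)⌋₊ := by
        rw [← Nat.floor_div_natCast]
        congr 1
        rw [← add_assoc, pow_succ]
        field_simp
      have h3 := Nat.mod_add_div ⌊c * (p : ℝ) ^ (n0 + (k + 1))⌋₊ p
      rw [h1, zero_add, h2, ih] at h3
      rw [← h3, pow_succ]
      ring
  set x := c * (p : ℝ) ^ n0 with hx
  have hx0 : 0 ≤ x := by positivity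
  have h4 : ∀ k : ℕ, (p : ℝ) ^ k * (x - ⌊x⌋₊) < 1 := by
    intro k
    have h5 := Nat.lt_floor_add_one (c * (p : ℝ) ^ (n0 + k))
    rw [key k] at h5
    push_cast at h5
    rw [pow_add, ← mul_assoc, ← hx] at h5
    nlinarith
  have h6 : x - ⌊x⌋₊ ≤ 0 := by
    by_contra h7
    push Not at h7
    obtain ⟨k, hk⟩ := pow_unbounded_of_one_lt (1 / (x - ⌊x⌋₊)) hpR
    rw [div_lt_iff₀ h7] at hk
    exact absurd (h4 k) (not_lt.2 hk.le)
  have h8 := Nat.floor_le hx0
  exact hn n0 ⌊x⌋₊ (by rw [← hx]; linarith)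

/-- infinitely many digits different from `p - 1` -/
theorem digits_nontop {c : ℝ} (hc : 0 ≤ c) (n0 : ℕ) :
    ∃ n, n0 ≤ n ∧ ⌊c * (p : ℝ) ^ n⌋₊ % p ≠ p - 1 := by
  have hpR : (1 : ℝ) < p := by exact_mod_cast hp.out.one_lt
  have hp0 := hp.out.pos
  by_contra hcon
  push Not at hcon
  have key : ∀ k, ⌊c * (p : ℝ) ^ (n0 + k)⌋₊ + 1 = p ^ k * (⌊c * (p : ℝ) ^ n0⌋₊ + 1) := by
    intro k
    induction k with
    | zero => simp
    | succ k ih =>
      have h1 := hcon (n0 + (k + 1)) (by omega)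
      have h2 : ⌊c * (p : ℝ) ^ (n0 + (k + 1))⌋₊ / p = ⌊c * (p : ℝ) ^ (n0 + k)⌋₊ := by
        rw [← Nat.floor_div_natCast]
        congr 1
        rw [← add_assoc, pow_succ]
        field_simp
      have h3 := Nat.mod_add_div ⌊c * (p : ℝ) ^ (n0 + (k + 1))⌋₊ p
      rw [h1, h2] at h3
      have h4 : ⌊c * (p : ℝ) ^ (n0 + (k + 1))⌋₊ + 1 = p * (⌊c * (p : ℝ) ^ (n0 + k)⌋₊ + 1) := by
        rw [mul_add, mul_one]; omega
      rw [h4, ih, pow_succ]
      ring
  set x := c * (p : ℝ) ^ n0 with hx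
  have h4 : ∀ k : ℕ, (p : ℝ) ^ k * (⌊x⌋₊ + 1 - x) ≤ 1 := by
    intro k
    have h5 := Nat.floor_le (a := c * (p : ℝ) ^ (n0 + k)) (by positivity)
    have h6 : ((⌊c * (p : ℝ) ^ (n0 + k)⌋₊ : ℝ)) + 1 = (p : ℝ) ^ k * (⌊x⌋₊ + 1) := by
      exact_mod_cast key k
    rw [pow_add, ← mul_assoc, ← hx] at h5
    rw [pow_add, ← mul_assoc, ← hx] at h6
    nlinarith
  have h7 : 0 < (⌊x⌋₊ : ℝ) + 1 - x := by
    have := Nat.lt_floor_add_one x
    linarith
  obtain ⟨k, hk⟩ := pow_unbounded_of_one_lt (1 / ((⌊x⌋₊ : ℝ) + 1 - x)) hpR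
  rw [div_lt_iff₀ h7] at hk
  exact absurd (h4 k) (not_le.2 hk)

/-- digits of `⌊c p^n⌋` -/
theorem floor_digit {c : ℝ} {n i : ℕ} (hi : i ≤ n) :
    ⌊c * (p : ℝ) ^ n⌋₊ / p ^ (n - i) = ⌊c * (p : ℝ) ^ i⌋₊ := by
  have hp0 : (0 : ℝ) < p := by exact_mod_cast hp.out.pos
  have h1 : ((p ^ (n - i) : ℕ) : ℝ) = (p : ℝ) ^ (n - i) := by push_cast; rfl
  rw [← Nat.floor_div_natCast, h1]
  congr 1
  have h2 : (p : ℝ) ^ n = (p : ℝ) ^ i * (p : ℝ) ^ (n - i) := by
    rw [← pow_add]; congr 1; omega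
  rw [h2]
  field_simp

/-- The combinatorial input: many carry-free places below a nonzero digit. -/
theorem exists_places {c : ℝ} (hc : 0 ≤ c) (hn : ∀ n N : ℕ, c * (p : ℝ) ^ n ≠ N) (m K : ℕ) :
    ∃ (n : ℕ) (l : ℕ → ℕ), ⌊c * (p : ℝ) ^ n⌋₊ % p ≠ 0 ∧ (∀ k, k + 1 < K → l k < l (k + 1)) ∧
      ∀ k, k < K → 1 ≤ l k ∧ l k < n ∧ m * p ^ l k < p ^ n ∧
        (⌊c * (p : ℝ) ^ n⌋₊ / p ^ l k) % p ≠ p - 1 := by
  have h1 : ∃ᶠ n in Filter.atTop, (⌊c * (p : ℝ) ^ n⌋₊ % p ≠ p - 1 ∧ m < n) := by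
    rw [Filter.frequently_atTop]
    intro a
    obtain ⟨n, hn1, hn2⟩ := digits_nontop (p := p) hc (max a (m + 1))
    exact ⟨n, (le_max_left _ _).trans hn1, hn2, by
      have := (le_max_right a (m + 1)).trans hn1
      omega⟩
  obtain ⟨φ, hφ, hφ2⟩ := Filter.extraction_of_frequently_atTop h1
  obtain ⟨n, hn1, hn2⟩ := digits_nonzero (p := p) hc hn (φ K + 1)
  refine ⟨n, fun k => n - φ (K - 1 - k), hn2, ?_, ?_⟩
  · intro k hk
    have h3 : φ (K - 1 - (k + 1)) < φ (K - 1 - k) := hφ (by omega)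
    have h4 : φ (K - 1 - k) < φ K := hφ (by omega)
    simp only
    omega
  · intro k hk
    have h3 : φ (K - 1 - k) < φ K := hφ (by omega)
    have h4 := hφ2 (K - 1 - k)
    simp only
    refine ⟨by omega, by omega, ?_, ?_⟩
    · have h5 : p ^ n = p ^ φ (K - 1 - k) * p ^ (n - φ (K - 1 - k)) := by
        rw [← pow_add]; congr 1; omega
      rw [h5]
      refine Nat.mul_lt_mul_of_pos_right ?_ (Nat.pow_pos hp.out.pos)
      exact h4.2.trans (Nat.lt_pow_self hp.out.one_lt)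
    · rw [floor_digit (by omega)]
      exact h4.1

end ari

end Pool.Agent.Lib.MP_71915d_ag
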