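import Pool.Agent.Lib.MP_71915d_ag.Core

set_option autoImplicit false

namespace Pool.Agent.Lib.MP_71915d_ag

open MvPolynomial

variable {σ A : Type*} [CommRing A]

/-- quotient of an exponent by `Q` -/
noncomputable def qdiv (Q : ℕ) (m : σ →₀ ℕ) : σ →₀ ℕ := m.mapRange (fun a => a / Q) (Nat.zero_div Q)

theorem qdiv_apply (Q : ℕ) (m : σ →₀ ℕ) (i : σ) : qdiv Q m i = m i / Q := by
  simp [qdiv]

open Classical in
/-- the operator on polynomials: the coefficient of `x^β` in the result is `κ` of the coefficient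
of `x^(α+Qβ)` -/
noncomputable def cartFun (κ : A →+ A) (Q : ℕ) (α : σ →₀ ℕ) (F : MvPolynomial σ A) :
    MvPolynomial σ A :=
  ∑ m ∈ F.support, if α + Q • qdiv Q (m - α) = m then monomial (qdiv Q (m - α)) (κ (coeff m F))
    else 0

theorem qdiv_smul {Q : ℕ} (hQ : 0 < Q) (β : σ →₀ ℕ) : qdiv Q (Q • β) = β := by
  ext i
  rw [qdiv_apply]
  simp [Nat.mul_div_cancel_left _ hQ]

theorem coeff_cartFun (κ : A →+ A) {Q : ℕ} (hQ : 0 < Q) (α : σ →₀ ℕ) (F : MvPolynomial σ A)
    (β : σ →₀ ℕ) : coeff β (cartFun κ Q α F) = κ (coeff (α + Q • β) F) := by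
  classical
  unfold cartFun
  rw [coeff_sum]
  by_cases hs : α + Q • β ∈ F.support
  · rw [Finset.sum_eq_single_of_mem _ hs]
    · have h1 : qdiv Q (α + Q • β - α) = β := by
        rw [add_tsub_cancel_left, qdiv_smul hQ]
      rw [h1, if_pos rfl, coeff_monomial, if_pos rfl]
    · intro m _ hm
      split_ifs with h
      · rw [coeff_monomial, if_neg]
        intro h2
        apply hm
        rw [← h, h2]
      · simp
  · have h0 : coeff (α + Q • β) F = 0 := by simpa using hs
    rw [h0, map_zero]
    refine Finset.sum_eq_zero fun m hm => ?_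
    split_ifs with h
    · rw [coeff_monomial, if_neg]
      intro h2
      apply hs
      rw [← h2, h]
      exact hm
    · simp

/-- the operator as an additive map -/
noncomputable def cart (κ : A →+ A) {Q : ℕ} (hQ : 0 < Q) (α : σ →₀ ℕ) :
    MvPolynomial σ A →+ MvPolynomial σ A where
  toFun := cartFun κ Q α
  map_zero' := by
    ext β
    simp [coeff_cartFun κ hQ]
  map_add' F G := by
    ext β
    simp [coeff_cartFun κ hQ]

theorem coeff_cart (κ : A →+ A) {Q : ℕ} (hQ : 0 < Q) (α : σ →₀ ℕ) (F : MvPolynomial σ A)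
    (β : σ →₀ ℕ) : coeff β (cart κ hQ α F) = κ (coeff (α + Q • β) F) :=
  coeff_cartFun κ hQ α F β

theorem isCart_cart {p e : ℕ} [ExpChar A p] (κ : A →+ A) (hκ : IsCart p e κ)
    (hQ : 0 < p ^ e) (α : σ →₀ ℕ) (hα : ∀ i, α i < p ^ e) :
    IsCart p e (cart κ hQ α) := by
  classical
  intro G F
  induction G using MvPolynomial.induction_on' with
  | add G1 G2 h1 h2 =>
    rw [add_pow_expChar_pow, add_mul, map_add, h1, h2, add_mul]
  | monomial μ c =>
    ext β
    rw [coeff_cart, monomial_pow, coeff_monomial_mul', coeff_monomial_mul', coeff_cart]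
    have hiff : (p ^ e) • μ ≤ α + p ^ e • β ↔ μ ≤ β := by
      constructor
      · intro h i
        have h1 := h i
        simp only [Finsupp.smul_apply, Finsupp.add_apply, smul_eq_mul] at h1
        have h2 := hα i
        by_contra h3
        push Not at h3
        have h4 : p ^ e * (β i + 1) ≤ p ^ e * μ i := Nat.mul_le_mul_left _ h3
        rw [mul_add, mul_one] at h4
        omega
      · intro h i
        have h1 := h i
        simp only [Finsupp.smul_apply, Finsupp.add_apply, smul_eq_mul]
        have : p ^ e * μ i ≤ p ^ e * β i := Nat.mul_le_mul_left _ h1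
        omega
    by_cases h : μ ≤ β
    · rw [if_pos h, if_pos (hiff.2 h), hκ]
      congr 3
      ext i
      have h1 := h i
      have h2 := (hiff.2 h) i
      simp only [Finsupp.smul_apply, Finsupp.add_apply, smul_eq_mul, Finsupp.coe_tsub,
        Pi.sub_apply] at h2 ⊢
      rw [Nat.mul_sub]
      have : p ^ e * μ i ≤ p ^ e * β i := Nat.mul_le_mul_left _ h1
      omega
    · rw [if_neg h, if_neg (fun h' => h (hiff.1 h')), map_zero]

/-- If the only monomial of `h` congruent to `α` mod `Q` is `α` itself. -/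
theorem cart_of_degree_lt {κ : A →+ A} {Q : ℕ} (hQ : 0 < Q) (α : σ →₀ ℕ) (F : MvPolynomial σ A)
    (hF : F.totalDegree < α.degree + Q) : cart κ hQ α F = C (κ (coeff α F)) := by
  classical
  ext β
  rw [coeff_cart, coeff_C]
  split_ifs with h
  · rw [← h]; simp
  · have : coeff (α + Q • β) F = 0 := by
      apply coeff_eq_zero_of_totalDegree_lt
      have h1 : ∃ i, β i ≠ 0 := by
        by_contra hcon
        push Not at hcon
        apply h
        ext i
        simp [hcon i]
      obtain ⟨i, hi⟩ := h1
      have h3 : i ∈ β.support := by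
        rw [Finsupp.mem_support_iff]; exact hi
      have h4 : β i ≤ ∑ j ∈ β.support, β j :=
        Finset.single_le_sum (f := fun j => β j) (fun _ _ => Nat.zero_le _) h3
      have h5 : 1 ≤ β.degree := by
        rw [Finsupp.degree_apply]; omega
      have h6 : (α + Q • β).degree = α.degree + Q * β.degree := by
        rw [map_add, map_nsmul, smul_eq_mul]
      have h7 : Q * 1 ≤ Q * β.degree := Nat.mul_le_mul_left _ h5
      rw [← Finsupp.degree_apply, h6]
      omega
    rw [this, map_zero]

/-- Splittings of `A` give splittings of the polynomial ring. -/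
theorem split_mvPolynomial {p : ℕ} [ExpChar A p] (hp : 0 < p) (hs : Split p A) :
    Split p (MvPolynomial σ A) := by
  intro e
  obtain ⟨κ, h1, h2⟩ := hs e
  have hQ : 0 < p ^ e := Nat.pow_pos hp
  refine ⟨cart κ hQ 0, isCart_cart κ h1 hQ 0 (fun _ => by simpa using hQ), ?_⟩
  classical
  ext β
  rw [coeff_cart, zero_add]
  have : (1 : MvPolynomial σ A) = C 1 := by simp
  rw [this, coeff_C, coeff_C]
  by_cases h : (0 : σ →₀ ℕ) = β
  · rw [← h]; simp [h2]
  · rw [if_neg h, if_neg, map_zero]
    intro h3
    apply h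
    ext i
    have := DFunLike.congr_fun h3 i
    simp only [Finsupp.smul_apply, smul_eq_mul, Finsupp.coe_zero, Pi.zero_apply] at this
    have h4 := (mul_eq_zero.1 this.symm).resolve_left hQ.ne'
    simp [h4]

end Pool.Agent.Lib.MP_71915d_ag
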