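import Pool.Agent.Lib.MP_71915d_ag.Defs

set_option autoImplicit false

namespace Pool.Agent.Lib.MP_71915d_ag

section ring

variable {p : ℕ} {R : Type*} [CommRing R] [ExpChar R p]

/-- The ideal `K^{[p^e]}`. -/
abbrev frobMap (p : ℕ) {R : Type*} [CommRing R] [ExpChar R p] (e : ℕ) (K : Ideal R) : Ideal R :=
  Ideal.map (iterateFrobenius R p e) K

theorem pow_mem_frobMap {K : Ideal R} {x : R} (hx : x ∈ K) (e : ℕ) : x ^ p ^ e ∈ frobMap p e K := by
  have := Ideal.mem_map_of_mem (iterateFrobenius R p e) hx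
  rwa [iterateFrobenius_def] at this

theorem frobMap_frobMap (d e : ℕ) (K : Ideal R) :
    frobMap p d (frobMap p e K) = frobMap p (e + d) K := by
  unfold frobMap
  rw [Ideal.map_map, add_comm e d, iterateFrobenius_add]

/-- `D` is a `p^{-e}`-linear operator. -/
def IsCart (p e : ℕ) {R : Type*} [CommRing R] (D : R →+ R) : Prop :=
  ∀ r s : R, D (r ^ p ^ e * s) = r * D s

theorem IsCart.mem {e : ℕ} {D : R →+ R} (hD : IsCart p e D) {K : Ideal R} {x : R}
    (hx : x ∈ frobMap p e K) : D x ∈ K := by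
  have key : ∀ y : R, D (y * x) ∈ K := by
    unfold frobMap Ideal.map at hx
    refine Submodule.span_induction (p := fun x _ => ∀ y : R, D (y * x) ∈ K) ?_ ?_ ?_ ?_ hx
    · rintro _ ⟨k, hk, rfl⟩ y
      rw [iterateFrobenius_def, mul_comm, hD]
      exact K.mul_mem_right _ hk
    · intro y; simp
    · intro a b _ _ ha hb y
      rw [mul_add, map_add]
      exact K.add_mem (ha y) (hb y)
    · intro a b _ hb y
      rw [smul_eq_mul, ← mul_assoc]
      exact hb _
  simpa using key 1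

theorem IsCart.mem_pow {e d : ℕ} {D : R →+ R} (hD : IsCart p d D) {K : Ideal R} {x h : R}
    (h1 : D h = 1) (hx : x ^ p ^ d * h ∈ frobMap p (e + d) K) : x ∈ frobMap p e K := by
  rw [← frobMap_frobMap] at hx
  have := hD.mem hx
  rwa [hD, h1, mul_one] at this

theorem IsCart.comp {e d : ℕ} {D E : R →+ R} (hD : IsCart p d D) (hE : IsCart p e E) :
    IsCart p (e + d) (E.comp D) := by
  intro r s
  simp only [AddMonoidHom.comp_apply]
  rw [pow_add, pow_mul, hD, hE]

variable {r : ℕ}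

/-- The ideal `I_1^{⌈x_1 p^e⌉} ⋯ I_r^{⌈x_r p^e⌉}`. -/
noncomputable def JJ (p : ℕ) (I : Fin r → Ideal R) (x : Fin r → ℝ) (e : ℕ) : Ideal R :=
  ∏ i, I i ^ ⌈x i * (p : ℝ) ^ e⌉₊

/-- The smallest `K` with `J ⊆ K^{[p^e]}`. -/
noncomputable def TT (p : ℕ) {R : Type*} [CommRing R] [ExpChar R p] (I : Fin r → Ideal R)
    (x : Fin r → ℝ) (e : ℕ) : Ideal R :=
  sInf {K : Ideal R | JJ p I x e ≤ frobMap p e K}

theorem mixed_eq (I : Fin r → Ideal R) (x : Fin r → ℝ) :
    mixedTestIdeal p I x = ⨆ e, TT p I x e := rfl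

theorem JJ_anti (I : Fin r → Ideal R) {x y : Fin r → ℝ} (h : ∀ i, x i ≤ y i) (e : ℕ) :
    JJ p I y e ≤ JJ p I x e := by
  unfold JJ
  refine Finset.prod_le_prod' fun i _ => ?_
  exact Ideal.pow_le_pow_right (Nat.ceil_mono (mul_le_mul_of_nonneg_right (h i) (by positivity)))

theorem mixed_anti (I : Fin r → Ideal R) {x y : Fin r → ℝ} (h : ∀ i, x i ≤ y i) :
    mixedTestIdeal p I y ≤ mixedTestIdeal p I x := by
  rw [mixed_eq, mixed_eq]
  refine iSup_mono fun e => sInf_le_sInf ?_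
  intro K hK
  exact (JJ_anti I h e).trans hK

theorem pow_mem_JJ (I : Fin r → Ideal R) (x : Fin r → ℝ) {e : ℕ} (d : ℕ) {G : R}
    (hG : G ∈ JJ p I x e) : G ^ p ^ d ∈ JJ p I x (e + d) := by
  have h1 : G ^ p ^ d ∈ (JJ p I x e) ^ p ^ d := Ideal.pow_mem_pow hG _
  refine (?_ : (JJ p I x e) ^ p ^ d ≤ JJ p I x (e + d)) h1
  unfold JJ
  rw [← Finset.prod_pow]
  refine Finset.prod_le_prod' fun i _ => ?_
  rw [← pow_mul]
  apply Ideal.pow_le_pow_right
  rw [Nat.ceil_le]
  push_cast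
  rw [pow_add, ← mul_assoc]
  exact mul_le_mul_of_nonneg_right (Nat.le_ceil _) (by positivity)

/-- the ring is split: there are `p^{-e}`-linear maps with `D 1 = 1` -/
def Split (p : ℕ) (R : Type*) [CommRing R] : Prop :=
  ∀ e : ℕ, ∃ D : R →+ R, IsCart p e D ∧ D 1 = 1

theorem TT_mono (hs : Split p R) (I : Fin r → Ideal R) (x : Fin r → ℝ) (e d : ℕ) :
    TT p I x e ≤ TT p I x (e + d) := by
  refine sInf_le_sInf ?_
  intro K hK G hG
  obtain ⟨D, hD, h1⟩ := hs d
  have h2 : G ^ p ^ d * 1 ∈ frobMap p (e + d) K := by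
    rw [mul_one]
    exact hK (pow_mem_JJ I x d hG)
  exact hD.mem_pow h1 h2

/-- Upper bound for the mixed test ideal. -/
theorem mixed_le (hs : Split p R) (I : Fin r → Ideal R) (x : Fin r → ℝ) (L : Ideal R) (n : ℕ)
    (h : ∀ d, JJ p I x (n + d) ≤ frobMap p (n + d) L) : mixedTestIdeal p I x ≤ L := by
  rw [mixed_eq]
  refine iSup_le fun e => ?_
  refine (TT_mono hs I x e n).trans ?_
  rw [add_comm]
  exact sInf_le (h e)

theorem natCeil_div {a n d p : ℕ} (hp : 0 < p) :
    ⌈((a : ℝ) / (p : ℝ) ^ n) * (p : ℝ) ^ (n + d)⌉₊ = a * p ^ d := by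
  have hp' : (0 : ℝ) < p := by exact_mod_cast hp
  have : ((a : ℝ) / (p : ℝ) ^ n) * (p : ℝ) ^ (n + d) = ((a * p ^ d : ℕ) : ℝ) := by
    push_cast
    rw [pow_add]
    field_simp
  rw [this, Nat.ceil_natCast]

theorem JJ_principal (hp : 0 < p) (F : Fin r → R) (a : Fin r → ℕ) (n d : ℕ) :
    JJ p (fun i => Ideal.span {F i}) (fun i => (a i : ℝ) / (p : ℝ) ^ n) (n + d) =
      Ideal.span {(∏ i, F i ^ a i) ^ p ^ d} := by
  unfold JJ
  simp only [natCeil_div hp]
  rw [← Finset.prod_pow, ← Ideal.prod_span_singleton]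
  refine Finset.prod_congr rfl fun i _ => ?_
  rw [Ideal.span_singleton_pow, pow_mul]

/-- The core argument: infinitely many values of the mixed test ideals of principal ideals. -/
theorem core (hp : 1 < p) (hs : Split p R) (F : Fin r → R) (k : ℕ → ℕ) (a : ℕ → Fin r → ℕ)
    (L : ℕ → Ideal R)
    (u : ℕ → R) (e0 : ℕ) (D0 : R →+ R) (hD0 : IsCart p e0 D0) (hD01 : D0 (∏ i, F i) = 1)
    (hU : ∀ n, (∏ i, F i ^ a n i) ∈ frobMap p (k n) (L n))
    (hC : ∀ n, ∃ C : R →+ R, IsCart p (k n) C ∧ C (∏ i, F i ^ a n i) = u n)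
    (hne : ∀ n m, n ≠ m → u n ∉ L m)
    (ha : ∀ n i, a n i < p ^ k n) :
    NoClosedDecomposition (mixedTestIdeal p (fun i => Ideal.span {F i})) 1 ∧
      (mixedTestIdeal p (fun i => Ideal.span {F i}) '' box r 1).Infinite := by
  have hp0 : 0 < p := by omega
  have hpR : (0 : ℝ) < p := by exact_mod_cast hp0
  set I : Fin r → Ideal R := fun i => Ideal.span {F i} with hI
  -- the small open boxes
  let lo : ℕ → Fin r → ℝ := fun n i => (a n i : ℝ) / (p : ℝ) ^ k n
  let hi : ℕ → Fin r → ℝ := fun n i => ((a n i * p ^ e0 + 1 : ℕ) : ℝ) / (p : ℝ) ^ (k n + e0)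
  let U : ℕ → Set (Fin r → ℝ) := fun n => {x | ∀ i, lo n i < x i ∧ x i < hi n i}
  have hlohi : ∀ n i, lo n i < hi n i := by
    intro n i
    simp only [lo, hi]
    rw [pow_add, div_lt_div_iff₀ (by positivity) (by positivity)]
    push_cast
    have : (0 : ℝ) < (p : ℝ) ^ k n := by positivity
    nlinarith
  have hhi1 : ∀ n i, hi n i ≤ 1 := by
    intro n i
    simp only [hi]
    rw [div_le_one (by positivity)]
    have h1 : a n i + 1 ≤ p ^ k n := ha n i
    have h2 : a n i * p ^ e0 + 1 ≤ p ^ (k n + e0) := by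
      rw [pow_add]
      have h3 : 1 ≤ p ^ e0 := Nat.one_le_pow _ _ hp0
      calc a n i * p ^ e0 + 1 ≤ a n i * p ^ e0 + p ^ e0 := by omega
        _ = (a n i + 1) * p ^ e0 := by ring
        _ ≤ p ^ k n * p ^ e0 := Nat.mul_le_mul_right _ h1
    exact_mod_cast h2
  have hlo0 : ∀ n i, 0 ≤ lo n i := fun n i => by simp only [lo]; positivity
  have hUo : ∀ n, IsOpen (U n) := by
    intro n
    have : U n = ⋂ i, {x : Fin r → ℝ | lo n i < x i ∧ x i < hi n i} := by
      ext x; simp [U]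
    rw [this]
    refine isOpen_iInter_of_finite fun i => ?_
    exact (isOpen_lt continuous_const (continuous_apply i)).inter
      (isOpen_lt (continuous_apply i) continuous_const)
  have hUne : ∀ n, (U n).Nonempty := by
    intro n
    refine ⟨fun i => (lo n i + hi n i) / 2, fun i => ?_⟩
    have := hlohi n i
    constructor <;> linarith
  have hUbox : ∀ n, U n ⊆ box r 1 := by
    intro n x hx i
    have h1 := hx i
    exact ⟨(hlo0 n i).trans h1.1.le, h1.2.le.trans (hhi1 n i)⟩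
  -- upper bound
  have hup : ∀ n, ∀ x ∈ U n, mixedTestIdeal p I x ≤ L n := by
    intro n x hx
    refine (mixed_anti I (fun i => (hx i).1.le)).trans ?_
    refine mixed_le hs I (lo n) (L n) (k n) fun d => ?_
    have := JJ_principal (R := R) hp0 F (a n) (k n) d
    rw [show JJ p I (lo n) (k n + d) = _ from this, Ideal.span_singleton_le_iff_mem]
    rw [← frobMap_frobMap]
    exact pow_mem_frobMap (hU n) d
  -- lower bound
  have hlow : ∀ n, ∀ x ∈ U n, u n ∈ mixedTestIdeal p I x := by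
    intro n x hx
    have h1 : mixedTestIdeal p I (hi n) ≤ mixedTestIdeal p I x :=
      mixed_anti I (fun i => (hx i).2.le)
    refine h1 ?_
    rw [mixed_eq]
    refine (le_iSup (TT p I (hi n)) (k n + e0)) ?_
    unfold TT
    rw [Submodule.mem_sInf]
    intro K hK
    have h2 := JJ_principal (R := R) hp0 F (fun i => a n i * p ^ e0 + 1) (k n + e0) 0
    have h3 : JJ p I (hi n) (k n + e0) = Ideal.span {(∏ i, F i ^ a n i) ^ p ^ e0 * ∏ i, F i} := by
      have h4 : JJ p I (hi n) (k n + e0) = JJ p I (hi n) (k n + e0 + 0) := by rw [add_zero]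
      rw [h4]
      refine h2.trans ?_
      congr 2
      rw [pow_zero, pow_one, ← Finset.prod_pow, ← Finset.prod_mul_distrib]
      refine Finset.prod_congr rfl fun i _ => ?_
      rw [pow_succ, pow_mul]
    have h5 : (∏ i, F i ^ a n i) ^ p ^ e0 * ∏ i, F i ∈ frobMap p (k n + e0) K := by
      have hK' : JJ p I (hi n) (k n + e0) ≤ frobMap p (k n + e0) K := hK
      rw [h3, Ideal.span_singleton_le_iff_mem] at hK'
      exact hK'
    have h6 := hD0.mem_pow hD01 h5
    obtain ⟨C, hC1, hC2⟩ := hC n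
    rw [← hC2]
    exact hC1.mem h6
  have hdist : ∀ n m, n ≠ m → ∀ x ∈ U n, ∀ y ∈ U m,
      mixedTestIdeal p I x ≠ mixedTestIdeal p I y := by
    intro n m hnm x hx y hy heq
    have h1 := hlow n x hx
    rw [heq] at h1
    exact hne n m hnm (hup m y hy h1)
  exact ⟨noClosedDecomposition_of hUo hUne hUbox hdist, infinite_of hUne hUbox hdist⟩

end ring

end Pool.Agent.Lib.MP_71915d_ag
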