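import Pool.Agent.Lib.MP_71915d_ag.Pid

set_option autoImplicit false

namespace Pool.Agent.Lib.MP_71915d_ag

open Polynomial

section transport

variable {p : ℕ}

theorem isCart_conj {R R' : Type*} [CommRing R] [CommRing R'] (φ : R ≃+* R') {e : ℕ}
    {D : R →+ R} (hD : IsCart p e D) :
    IsCart p e (((φ : R →+* R').toAddMonoidHom.comp D).comp
      (φ.symm : R' →+* R).toAddMonoidHom) := by
  intro a b
  have h := hD (φ.symm a) (φ.symm b)
  simp only [AddMonoidHom.comp_apply, RingHom.toAddMonoidHom_eq_coe, AddMonoidHom.coe_coe,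
    RingHom.coe_coe]
  rw [map_mul, map_pow, h, map_mul, RingEquiv.apply_symm_apply]

theorem rt_le_equiv {R R' : Type*} [CommRing R] [CommRing R'] (φ : R ≃+* R') {s e : ℕ} {F G : R}
    (h : rt p s F ≤ rt p e G) : rt p s (φ F) ≤ rt p e (φ G) := by
  rintro _ ⟨D, hD, rfl⟩
  have h1 : φ.symm (D (φ F)) ∈ rt p s F := by
    refine ⟨_, isCart_conj φ.symm hD, ?_⟩
    simp
  obtain ⟨E, hE, hE2⟩ := h h1
  refine ⟨_, isCart_conj φ hE, ?_⟩
  simp [hE2]

/-- local comparison of roots -/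
theorem local_rt {R : Type*} [CommRing R] {r : ℕ} (hp : 0 < p) (F : Fin r → R) (A A1 : Fin r → ℕ)
    {s e : ℕ}
    (hloc : ∀ m : Ideal R, m.IsMaximal → ∃ T : Finset (Fin r), (∀ l, l ∉ T → F l ∉ m) ∧
      rt p s (∏ i ∈ T, F i ^ A1 i) ≤ rt p e (∏ i ∈ T, F i ^ A i)) :
    rt p s (∏ i, F i ^ A1 i) ≤ rt p e (∏ i, F i ^ A i) := by
  classical
  intro t ht
  by_contra hcon
  let K : Ideal R := Submodule.comap (LinearMap.mulRight R t) (rt p e (∏ i, F i ^ A i))
  have hK : ∀ u, u ∈ K ↔ u * t ∈ rt p e (∏ i, F i ^ A i) := fun u => Iff.rfl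
  have hK1 : K ≠ ⊤ := by
    intro h
    apply hcon
    have : (1 : R) ∈ K := h ▸ Submodule.mem_top
    rw [hK, one_mul] at this
    exact this
  obtain ⟨m, hm, hKm⟩ := Ideal.exists_le_maximal K hK1
  obtain ⟨T, hT, hle⟩ := hloc m hm
  have hsplit : ∀ a : Fin r → ℕ, ∏ i, F i ^ a i = (∏ i ∈ Tᶜ, F i ^ a i) * ∏ i ∈ T, F i ^ a i := by
    intro a
    rw [mul_comm]
    exact (Finset.prod_mul_prod_compl T _).symm
  have h1 : t ∈ rt p s (∏ i ∈ T, F i ^ A1 i) := by
    refine rt_dvd s ?_ ht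
    rw [hsplit A1]
    exact dvd_mul_left _ _
  obtain ⟨E, hE, hEt⟩ := hle h1
  have h2 : (∏ i ∈ Tᶜ, F i ^ A i) ∈ K := by
    rw [hK, ← hEt, ← hE]
    refine rt_dvd e ?_ ⟨E, hE, rfl⟩
    rw [hsplit A]
    exact mul_dvd_mul_right (dvd_pow_self _ (Nat.pow_pos hp).ne') _
  have h3 := hKm h2
  have hprime := hm.isPrime
  obtain ⟨i, hi, hi2⟩ := (Ideal.IsPrime.prod_mem_iff (p := m) (s := Tᶜ)).1 h3
  exact hT i (Finset.mem_compl.1 hi) (hprime.mem_of_pow_mem _ hi2)

end transport

section curves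

variable {p : ℕ} {S : Type*} [CommRing S]

/-- the translation `x ↦ x - a` -/
noncomputable def trans (a : S) : S[X] ≃+* S[X] :=
  (Polynomial.algEquivAevalXAddC (-a)).toRingEquiv

theorem trans_X (a : S) : trans a X = X - C a := by
  simp [trans, sub_eq_add_neg]

theorem trans_C (a b : S) : trans a (C b) = C b := by
  simp [trans]

theorem trans_gg (a b : S) : trans a (gg 1 (a - b)) = X - C b := by
  unfold gg
  rw [pow_one, map_add, trans_X, trans_C, C_sub]
  ring

variable [ExpChar S p]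

theorem pair_good [hp : Fact p.Prime] [CharP S p] (hS : FrobProj p S) {a b : S} {s : ℕ}
    (hs : Grid p (a - b) s) (d A B : ℕ) :
    rt p s ((X - C a) ^ (A / p ^ d) * (X - C b) ^ (B / p ^ d)) ≤
      rt p (s + d) ((X - C a) ^ A * (X - C b) ^ B) := by
  have h1 : ¬ p ∣ 1 := fun h => hp.out.one_lt.ne' (Nat.dvd_one.1 h)
  have h2 := rt_le_equiv (trans a) (rt_le_rt_grid' hS h1 hs d A B)
  rwa [map_mul, map_mul, map_pow, map_pow, map_pow, map_pow, trans_gg, trans_X] at h2

theorem grid_one [hp : Fact p.Prime] (hS : FrobProj p S) (s : ℕ) : Grid p (1 : S) s := by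
  intro d j r _
  rw [one_pow, one_pow]
  obtain ⟨σ, hσ, h1⟩ := hS.split hp.out.pos (s + d)
  have : rt p (s + d) (1 : S) = ⊤ := (Ideal.eq_top_iff_one _).2 ⟨σ, hσ, h1⟩
  rw [this]
  exact le_top

theorem single_good [hp : Fact p.Prime] [CharP S p] (hS : FrobProj p S) (a : S) (s d A : ℕ) :
    rt p s ((X - C a) ^ (A / p ^ d)) ≤ rt p (s + d) ((X - C a) ^ A) := by
  have h1 : Grid p (a - (a - 1)) s := by
    have : a - (a - 1) = 1 := by ring
    rw [this]
    exact grid_one hS s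
  have h2 := pair_good hS h1 d A 0
  rwa [Nat.zero_div, pow_zero, mul_one, mul_one] at h2

/-- the elements `x - h_i` -/
noncomputable def FFr {r : ℕ} (h : Fin r → S) : Fin r → S[X] := fun i => X - C (h i)

/-- the mixed test ideals of the ideals `(x - h_i)` -/
noncomputable def PhiR (p : ℕ) {S : Type*} [CommRing S] [ExpChar S p] {r : ℕ} (h : Fin r → S)
    (x : Fin r → ℝ) : Ideal S[X] :=
  mixedTestIdeal p (fun i => Ideal.span {FFr h i}) x

theorem PhiR_rat (hS : FrobProj p S) (hp : 0 < p) {r : ℕ} (h : Fin r → S) (a : Fin r → ℕ)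
    (n : ℕ) : PhiR p h (fun i => (a i : ℝ) / (p : ℝ) ^ n) = rt p n (∏ i, FFr h i ^ a i) :=
  mixed_rat (hS.poly hp) hp (FFr h) a n

theorem PhiR_anti {r : ℕ} (h : Fin r → S) {x y : Fin r → ℝ} (hxy : ∀ i, x i ≤ y i) :
    PhiR p h y ≤ PhiR p h x := mixed_anti _ hxy

/-- no three of the curves meet -/
def NoTriple {S : Type*} [CommRing S] {r : ℕ} (h : Fin r → S) : Prop :=
  ∀ π : S, Prime π → ∀ i j l, i ≠ j → j ≠ l → i ≠ l → ¬ (π ∣ h i - h j ∧ π ∣ h i - h l)

theorem rt_le_rt_family [hp : Fact p.Prime] [CharP S p] [IsDomain S] [IsPrincipalIdealRing S]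
    (hS : FrobProj p S) {r : ℕ} {h : Fin r → S} (hinj : Function.Injective h)
    (hA : NoTriple h) {s : ℕ} (hs : ∀ i j, i ≠ j → Grid p (h i - h j) s) (d : ℕ)
    (A : Fin r → ℕ) :
    rt p s (∏ i, FFr h i ^ (A i / p ^ d)) ≤ rt p (s + d) (∏ i, FFr h i ^ A i) := by
  classical
  refine local_rt hp.out.pos (FFr h) A (fun i => A i / p ^ d) fun m hm => ?_
  by_cases h2 : ∃ i j, i ≠ j ∧ FFr h i ∈ m ∧ FFr h j ∈ m
  · obtain ⟨i, j, hij, hi, hj⟩ := h2
    refine ⟨{i, j}, fun l hl hlm => ?_, ?_⟩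
    · rw [Finset.mem_insert, Finset.mem_singleton, not_or] at hl
      have hprime := hm.isPrime
      have hd : ∀ a b, FFr h a ∈ m → FFr h b ∈ m → h a - h b ∈ m.comap (C : S →+* S[X]) := by
        intro a b ha hb
        rw [Ideal.mem_comap]
        have : C (h a - h b) = FFr h b - FFr h a := by
          unfold FFr
          rw [C_sub]
          ring
        rw [this]
        exact m.sub_mem hb ha
      have h3 : m.comap (C : S →+* S[X]) ≠ ⊥ := by
        intro h4
        have h5 := hd i j hi hj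
        rw [h4, Ideal.mem_bot, sub_eq_zero] at h5
        exact hij (hinj h5)
      have h6 : (m.comap (C : S →+* S[X])).IsPrime := Ideal.comap_isPrime _ _
      have h7 := Submodule.IsPrincipal.prime_generator_of_isPrime (m.comap (C : S →+* S[X])) h3
      have h8 : ∀ x ∈ m.comap (C : S →+* S[X]),
          Submodule.IsPrincipal.generator (m.comap (C : S →+* S[X])) ∣ x := fun x hx =>
        (Submodule.IsPrincipal.mem_iff_generator_dvd _).1 hx
      exact hA _ h7 i j l hij (Ne.symm hl.2) (Ne.symm hl.1)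
        ⟨h8 _ (hd i j hi hj), h8 _ (hd i l hi hlm)⟩
    · rw [Finset.prod_pair hij, Finset.prod_pair hij]
      exact pair_good hS (hs i j hij) d (A i) (A j)
  · push Not at h2
    by_cases h3 : ∃ i, FFr h i ∈ m
    · obtain ⟨i, hi⟩ := h3
      refine ⟨{i}, fun l hl hlm => ?_, ?_⟩
      · rw [Finset.mem_singleton] at hl
        exact h2 i l (Ne.symm hl) hi hlm
      · rw [Finset.prod_singleton, Finset.prod_singleton]
        exact single_good hS (h i) s d (A i)
    · push Not at h3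
      refine ⟨∅, fun l _ => h3 l, ?_⟩
      rw [Finset.prod_empty, Finset.prod_empty]
      have := grid_one (hS.poly hp.out.pos) s (p := p) d 0 0 (Nat.pow_pos hp.out.pos)
      rwa [one_pow, one_pow] at this

/-- the values on grid cubes -/
theorem PhiR_eq_corner [hp : Fact p.Prime] [CharP S p] [IsDomain S] [IsPrincipalIdealRing S]
    (hS : FrobProj p S) {r : ℕ} {h : Fin r → S} (hinj : Function.Injective h)
    (hA : NoTriple h) {s : ℕ} (hs : ∀ i j, i ≠ j → Grid p (h i - h j) s)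
    (x : Fin r → ℝ) (hx : ∀ i, 0 ≤ x i) :
    PhiR p h x = rt p s (∏ i, FFr h i ^ ⌊x i * (p : ℝ) ^ s⌋₊) := by
  classical
  have hp0 := hp.out.pos
  have hpR : (0 : ℝ) < p := by exact_mod_cast hp0
  have hQ : (0 : ℝ) < (p : ℝ) ^ s := by positivity
  apply le_antisymm
  · rw [← PhiR_rat hS hp0 h (fun i => ⌊x i * (p : ℝ) ^ s⌋₊) s]
    refine PhiR_anti h fun i => ?_
    rw [div_le_iff₀ hQ]
    exact Nat.floor_le (mul_nonneg (hx i) hQ.le)
  · have h0 := fun i => exists_approx (p := p) s (hx i)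
    choose d0 h0 using h0
    have h1 : ∀ i, d0 i ≤ ∑ j, d0 j := fun i =>
      Finset.single_le_sum (fun _ _ => Nat.zero_le _) (Finset.mem_univ i)
    choose A hA1 hA2 using fun i => h0 i (∑ j, d0 j) (h1 i)
    have h2 : (fun i => FFr h i ^ ⌊x i * (p : ℝ) ^ s⌋₊) =
        fun i => FFr h i ^ (A i / p ^ ∑ j, d0 j) := by
      funext i
      rw [hA2]
    rw [h2]
    refine (rt_le_rt_family hS hinj hA hs (∑ j, d0 j) A).trans ?_
    rw [← PhiR_rat hS hp0]
    exact PhiR_anti h hA1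

/-- the direct direction for families of sections -/
theorem decomposition_family [hp : Fact p.Prime] [CharP S p] [IsDomain S]
    [IsPrincipalIdealRing S] (hS : FrobProj p S) {r : ℕ} {h : Fin r → S}
    (hinj : Function.Injective h) (hA : NoTriple h)
    (hB : ∀ π : S, Prime π → ∀ i j, i ≠ j → π ∣ h i - h j →
      ∃ t : ℕ, π ^ p ^ t ∣ h i - h j ∧ ¬ π ^ (p ^ t + 1) ∣ h i - h j) (M : ℝ) :
    HasRationalDecomposition (PhiR p h) M := by
  classical
  have hne : ∀ i j, i ≠ j → h i - h j ≠ 0 := fun i j hij h0 =>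
    hij (hinj (sub_eq_zero.1 h0))
  -- a common level
  have h1 : ∀ i j, ∃ s : ℕ, i ≠ j → ∀ s', s ≤ s' → Grid p (h i - h j) s' := by
    intro i j
    by_cases hij : i = j
    · exact ⟨0, fun h => absurd hij h⟩
    · obtain ⟨N, hN⟩ := exists_bound (hne i j hij)
      refine ⟨N, fun _ s' hs' => grid_of_orders hS (hne i j hij) fun π hπ hd => ?_⟩
      obtain ⟨t, ht1, ht2⟩ := hB π hπ i j hij hd
      refine ⟨t, ?_, ht1, ht2⟩
      have h2 := hN π hπ _ ht1
      have h3 : t < p ^ t := Nat.lt_pow_self hp.out.one_lt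
      omega
  choose σ hσ using h1
  let s := ∑ i, ∑ j, σ i j
  have hs : ∀ i j, i ≠ j → Grid p (h i - h j) s := by
    intro i j hij
    refine hσ i j hij s ?_
    calc σ i j ≤ ∑ j, σ i j := Finset.single_le_sum (f := fun j => σ i j)
          (fun _ _ => Nat.zero_le _) (Finset.mem_univ j)
      _ ≤ _ := Finset.single_le_sum (f := fun i => ∑ j, σ i j)
          (fun _ _ => Nat.zero_le _) (Finset.mem_univ i)
  refine grid_decomposition (Q := p ^ s) (Nat.pow_pos hp.out.pos) (fun x y hx hy hxy => ?_) M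
  rw [PhiR_eq_corner hS hinj hA hs x hx, PhiR_eq_corner hS hinj hA hs y hy]
  congr 1
  refine Finset.prod_congr rfl fun i _ => ?_
  have := hxy i
  push_cast at this
  rw [this]

end curves

end Pool.Agent.Lib.MP_71915d_ag
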