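import Pool.Agent.Lib.MP_71915d_ag.Curves1

set_option autoImplicit false

namespace Pool.Agent.Lib.MP_71915d_ag

open Polynomial

section curves2

variable {p : ℕ} {S : Type*} [CommRing S] [ExpChar S p]

/-- right constancy -/
theorem PhiR_right (hS : FrobProj p S) [hp : Fact p.Prime] {r : ℕ} (h : Fin r → S) :
    ∃ e0 : ℕ, ∀ (a : Fin r → ℕ) (n : ℕ) (w : Fin r → ℝ),
      (∀ l, 0 < w l ∧ w l < 1 / (p : ℝ) ^ (n + e0)) →
      PhiR p h ((fun i => (a i : ℝ) / (p : ℝ) ^ n) + w) =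
        PhiR p h (fun i => (a i : ℝ) / (p : ℝ) ^ n) := by
  have hp0 := hp.out.pos
  rcases subsingleton_or_nontrivial S with hsub | hnon
  · refine ⟨0, fun a n w _ => ?_⟩
    have : Subsingleton S[X] := inferInstance
    exact Subsingleton.elim _ _
  have hQ : 0 < p ^ r := Nat.pow_pos hp0
  have hlt : r < p ^ r := Nat.lt_pow_self hp.out.one_lt
  obtain ⟨σ, hσ, h1⟩ := hS.split hp0 r
  refine ⟨r, fun a n w hw => ?_⟩
  have hmonic : (∏ i, FFr h i).Monic := monic_prod_of_monic _ _ fun i _ => monic_X_sub_C (h i)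
  have hdeg : (∏ i, FFr h i).natDegree = r := by
    unfold FFr
    rw [natDegree_prod_of_monic _ _ fun i _ => monic_X_sub_C (h i)]
    simp
  have hD : pc σ hQ r (∏ i, FFr h i) = 1 := by
    ext u
    rw [coeff_pc, coeff_one]
    by_cases hu : u = 0
    · rw [if_pos hu, hu, mul_zero, add_zero]
      have h2 := hmonic.coeff_natDegree
      rw [hdeg] at h2
      rw [h2, h1]
    · rw [if_neg hu, coeff_eq_zero_of_natDegree_lt, map_zero]
      rw [hdeg]
      have : 0 < p ^ r * u := Nat.mul_pos hQ (Nat.pos_of_ne_zero hu)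
      omega
  refine mixed_right (hS.poly hp0) hp0 (FFr h) a n r (isCart_pc σ hσ hQ hlt) hD _ ?_ ?_
  · intro i
    rw [Pi.add_apply]
    linarith [(hw i).1]
  · intro i
    rw [Pi.add_apply]
    linarith [(hw i).2]

/-- alternation for families -/
theorem PhiR_alternation [hp : Fact p.Prime] (hS : FrobProj p S) {r : ℕ}
    (h : Fin r → S) {M : ℝ} (hM : 1 ≤ M) {N : ℕ} {P : Fin N → Set (Fin r → ℝ)}
    (hP : ∀ j, IsClosed (P j)) (hcv : ∀ j, Convex ℝ (P j)) (hcov : box r M ⊆ ⋃ j, P j)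
    (hconst : ∀ j, ∀ x ∈ interior (P j), ∀ y ∈ interior (P j), PhiR p h x = PhiR p h y)
    (n K : ℕ) (e : ℕ → Fin r → ℕ) (a v : Fin r → ℝ) (t : ℕ → ℝ)
    (ht : ∀ i, i < K → t i < t (i + 1))
    (he : ∀ i, i ≤ K → ∀ l, (e i l : ℝ) = a l + t i * v l)
    (hlt : ∀ i, i ≤ K → ∀ l, e i l + 1 ≤ p ^ n)
    (hne : ∀ i, i < K → rt p n (∏ l, FFr h l ^ e i l) ≠ rt p n (∏ l, FFr h l ^ e (i + 1) l)) :
    K < N := by
  have hp0 := hp.out.pos
  have hpR : (0 : ℝ) < p := by exact_mod_cast hp0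
  have hp1 : (1 : ℝ) < p := by exact_mod_cast hp.out.one_lt
  have hQ : (0 : ℝ) < (p : ℝ) ^ n := by positivity
  obtain ⟨e0, he0⟩ := PhiR_right hS h
  have hpt : ∀ i, i ≤ K → ((fun l => a l / (p : ℝ) ^ n) + t i • fun l => v l / (p : ℝ) ^ n) =
      fun l => (e i l : ℝ) / (p : ℝ) ^ n := by
    intro i hi
    funext l
    rw [he i hi l]
    simp only [Pi.add_apply, Pi.smul_apply, smul_eq_mul]
    ring
  refine alternation hP hcv hcov hconst K (fun l => a l / (p : ℝ) ^ n)
    (fun l => v l / (p : ℝ) ^ n) t ht ?_ ?_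
  · intro i hi
    rw [hpt i (by omega), hpt (i + 1) (by omega), PhiR_rat hS hp0, PhiR_rat hS hp0]
    exact hne i hi
  · intro i hi
    refine ⟨1 / (p : ℝ) ^ (n + e0), by positivity, fun w hw => ?_⟩
    rw [hpt i hi]
    refine ⟨fun l => ?_, he0 _ _ w hw⟩
    have h1 : 1 / (p : ℝ) ^ (n + e0) ≤ 1 / (p : ℝ) ^ n := by
      apply one_div_le_one_div_of_le hQ
      exact pow_le_pow_right₀ hp1.le (by omega)
    have h2 : (e i l : ℝ) / (p : ℝ) ^ n + 1 / (p : ℝ) ^ n ≤ 1 := by
      rw [← add_div, div_le_one hQ]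
      exact_mod_cast hlt i hi l
    have h3 : (0 : ℝ) ≤ (e i l : ℝ) / (p : ℝ) ^ n := by positivity
    have h4 := hw l
    rw [Pi.add_apply]
    constructor <;> linarith

/-- alternating points for a pair -/
theorem alternating_points [hp : Fact p.Prime] [CharP S p] (hS : FrobProj p S) {m : ℕ}
    (hm : ¬ p ∣ m) (h : S) (N : ℕ) {c : ℝ} (hc : FJump p h c) (hc1 : c < 1)
    (hcon : ∀ n N' : ℕ, c * (p : ℝ) ^ n ≠ N') :
    ∃ (n : ℕ) (A B : ℕ → ℕ), (∀ i, i ≤ 2 * N + 1 → A i + 1 ≤ p ^ n ∧ B i + 1 ≤ p ^ n) ∧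
      (∀ i, i < 2 * N + 1 → B i < B (i + 1)) ∧
      (∃ K : ℕ, ∀ i, i ≤ 2 * N + 1 → A i + m * B i = K) ∧
      ∀ i, i < 2 * N + 1 → rt p n ((X : S[X]) ^ A i * gg m h ^ B i) ≠
        rt p n ((X : S[X]) ^ A (i + 1) * gg m h ^ B (i + 1)) := by
  classical
  have hp0 := hp.out.pos
  have hpR : (0 : ℝ) < p := by exact_mod_cast hp0
  have hm1 : 1 ≤ m := by
    rcases Nat.eq_zero_or_pos m with h0 | h0
    · exact absurd (h0 ▸ dvd_zero p) hm
    · exact h0
  obtain ⟨n, l, h1, h2, h3⟩ := exists_places (p := p) hc.1.le hcon m (N + 1)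
  set G : ℕ := ⌊c * (p : ℝ) ^ n⌋₊ with hG
  have hQ : (0 : ℝ) < (p : ℝ) ^ n := by positivity
  have hC1 : (G : ℝ) < c * (p : ℝ) ^ n :=
    lt_of_le_of_ne (Nat.floor_le (by have := hc.1; positivity)) (hcon n G).symm
  have hC2 : c * (p : ℝ) ^ n < G + 1 := Nat.lt_floor_add_one _
  have hCQ : G < p ^ n := by
    have : (G : ℝ) < (p : ℝ) ^ n := by nlinarith
    exact_mod_cast this
  obtain ⟨g, hg1, hg2⟩ : ∃ g ∈ tau1 p h ((G : ℝ) / (p : ℝ) ^ n), g ∉ tau1 p h c := by
    have h4 : (G : ℝ) / (p : ℝ) ^ n < c := by rwa [div_lt_iff₀ hQ]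
    have h5 : tau1 p h c < tau1 p h ((G : ℝ) / (p : ℝ) ^ n) :=
      lt_of_le_of_ne (tau1_anti h h4.le) (hc.2 _ (by positivity) h4).symm
    exact SetLike.exists_of_lt h5
  have hpl : ∀ k, 0 < p ^ l k := fun k => Nat.pow_pos hp0
  have hlt : ∀ i, i ≤ 2 * N + 1 → m * (p ^ l (i / 2) - 1 + i % 2) < p ^ n := by
    intro i hi
    refine lt_of_le_of_lt (Nat.mul_le_mul_left _ ?_) (h3 (i / 2) (by omega)).2.2.1
    have := hpl (i / 2)
    omega
  refine ⟨n, fun i => p ^ n - 1 - m * (p ^ l (i / 2) - 1 + i % 2),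
    fun i => G + p ^ l (i / 2) - 1 + i % 2, ?_, ?_, ⟨p ^ n - 1 + m * G, ?_⟩, ?_⟩
  · intro i hi
    have h4 := h3 (i / 2) (by omega)
    have h5 := add_pow_lt h4.2.1 hCQ h4.2.2.2
    have h6 := hpl (i / 2)
    have h7 : 0 < p ^ n := Nat.pow_pos hp0
    have h8 := hlt i hi
    beta_reduce
    constructor <;> omega
  · intro i hi
    beta_reduce
    rcases Nat.mod_two_eq_zero_or_one i with h5 | h5
    · have h6 : (i + 1) / 2 = i / 2 := by omega
      have h7 : (i + 1) % 2 = 1 := by omega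
      rw [h6, h7, h5]
      omega
    · have h6 : (i + 1) / 2 = i / 2 + 1 := by omega
      have h7 : (i + 1) % 2 = 0 := by omega
      rw [h6, h7, h5]
      have h8 := h2 (i / 2) (by omega)
      have h9 := (h3 (i / 2) (by omega)).1
      have h10 : p ^ l (i / 2) * 2 ≤ p ^ l (i / 2 + 1) := by
        calc p ^ l (i / 2) * 2 ≤ p ^ l (i / 2) * p := Nat.mul_le_mul_left _ hp.out.two_le
          _ = p ^ (l (i / 2) + 1) := (pow_succ _ _).symm
          _ ≤ _ := Nat.pow_le_pow_right hp0 h8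
      have h11 : 2 ≤ p ^ l (i / 2) := by
        calc 2 ≤ p := hp.out.two_le
          _ = p ^ 1 := (pow_one p).symm
          _ ≤ _ := Nat.pow_le_pow_right hp0 h9
      omega
  · intro i hi
    have h4 := hlt i hi
    beta_reduce
    have h7 : G + p ^ l (i / 2) - 1 + i % 2 = G + (p ^ l (i / 2) - 1 + i % 2) := by
      have := hpl (i / 2)
      omega
    rw [h7, mul_add m G]
    omega
  · have hin : ∀ i, i ≤ 2 * N + 1 → i % 2 = 1 → C g * X ^ 0 ∈
        rt p n ((X : S[X]) ^ (p ^ n - 1 - m * (p ^ l (i / 2) - 1 + i % 2)) *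
          gg m h ^ (G + p ^ l (i / 2) - 1 + i % 2)) := by
      intro i hi hi2
      have h4 := h3 (i / 2) (by omega)
      have hpos := hpl (i / 2)
      have h5 : p ^ l (i / 2) - 1 + i % 2 = p ^ l (i / 2) := by omega
      have h6 : G + p ^ l (i / 2) - 1 + i % 2 = G + p ^ l (i / 2) := by omega
      rw [h5, h6]
      have := point_in hS hm h hCQ h4.2.1 h4.2.2.1 h4.2.2.2 hg1
      rwa [Phi_rat hS hp0] at this
    have hout : ∀ i, i ≤ 2 * N + 1 → i % 2 = 0 →
        rt p n ((X : S[X]) ^ (p ^ n - 1 - m * (p ^ l (i / 2) - 1 + i % 2)) *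
          gg m h ^ (G + p ^ l (i / 2) - 1 + i % 2)) ≤
        Ideal.span {(X : S[X]) ^ (0 + 1)} ⊔ Ideal.map (C : S →+* S[X]) (tau1 p h c) := by
      intro i hi hi2
      have h4 := h3 (i / 2) (by omega)
      have hpos := hpl (i / 2)
      rw [hi2, add_zero, add_zero]
      have := point_out hS hm1 h h4.1 h4.2.2.1 h1 hC2
      rwa [Phi_rat hS hp0] at this
    intro i hi heq
    beta_reduce at heq
    rcases Nat.mod_two_eq_zero_or_one i with h5 | h5
    · have h6 := hin (i + 1) (by omega) (by omega)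
      rw [← heq] at h6
      exact hg2 (mem_of_mul_X_pow (hout i (by omega) h5 h6))
    · have h6 := hin i (by omega) h5
      rw [heq] at h6
      exact hg2 (mem_of_mul_X_pow (hout (i + 1) (by omega) (by omega) h6))

/-- the jumping number `1/d` -/
theorem jump_of_order [hp : Fact p.Prime] [IsDomain S] (hS : FrobProj p S) {D π : S}
    (hπ : Prime π) {d : ℕ} (hd : 1 ≤ d) (h1 : π ^ d ∣ D) (h2 : ¬ π ^ (d + 1) ∣ D) :
    FJump p D (1 / (d : ℝ)) := by
  have hp0 := hp.out.pos
  have hpR : (1 : ℝ) < p := by exact_mod_cast hp.out.one_lt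
  have hdR : (0 : ℝ) < d := by exact_mod_cast hd
  have hup : tau1 p D (1 / (d : ℝ)) ≤ Ideal.span {π} := by
    unfold tau1
    rw [mixed_eq]
    refine iSup_le fun e => ?_
    unfold TT
    apply sInf_le
    rw [Set.mem_ofPred_eq]
    unfold JJ
    simp only [Finset.univ_unique, Finset.prod_const, Finset.card_singleton, pow_one,
      Ideal.span_singleton_pow]
    rw [Ideal.span_singleton_le_iff_mem]
    unfold frobMap
    rw [Ideal.map_span, Set.image_singleton, iterateFrobenius_def, Ideal.mem_span_singleton]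
    have h3 : p ^ e ≤ d * ⌈1 / (d : ℝ) * (p : ℝ) ^ e⌉₊ := by
      have h4 := Nat.le_ceil (1 / (d : ℝ) * (p : ℝ) ^ e)
      have h5 : (p : ℝ) ^ e ≤ d * (⌈1 / (d : ℝ) * (p : ℝ) ^ e⌉₊ : ℝ) := by
        calc (p : ℝ) ^ e = d * (1 / (d : ℝ) * (p : ℝ) ^ e) := by field_simp
          _ ≤ _ := mul_le_mul_of_nonneg_left h4 hdR.le
      exact_mod_cast h5
    refine (pow_dvd_pow π h3).trans ?_
    rw [pow_mul]
    exact pow_dvd_pow_of_dvd h1 _
  refine ⟨by positivity, fun c' hc0 hc' heq => ?_⟩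
  have h3 : (0 : ℝ) < 1 - d * c' := by
    rw [lt_div_iff₀ hdR] at hc'
    linarith
  obtain ⟨e, he⟩ := pow_unbounded_of_one_lt ((d : ℝ) / (1 - d * c')) hpR
  rw [div_lt_iff₀ h3] at he
  have hQ : (0 : ℝ) < (p : ℝ) ^ e := by positivity
  set A := ⌈c' * (p : ℝ) ^ e⌉₊ with hA
  have h4 : c' ≤ (A : ℝ) / (p : ℝ) ^ e := by
    rw [le_div_iff₀ hQ]
    exact Nat.le_ceil _
  have h5 : (A : ℝ) < c' * (p : ℝ) ^ e + 1 := Nat.ceil_lt_add_one (by positivity)
  have h6 : d * A < p ^ e := by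
    have : (d : ℝ) * A < (p : ℝ) ^ e := by nlinarith
    exact_mod_cast this
  have h7 : rt p e (D ^ A) ≤ Ideal.span {π} := by
    rw [← tau1_rat hS hp0]
    refine (tau1_anti D h4).trans ?_
    rw [heq]
    exact hup
  rw [rt_le_span_iff hS] at h7
  obtain ⟨y, hy⟩ := h1
  have hy2 : ¬ π ∣ y := by
    rintro ⟨w, rfl⟩
    apply h2
    exact ⟨w, by rw [hy, pow_succ, mul_assoc]⟩
  rw [hy, mul_pow, ← pow_mul] at h7
  have h8 := le_of_pow_dvd hπ (fun hd => hy2 (hπ.dvd_of_dvd_pow hd)) h7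
  omega

theorem prod_two {R : Type*} [CommRing R] {r : ℕ} (F : Fin r → R) {i j : Fin r} (hij : i ≠ j)
    (A B : ℕ) : ∏ l, F l ^ (if l = i then A else if l = j then B else 0) = F i ^ A * F j ^ B := by
  classical
  have h : ∀ l, F l ^ (if l = i then A else if l = j then B else 0) =
      (if l = i then F i ^ A else 1) * (if l = j then F j ^ B else 1) := by
    intro l
    by_cases h1 : l = i
    · subst h1
      rw [if_pos rfl, if_pos rfl, if_neg hij, mul_one]
    · rw [if_neg h1, if_neg h1, one_mul]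
      by_cases h2 : l = j
      · subst h2
        rw [if_pos rfl, if_pos rfl]
      · rw [if_neg h2, if_neg h2, pow_zero]
  rw [Finset.prod_congr rfl fun l _ => h l, Finset.prod_mul_distrib, Finset.prod_ite_eq',
    Finset.prod_ite_eq', if_pos (Finset.mem_univ _), if_pos (Finset.mem_univ _)]

theorem prod_three {R : Type*} [CommRing R] {r : ℕ} (F : Fin r → R) {i j k : Fin r} (hij : i ≠ j)
    (hik : i ≠ k) (hjk : j ≠ k) (A B G : ℕ) :
    ∏ l, F l ^ (if l = i then A else if l = j then B else if l = k then G else 0) =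
      F i ^ A * F j ^ B * F k ^ G := by
  classical
  have h : ∀ l, F l ^ (if l = i then A else if l = j then B else if l = k then G else 0) =
      (if l = i then F i ^ A else 1) * (if l = j then F j ^ B else 1) *
        (if l = k then F k ^ G else 1) := by
    intro l
    by_cases h1 : l = i
    · subst h1
      rw [if_pos rfl, if_pos rfl, if_neg hij, if_neg hik, mul_one, mul_one]
    · rw [if_neg h1, if_neg h1, one_mul]
      by_cases h2 : l = j
      · subst h2
        rw [if_pos rfl, if_pos rfl, if_neg hjk, mul_one]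
      · rw [if_neg h2, if_neg h2, one_mul]
        by_cases h3 : l = k
        · subst h3
          rw [if_pos rfl, if_pos rfl]
        · rw [if_neg h3, if_neg h3, pow_zero]
  rw [Finset.prod_congr rfl fun l _ => h l, Finset.prod_mul_distrib, Finset.prod_mul_distrib,
    Finset.prod_ite_eq', Finset.prod_ite_eq', Finset.prod_ite_eq', if_pos (Finset.mem_univ _),
    if_pos (Finset.mem_univ _), if_pos (Finset.mem_univ _)]

omit [ExpChar S p] in
theorem rt_eq_of_equiv {R R' : Type*} [CommRing R] [CommRing R'] (φ : R ≃+* R') {s e : ℕ}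
    {F G : R} (h : rt p s (φ F) = rt p e (φ G)) : rt p s F = rt p e G := by
  apply le_antisymm
  · have := rt_le_equiv (p := p) φ.symm h.le
    simpa using this
  · have := rt_le_equiv (p := p) φ.symm h.ge
    simpa using this

/-- the multiplicities are powers of `p` -/
theorem orders_of_decomp [hp : Fact p.Prime] [CharP S p] [IsDomain S]
    (hS : FrobProj p S) {r : ℕ} (h : Fin r → S) {M : ℝ} (hM : 1 ≤ M)
    (hno : ¬ NoConvexDecomposition (PhiR p h) M) {π : S} (hπ : Prime π) {i j : Fin r}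
    (hij : i ≠ j) {d : ℕ} (hd : 1 ≤ d) (h1 : π ^ d ∣ h i - h j) (h2 : ¬ π ^ (d + 1) ∣ h i - h j) :
    ∃ t, d = p ^ t := by
  classical
  have hp0 := hp.out.pos
  have hpR : (0 : ℝ) < p := by exact_mod_cast hp0
  unfold NoConvexDecomposition at hno
  push Not at hno
  obtain ⟨N, P, hP, hcv, hcov, hconst⟩ := hno
  by_contra hcon
  push Not at hcon
  have hd2 : 2 ≤ d := by
    have := hcon 0
    rw [pow_zero] at this
    omega
  have hdR : (2 : ℝ) ≤ d := by exact_mod_cast hd2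
  have hjump := jump_of_order hS hπ hd h1 h2
  have hc1 : 1 / (d : ℝ) < 1 := by
    rw [div_lt_one (by linarith)]
    linarith
  have hnp : ∀ n N' : ℕ, 1 / (d : ℝ) * (p : ℝ) ^ n ≠ N' := by
    intro n N' heq
    have h3 : (p : ℝ) ^ n = d * N' := by
      rw [← heq]
      field_simp
    have h4 : p ^ n = d * N' := by exact_mod_cast h3
    have h5 : d ∣ p ^ n := ⟨N', h4⟩
    obtain ⟨t, _, ht⟩ := (Nat.dvd_prime_pow hp.out).1 h5
    exact hcon t ht
  have hm : ¬ p ∣ 1 := fun h => hp.out.one_lt.ne' (Nat.dvd_one.1 h)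
  obtain ⟨n, A, B, hlt, hB, ⟨K, hK⟩, hne⟩ :=
    alternating_points hS hm (h i - h j) N hjump hc1 hnp
  have key := PhiR_alternation hS h hM hP hcv hcov hconst n (2 * N + 1)
    (fun a l => if l = i then A a else if l = j then B a else 0)
    (fun l => if l = i then (K : ℝ) else 0)
    (fun l => if l = i then (-1 : ℝ) else if l = j then 1 else 0) (fun a => (B a : ℝ))
    (fun a ha => by exact_mod_cast hB a ha) ?_ ?_ ?_
  · omega
  · intro a ha l
    beta_reduce
    by_cases hl : l = i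
    · rw [if_pos hl, if_pos hl, if_pos hl]
      have h3 := hK a ha
      rw [one_mul] at h3
      have h4 : (A a : ℝ) + B a = K := by exact_mod_cast h3
      linarith
    · rw [if_neg hl, if_neg hl, if_neg hl]
      by_cases hl2 : l = j
      · rw [if_pos hl2, if_pos hl2]; ring
      · rw [if_neg hl2, if_neg hl2]; simp
  · intro a ha l
    beta_reduce
    have h3 := hlt a ha
    have h4 : 0 < p ^ n := Nat.pow_pos hp0
    split_ifs <;> omega
  · intro a ha
    beta_reduce
    rw [prod_two _ hij, prod_two _ hij]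
    intro heq
    apply hne a ha
    apply rt_eq_of_equiv (trans (h i))
    rw [map_mul, map_mul, map_pow, map_pow, map_pow, map_pow, trans_gg, trans_X]
    exact heq

end curves2

end Pool.Agent.Lib.MP_71915d_ag
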