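import Pool.Agent.Lib.MP_71915d_ag.Curves2

set_option autoImplicit false

namespace Pool.Agent.Lib.MP_71915d_ag

open Polynomial

section digits

variable {p : ℕ} [hp : Fact p.Prime]

theorem dvd_choose_pow (G l : ℕ) : p ∣ G.choose (p ^ l) ↔ (G / p ^ l) % p = 0 := by
  have hp0 := hp.out.pos
  induction l generalizing G with
  | zero => rw [pow_zero, Nat.choose_one_right, Nat.div_one, Nat.dvd_iff_mod_eq_zero]
  | succ l ih =>
    rw [lucas]
    have h2 : p ^ (l + 1) % p = 0 := by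
      rw [pow_succ]; exact Nat.mul_mod_left _ _
    have h4 : p ^ (l + 1) / p = p ^ l := by
      rw [pow_succ, Nat.mul_div_cancel _ hp0]
    have h6 := ih (G / p)
    rw [Nat.div_div_eq_div_mul, ← pow_succ'] at h6
    rw [h2, h4, Nat.choose_zero_right]
    constructor
    · rintro (h5 | h5)
      · exact absurd (Nat.dvd_one.1 h5) hp.out.one_lt.ne'
      · exact h6.1 h5
    · exact fun h5 => Or.inr (h6.2 h5)

/-- numbers with alternating digits `1, 0, 1, 0, …` -/
def Gs (p : ℕ) : ℕ → ℕ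
  | 0 => 1
  | K + 1 => p ^ 2 * Gs p K + 1

theorem Gs_digit (K l : ℕ) (hl : l ≤ 2 * K) : (Gs p K / p ^ l) % p = (l + 1) % 2 := by
  have hp1 := hp.out.one_lt
  have hp0 := hp.out.pos
  induction K generalizing l with
  | zero =>
    have : l = 0 := by omega
    subst this
    simp [Gs, Nat.mod_eq_of_lt hp1]
  | succ K ih =>
    have h1 : Gs p (K + 1) = p ^ 2 * Gs p K + 1 := rfl
    rcases l with _ | _ | l
    · rw [pow_zero, Nat.div_one, h1, pow_two, mul_assoc, Nat.mul_add_mod, Nat.mod_eq_of_lt hp1]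
    · have h2 : (p ^ 2 * Gs p K + 1) / p ^ (0 + 1) = p * Gs p K := by
        rw [zero_add, pow_one, pow_two, mul_assoc, Nat.mul_add_div hp0, Nat.div_eq_of_lt hp1,
          add_zero]
      rw [h1, h2, Nat.mul_mod_right]
    · have h2 : (p ^ 2 * Gs p K + 1) / p ^ (l + 1 + 1) = Gs p K / p ^ l := by
        have h3 : p ^ (l + 1 + 1) = p ^ 2 * p ^ l := by rw [← pow_add]; congr 1; omega
        have h4 : 0 < p ^ 2 := Nat.pow_pos hp0
        have h5 : 1 < p ^ 2 := Nat.one_lt_pow (by norm_num) hp1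
        rw [h3, ← Nat.div_div_eq_div_mul, Nat.mul_add_div h4, Nat.div_eq_of_lt h5, add_zero]
      rw [h1, h2, ih l (by omega)]
      omega

omit hp in
theorem pow_le_Gs (K : ℕ) : p ^ (2 * K) ≤ Gs p K := by
  induction K with
  | zero => simp [Gs]
  | succ K ih =>
    have h1 : Gs p (K + 1) = p ^ 2 * Gs p K + 1 := rfl
    rw [h1]
    calc p ^ (2 * (K + 1)) = p ^ 2 * p ^ (2 * K) := by rw [← pow_add]; congr 1; ring
      _ ≤ p ^ 2 * Gs p K := Nat.mul_le_mul_left _ ih
      _ ≤ _ := Nat.le_succ _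

end digits

section triple

variable {p : ℕ} {S : Type*} [CommRing S] [ExpChar S p]

/-- the Frobenius power of the ideal `(x, π)` -/
noncomputable abbrev JJm (p : ℕ) {S : Type*} [CommRing S] [ExpChar S p] (n : ℕ) (π : S) :
    Ideal S[X] := frobMap p n (Ideal.span {(X : S[X]), C π})

theorem X_pow_mem (n : ℕ) (π : S) {a : ℕ} (ha : p ^ n ≤ a) : (X : S[X]) ^ a ∈ JJm p n π := by
  obtain ⟨b, rfl⟩ := Nat.exists_eq_add_of_le ha
  rw [pow_add]
  exact Ideal.mul_mem_right _ _ (pow_mem_frobMap (Ideal.subset_span (by simp)) n)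

theorem C_pow_mem (n : ℕ) (π : S) : C (π ^ p ^ n) ∈ JJm p n π := by
  rw [C_pow]
  exact pow_mem_frobMap (Ideal.subset_span (by simp)) n

theorem coeff_of_mem [IsDomain S] {n b : ℕ} {π : S} (hπ : π ≠ 0) {w : S[X]} {c : ℕ}
    (hb : b + c = p ^ n) (hc : 1 ≤ c) (hn : 1 ≤ p ^ n)
    (h : C (π ^ b) * X ^ (p ^ n - 1) * w ∈ JJm p n π) : π ∣ w.coeff 0 := by
  unfold JJm frobMap at h
  rw [Ideal.map_span, Set.image_pair, iterateFrobenius_def, iterateFrobenius_def,
    Ideal.mem_span_pair] at h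
  obtain ⟨a, d, hd⟩ := h
  have h1 := congrArg (fun F => coeff F (p ^ n - 1)) hd
  rw [← C_pow] at h1
  have h2 : (a * X ^ p ^ n).coeff (p ^ n - 1) = 0 := by
    rw [coeff_mul_X_pow', if_neg (by omega)]
  have h3 : (C (π ^ b) * X ^ (p ^ n - 1) * w).coeff (p ^ n - 1) = π ^ b * w.coeff 0 := by
    rw [mul_assoc, coeff_C_mul, coeff_X_pow_mul', if_pos le_rfl, Nat.sub_self]
  simp only [coeff_add] at h1
  rw [h2, h3, zero_add, coeff_mul_C, ← hb, pow_add] at h1
  have h4 : π ^ c * d.coeff (b + c - 1) = w.coeff 0 := by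
    apply mul_left_cancel₀ (pow_ne_zero b hπ)
    rw [← h1]
    ring
  rw [← h4]
  exact (dvd_pow_self π (by omega)).mul_right _

/-- the local computation at a triple point -/
theorem inout [hp : Fact p.Prime] [CharP S p] [IsDomain S] [IsPrincipalIdealRing S] {π : S}
    (hπ : Prime π) {s t n : ℕ} (hsn : s ≤ n) {g' e' : S} (hg : ¬ π ∣ g') (he : ¬ π ∣ e')
    (hge : t = 0 → ¬ π ∣ g' - e') {G j : ℕ} (hj : j ≤ G) (hG : p ^ t * G + 1 ≤ p ^ (n - s)) :
    X ^ (p ^ n - 1 - G + j) * (X - C (π ^ p ^ s * g')) ^ (p ^ (n - s) - 1 - p ^ t * j) *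
      (X - C (π ^ (p ^ s * p ^ t) * e')) ^ G ∈ JJm p n π ↔ p ∣ G.choose j := by
  classical
  have hp0 := hp.out.pos
  have hQN : p ^ s * p ^ (n - s) = p ^ n := by rw [← pow_add]; congr 1; omega
  set Q := p ^ s with hQ
  set r := p ^ t with hr
  set N := p ^ (n - s) with hN
  set q := p ^ n with hq
  have hQ0 : 0 < Q := Nat.pow_pos hp0
  have hr0 : 0 < r := Nat.pow_pos hp0
  have hN0 : 0 < N := Nat.pow_pos hp0
  have hq0 : 0 < q := Nat.pow_pos hp0
  have hGr : G ≤ r * G := Nat.le_mul_of_pos_left G hr0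
  have hNq : N ≤ q := by rw [← hQN]; exact Nat.le_mul_of_pos_left N hQ0
  have hrj : r * j ≤ r * G := Nat.mul_le_mul_left _ hj
  set Y : S[X] := X - C (π ^ Q * g') with hY
  set u : S := g' ^ r with hu
  set α : S[X] := C u - C e' * X ^ (r - 1) with hα
  -- the relation
  have hYr : Y ^ r = X ^ r - C ((π ^ Q * g') ^ r) := by
    rw [hY, hr, sub_pow_expChar_pow, C_pow]
  have hid : C u * (X - C (π ^ (Q * r) * e')) = C e' * Y ^ r + α * X := by
    have h1 : (X : S[X]) ^ (r - 1) * X = X ^ r := by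
      rw [← pow_succ]; congr 1; omega
    have h2 : C u * C (π ^ (Q * r) * e') = C e' * C ((π ^ Q * g') ^ r) := by
      rw [← C_mul, ← C_mul, mul_pow, ← pow_mul, hu]
      congr 1
      ring
    rw [hYr, hα, sub_mul, mul_assoc (C e'), h1, mul_sub, mul_sub, h2]
    ring
  have hYN : Y ^ N = X ^ N - C (π ^ q * g' ^ N) := by
    rw [hY, hN, sub_pow_expChar_pow, ← C_pow, mul_pow, ← pow_mul, ← hN, hQN]
  -- the expansion
  set A := q - 1 - G + j with hA
  set B := N - 1 - r * j with hB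
  set F : S[X] := X ^ A * Y ^ B * (X - C (π ^ (Q * r) * e')) ^ G with hF
  have hmemY : ∀ a b : ℕ, N ≤ b → q ≤ N + a → (X : S[X]) ^ a * Y ^ b ∈ JJm p n π := by
    intro a b hb ha
    obtain ⟨b', rfl⟩ := Nat.exists_eq_add_of_le hb
    rw [pow_add, hYN, ← mul_assoc, mul_sub]
    apply Ideal.mul_mem_right
    apply Ideal.sub_mem
    · rw [← pow_add]
      exact X_pow_mem n π (by omega)
    · rw [C_mul]
      exact Ideal.mul_mem_left _ _ (Ideal.mul_mem_right _ _ (C_pow_mem n π))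
  have hexp : C u ^ G * F - X ^ (q - 1) * Y ^ (N - 1) *
      (C e' ^ j * α ^ (G - j) * (G.choose j : S[X])) ∈ JJm p n π := by
    have h1 : C u ^ G * F = ∑ i ∈ Finset.range (G + 1),
        X ^ A * Y ^ B * ((C e' * Y ^ r) ^ i * (α * X) ^ (G - i) * (G.choose i : S[X])) := by
      rw [← Finset.mul_sum, ← add_pow, ← hid, mul_pow, hF]
      ring
    rw [h1, ← Finset.add_sum_erase _ _ (Finset.mem_range.2 (by omega : j < G + 1))]
    have h2 : X ^ A * Y ^ B * ((C e' * Y ^ r) ^ j * (α * X) ^ (G - j) * (G.choose j : S[X])) =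
        X ^ (q - 1) * Y ^ (N - 1) * (C e' ^ j * α ^ (G - j) * (G.choose j : S[X])) := by
      have h3 : (X : S[X]) ^ (q - 1) = X ^ A * X ^ (G - j) := by
        rw [← pow_add]; congr 1; omega
      have h4 : Y ^ (N - 1) = Y ^ B * (Y ^ r) ^ j := by
        rw [← pow_mul, ← pow_add]; congr 1; omega
      rw [h3, h4, mul_pow, mul_pow]
      ring
    rw [h2, add_sub_cancel_left]
    refine Ideal.sum_mem _ fun i hi => ?_
    rw [Finset.mem_erase, Finset.mem_range] at hi
    have h5 : X ^ A * Y ^ B * ((C e' * Y ^ r) ^ i * (α * X) ^ (G - i) * (G.choose i : S[X])) =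
        (X ^ (A + (G - i)) * Y ^ (B + r * i)) *
          (C e' ^ i * α ^ (G - i) * (G.choose i : S[X])) := by
      rw [pow_add, pow_add, mul_pow, mul_pow, ← pow_mul]
      ring
    rw [h5]
    apply Ideal.mul_mem_right
    rcases Nat.lt_or_ge i j with h6 | h6
    · exact Ideal.mul_mem_right _ _ (X_pow_mem n π (by omega))
    · have h7 : j + 1 ≤ i := by omega
      have h8 : r * (j + 1) ≤ r * i := Nat.mul_le_mul_left _ h7
      rw [mul_add, mul_one] at h8
      exact hmemY _ _ (by omega) (by omega)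
  constructor
  · intro hmem
    by_contra hch
    have h1 : X ^ (q - 1) * Y ^ (N - 1) *
        (C e' ^ j * α ^ (G - j) * (G.choose j : S[X])) ∈ JJm p n π := by
      have h2 := Ideal.mul_mem_left _ (C u ^ G) hmem
      have h3 := Ideal.sub_mem _ h2 hexp
      rwa [sub_sub_cancel] at h3
    obtain ⟨z, hz⟩ : (X : S[X]) ∣ Y ^ (N - 1) - (-C (π ^ Q * g')) ^ (N - 1) := by
      have h2 : Y - -C (π ^ Q * g') = X := by rw [hY]; ring
      have h3 := sub_dvd_pow_sub_pow Y (-C (π ^ Q * g')) (N - 1)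
      rwa [h2] at h3
    set w' : S[X] := C e' ^ j * α ^ (G - j) * (G.choose j : S[X]) with hw'
    have h2 : X ^ (q - 1) * (-C (π ^ Q * g')) ^ (N - 1) * w' ∈ JJm p n π := by
      have h3 : (X : S[X]) ^ (q - 1) * (-C (π ^ Q * g')) ^ (N - 1) * w' =
          X ^ (q - 1) * Y ^ (N - 1) * w' - X ^ q * (z * w') := by
        have h4 : (-C (π ^ Q * g')) ^ (N - 1) = Y ^ (N - 1) - X * z := by rw [← hz]; ring
        have h5 : (X : S[X]) ^ q = X ^ (q - 1) * X := by
          rw [← pow_succ]; congr 1; omega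
        rw [h4, h5]
        ring
      rw [h3]
      exact Ideal.sub_mem _ h1 (Ideal.mul_mem_right _ _ (X_pow_mem n π le_rfl))
    have h3 : X ^ (q - 1) * (-C (π ^ Q * g')) ^ (N - 1) * w' =
        C (π ^ (Q * (N - 1))) * X ^ (q - 1) * (C ((-1) ^ (N - 1) * g' ^ (N - 1)) * w') := by
      have h4 : (-C (π ^ Q * g')) ^ (N - 1) =
          C (π ^ (Q * (N - 1))) * C ((-1) ^ (N - 1) * g' ^ (N - 1)) := by
        rw [← C_neg, ← C_pow, ← C_mul]
        congr 1
        rw [neg_pow, mul_pow, ← pow_mul]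
        ring
      rw [h4]
      ring
    rw [h3] at h2
    have h4 : Q * (N - 1) + Q = q := by
      rw [← hQN, Nat.mul_sub, mul_one]
      have : Q * 1 ≤ Q * N := Nat.mul_le_mul_left _ hN0
      omega
    have h5 := coeff_of_mem hπ.ne_zero h4 hQ0 hq0 h2
    rw [coeff_C_mul] at h5
    have h6 : w'.coeff 0 = e' ^ j * (α.coeff 0) ^ (G - j) * (G.choose j : S) := by
      rw [hw', mul_coeff_zero, mul_coeff_zero, coeff_zero_eq_eval_zero, eval_pow, eval_C,
        coeff_zero_eq_eval_zero (α ^ (G - j)), eval_pow, ← coeff_zero_eq_eval_zero]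
      congr 1
      rw [← C_eq_natCast, coeff_C_zero]
    rw [h6] at h5
    have h7 : ¬ π ∣ α.coeff 0 := by
      rw [hα, coeff_sub, coeff_C_zero, coeff_C_mul, coeff_X_pow]
      by_cases ht : t = 0
      · have h8 : r = 1 := by rw [hr, ht, pow_zero]
        rw [hu, h8, Nat.sub_self, if_pos rfl, mul_one, pow_one]
        exact hge ht
      · have h8 : 1 < r := Nat.one_lt_pow ht hp.out.one_lt
        rw [if_neg (by omega), mul_zero, sub_zero, hu]
        exact fun h9 => hg (hπ.dvd_of_dvd_pow h9)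
    rcases hπ.dvd_or_dvd h5 with h8 | h8
    · rcases hπ.dvd_or_dvd h8 with h9 | h9
      · have h10 : π ∣ (-1 : S) := hπ.dvd_of_dvd_pow h9
        exact hπ.not_isUnit (isUnit_of_dvd_unit h10 isUnit_one.neg)
      · exact hg (hπ.dvd_of_dvd_pow h9)
    · rcases hπ.dvd_or_dvd h8 with h9 | h9
      · rcases hπ.dvd_or_dvd h9 with h10 | h10
        · exact he (hπ.dvd_of_dvd_pow h10)
        · exact h7 (hπ.dvd_of_dvd_pow h10)
      · obtain ⟨c, hc⟩ := exists_inv (p := p) (S := S) hch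
        exact hπ.not_isUnit (isUnit_of_dvd_one (h9.trans ⟨c, by rw [mul_comm]; exact hc.symm⟩))
  · intro hch
    have h1 : C u ^ G * F ∈ JJm p n π := by
      have h2 : (G.choose j : S[X]) = 0 := cast_eq_zero_of_dvd hch
      rwa [h2, mul_zero, mul_zero, sub_zero] at hexp
    have hcop : IsCoprime (u ^ G) (π ^ q) := by
      apply IsCoprime.pow
      rw [hu]
      apply IsCoprime.pow_left
      exact ((hπ.irreducible.coprime_iff_not_dvd).2 hg).symm
    obtain ⟨a, b, hab⟩ := hcop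
    have h2 : F = C a * (C u ^ G * F) + C b * (C (π ^ q) * F) := by
      have h3 : C a * C u ^ G + C b * C (π ^ q) = (1 : S[X]) := by
        rw [← C_pow, ← C_mul, ← C_mul, ← C_add, hab, C_1]
      calc F = (C a * C u ^ G + C b * C (π ^ q)) * F := by rw [h3, one_mul]
        _ = _ := by ring
    rw [h2]
    exact Ideal.add_mem _ (Ideal.mul_mem_left _ _ h1)
      (Ideal.mul_mem_left _ _ (Ideal.mul_mem_right _ _ (C_pow_mem n π)))

end triple

end Pool.Agent.Lib.MP_71915d_ag
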