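import Pool.Agent.Lib.MP_71915d_ag.Curves3

set_option autoImplicit false

namespace Pool.Agent.Lib.MP_71915d_ag

open Polynomial

section curves4

variable {p : ℕ} {S : Type*} [CommRing S] [ExpChar S p]

theorem trans_XC (a b : S) : trans a (X - C b) = X - C (a + b) := by
  rw [map_sub, trans_X, trans_C, C_add]
  ring

/-- no decomposition at a triple point -/
theorem triple_no_decomp [hp : Fact p.Prime] [CharP S p] [IsDomain S] [IsPrincipalIdealRing S]
    (hS : FrobProj p S) {r : ℕ} (h : Fin r → S) {M : ℝ} (hM : 1 ≤ M) {i j k : Fin r}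
    (hij : i ≠ j) (hik : i ≠ k) (hjk : j ≠ k) {π : S} (hπ : Prime π) {s t : ℕ} {g' e' : S}
    (hg : ¬ π ∣ g') (he : ¬ π ∣ e') (hge : t = 0 → ¬ π ∣ g' - e')
    (h1 : h j - h i = π ^ p ^ s * g') (h2 : h k - h i = π ^ (p ^ s * p ^ t) * e') :
    NoConvexDecomposition (PhiR p h) M := by
  classical
  have hp0 := hp.out.pos
  have hp1 := hp.out.one_lt
  by_contra hno
  unfold NoConvexDecomposition at hno
  push Not at hno
  obtain ⟨N, P, hP, hcv, hcov, hconst⟩ := hno
  set G := Gs p N with hG
  set n := s + p ^ t * G with hn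
  have hns : n - s = p ^ t * G := by omega
  have hGN : p ^ t * G + 1 ≤ p ^ (n - s) := by
    rw [hns]
    exact Nat.lt_pow_self hp1
  have hpt : 0 < p ^ t := Nat.pow_pos hp0
  have hGle : G ≤ p ^ t * G := Nat.le_mul_of_pos_left G hpt
  have hNq : p ^ (n - s) ≤ p ^ n := Nat.pow_le_pow_right hp0 (Nat.sub_le _ _)
  have hjle : ∀ a, a ≤ 2 * N → p ^ a ≤ G := fun a ha =>
    (Nat.pow_le_pow_right hp0 ha).trans (pow_le_Gs N)
  have hjle2 : ∀ a, a ≤ 2 * N → p ^ t * p ^ a ≤ p ^ t * G := fun a ha =>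
    Nat.mul_le_mul_left _ (hjle a ha)
  -- the elements in coordinates
  have hprod : ∀ a, ∏ l, FFr h l ^ (if l = i then p ^ n - 1 - G + p ^ a else
      if l = j then p ^ (n - s) - 1 - p ^ t * p ^ a else if l = k then G else 0) =
      trans (h i) (X ^ (p ^ n - 1 - G + p ^ a) *
        (X - C (π ^ p ^ s * g')) ^ (p ^ (n - s) - 1 - p ^ t * p ^ a) *
        (X - C (π ^ (p ^ s * p ^ t) * e')) ^ G) := by
    intro a
    rw [prod_three _ hij hik hjk, map_mul, map_mul, map_pow, map_pow, map_pow, trans_XC, trans_XC,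
      trans_X, ← h1, ← h2, add_sub_cancel, add_sub_cancel]
    rfl
  have hkey : ∀ a, a ≤ 2 * N → (rt p n (X ^ (p ^ n - 1 - G + p ^ a) *
        (X - C (π ^ p ^ s * g')) ^ (p ^ (n - s) - 1 - p ^ t * p ^ a) *
        (X - C (π ^ (p ^ s * p ^ t) * e')) ^ G) ≤ Ideal.span {(X : S[X]), C π} ↔ (a + 1) % 2 = 0) := by
    intro a ha
    rw [rt_le_iff (hS.poly hp0)]
    have h3 := inout (p := p) hπ (by omega : s ≤ n) hg he hge (hjle a ha) hGN
    refine h3.trans ?_
    rw [dvd_choose_pow, hG, Gs_digit N a ha]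
  have key := PhiR_alternation hS h hM hP hcv hcov hconst n (2 * N)
    (fun a l => if l = i then p ^ n - 1 - G + p ^ a else
      if l = j then p ^ (n - s) - 1 - p ^ t * p ^ a else if l = k then G else 0)
    (fun l => if l = i then ((p ^ n - 1 - G : ℕ) : ℝ) else
      if l = j then ((p ^ (n - s) - 1 : ℕ) : ℝ) else if l = k then (G : ℝ) else 0)
    (fun l => if l = i then (1 : ℝ) else if l = j then -((p ^ t : ℕ) : ℝ) else 0)
    (fun a => ((p ^ a : ℕ) : ℝ)) ?_ ?_ ?_ ?_
  · omega
  · intro a _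
    have : p ^ a < p ^ (a + 1) := Nat.pow_lt_pow_right hp1 (Nat.lt_succ_self a)
    exact_mod_cast this
  · intro a ha l
    by_cases hl : l = i
    · rw [if_pos hl, if_pos hl, if_pos hl]
      push_cast
      ring
    · rw [if_neg hl, if_neg hl, if_neg hl]
      by_cases hl2 : l = j
      · rw [if_pos hl2, if_pos hl2, if_pos hl2]
        have h3 := hjle2 a ha
        rw [Nat.cast_sub (by omega)]
        push_cast
        ring
      · rw [if_neg hl2, if_neg hl2, if_neg hl2]
        by_cases hl3 : l = k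
        · rw [if_pos hl3, if_pos hl3]; ring
        · rw [if_neg hl3, if_neg hl3]; simp
  · intro a ha l
    have h3 := hjle a ha
    have h4 := hjle2 a ha
    have h5 : 0 < p ^ n := Nat.pow_pos hp0
    have h6 : 0 < p ^ (n - s) := Nat.pow_pos hp0
    beta_reduce
    split_ifs <;> omega
  · intro a ha heq
    rw [hprod, hprod] at heq
    have h3 := rt_eq_of_equiv _ heq
    have h4 := hkey a (by omega)
    have h5 := hkey (a + 1) (by omega)
    rw [h3, h5] at h4
    omega

/-- exact orders -/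
theorem exact_order [hp : Fact p.Prime] [CharP S p] [IsDomain S] [IsPrincipalIdealRing S]
    (hS : FrobProj p S) {r : ℕ} {h : Fin r → S} (hinj : Function.Injective h) {M : ℝ}
    (hM : 1 ≤ M) (hno : ¬ NoConvexDecomposition (PhiR p h) M) {π : S} (hπ : Prime π)
    {i j : Fin r} (hij : i ≠ j) (hd : π ∣ h i - h j) :
    ∃ (t : ℕ) (u : S), h i - h j = π ^ p ^ t * u ∧ ¬ π ∣ u := by
  have hne : h i - h j ≠ 0 := fun h0 => hij (hinj (sub_eq_zero.1 h0))
  obtain ⟨e, z, hz1, hz2⟩ := exists_exact hne hπ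
  have he : 1 ≤ e := by
    rcases Nat.eq_zero_or_pos e with h0 | h0
    · rw [h0, pow_zero, one_mul] at hz1
      exact absurd (hz1 ▸ hd) hz2
    · exact h0
  obtain ⟨t, rfl⟩ := orders_of_decomp hS h hM hno hπ hij he ⟨z, hz1⟩ (by
    rintro ⟨w, hw⟩
    apply hz2
    rw [hz1, pow_succ, mul_assoc] at hw
    exact ⟨w, mul_left_cancel₀ (pow_ne_zero e hπ.ne_zero) hw⟩)
  exact ⟨t, z, hz1, hz2⟩

/-- the converse direction for families of sections -/
theorem noTriple_of_decomp [hp : Fact p.Prime] [CharP S p] [IsDomain S] [IsPrincipalIdealRing S]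
    (hS : FrobProj p S) {r : ℕ} {h : Fin r → S} (hinj : Function.Injective h) {M : ℝ}
    (hM : 1 ≤ M) (hno : ¬ NoConvexDecomposition (PhiR p h) M) : NoTriple h := by
  intro π hπ i j l hij hjl hil hd
  obtain ⟨a, u, hu1, hu2⟩ := exact_order hS hinj hM hno hπ hij hd.1
  obtain ⟨b, w, hw1, hw2⟩ := exact_order hS hinj hM hno hπ hil hd.2
  have hneg : ∀ x : S, ¬ π ∣ x → ¬ π ∣ -x := fun x hx h => hx ((dvd_neg).1 h)
  have hu1' : h j - h i = π ^ p ^ a * -u := by
    have : h j - h i = -(h i - h j) := by ring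
    rw [this, hu1]; ring
  have hw1' : h l - h i = π ^ p ^ b * -w := by
    have : h l - h i = -(h i - h l) := by ring
    rw [this, hw1]; ring
  rcases Nat.lt_trichotomy a b with hab | hab | hab
  · obtain ⟨t, ht⟩ := Nat.exists_eq_add_of_lt hab
    refine hno (triple_no_decomp hS h hM hij hil hjl hπ (s := a) (t := t + 1) (hneg u hu2)
      (hneg w hw2) (fun h0 => absurd h0 (by omega)) hu1' ?_)
    rw [hw1', ← pow_add]
    congr 3
  · subst hab
    by_cases hdiff : π ∣ u - w
    · -- `j` and `l` are closer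
      have hjl1 : h j - h l = π ^ p ^ a * (w - u) := by
        have : h j - h l = (h i - h l) - (h i - h j) := by ring
        rw [this, hu1, hw1]; ring
      have hd2 : π ∣ h j - h l := by
        rw [hjl1]
        exact (dvd_pow_self π (Nat.pow_pos hp.out.pos).ne').mul_right _
      obtain ⟨c, v, hv1, hv2⟩ := exact_order hS hinj hM hno hπ hjl hd2
      have hac : a < c := by
        have h3 : π ^ (p ^ a + 1) ∣ π ^ p ^ c * v := by
          rw [← hv1, hjl1, pow_succ]
          refine mul_dvd_mul_left _ ?_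
          have : w - u = -(u - w) := by ring
          rw [this]
          exact (dvd_neg).2 hdiff
        have h4 := le_of_pow_dvd hπ hv2 h3
        exact (Nat.pow_lt_pow_iff_right hp.out.one_lt).1 (by omega)
      obtain ⟨t, ht⟩ := Nat.exists_eq_add_of_lt hac
      have hv1' : h l - h j = π ^ p ^ c * -v := by
        have : h l - h j = -(h j - h l) := by ring
        rw [this, hv1]; ring
      refine hno (triple_no_decomp hS h hM hij.symm hjl hil hπ (s := a) (t := t + 1)
        hu2 (hneg v hv2) (fun h0 => absurd h0 (by omega)) hu1 ?_)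
      rw [hv1', ← pow_add]
      congr 3
    · refine hno (triple_no_decomp hS h hM hij hil hjl hπ (s := a) (t := 0) (hneg u hu2)
        (hneg w hw2) (fun _ hd3 => ?_) hu1' ?_)
      · apply hdiff
        have : u - w = -(-u - -w) := by ring
        rw [this]
        exact (dvd_neg).2 hd3
      · rw [hw1', pow_zero, mul_one]
  · obtain ⟨t, ht⟩ := Nat.exists_eq_add_of_lt hab
    refine hno (triple_no_decomp hS h hM hil hij hjl.symm hπ (s := b) (t := t + 1) (hneg w hw2)
      (hneg u hu2) (fun h0 => absurd h0 (by omega)) hw1' ?_)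
    rw [hu1', ← pow_add]
    congr 3

end curves4

end Pool.Agent.Lib.MP_71915d_ag
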