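import Pool.Agent.Lib.MP_71915d_ag.Jump2

set_option autoImplicit false

namespace Pool.Agent.Lib.MP_71915d_ag

open MvPolynomial

/-- There is a decomposition of `[0,M]^r` into finitely many rational polyhedra in the nonnegative
orthant, with `Φ` constant on the interior of each of them. -/
def HasRationalDecomposition {r : ℕ} {V : Type*} (Φ : (Fin r → ℝ) → V) (M : ℝ) : Prop :=
  ∃ (N : ℕ) (P : Fin N → Set (Fin r → ℝ)),
    (∀ j, ∃ (m : ℕ) (A : Fin m → Fin r → ℚ) (b : Fin m → ℚ),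
      P j = {x : Fin r → ℝ | ∀ l, ∑ i, (A l i : ℝ) * x i ≤ (b l : ℝ)}) ∧
    (∀ j, P j ⊆ {x : Fin r → ℝ | ∀ i, 0 ≤ x i}) ∧
    box r M ⊆ ⋃ j, P j ∧
    ∀ j, ∀ x ∈ interior (P j), ∀ y ∈ interior (P j), Φ x = Φ y

section general

variable {r : ℕ} {V : Type*}

/-- rational polyhedra with inequalities indexed by a finite type -/
def IsRatPoly (P : Set (Fin r → ℝ)) : Prop :=
  ∃ (m : ℕ) (A : Fin m → Fin r → ℚ) (b : Fin m → ℚ),
      P = {x : Fin r → ℝ | ∀ l, ∑ i, (A l i : ℝ) * x i ≤ (b l : ℝ)}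

theorem IsRatPoly.of_fintype {ι : Type} [Fintype ι] (A : ι → Fin r → ℚ) (b : ι → ℚ) :
    IsRatPoly {x : Fin r → ℝ | ∀ l, ∑ i, (A l i : ℝ) * x i ≤ (b l : ℝ)} := by
  refine ⟨Fintype.card ι, fun l => A ((Fintype.equivFin ι).symm l),
    fun l => b ((Fintype.equivFin ι).symm l), ?_⟩
  ext x
  simp only [Set.mem_ofPred_eq]
  constructor
  · intro h l
    exact h _
  · intro h l
    have := h (Fintype.equivFin ι l)
    simpa using this

theorem IsRatPoly.halfspace (A : Fin r → ℚ) (b : ℚ) :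
    IsRatPoly {x : Fin r → ℝ | ∑ i, (A i : ℝ) * x i ≤ (b : ℝ)} := by
  have := IsRatPoly.of_fintype (ι := Unit) (fun _ => A) (fun _ => b)
  simpa using this

theorem IsRatPoly.inter {P Q : Set (Fin r → ℝ)} (hP : IsRatPoly P) (hQ : IsRatPoly Q) :
    IsRatPoly (P ∩ Q) := by
  obtain ⟨m, A, b, rfl⟩ := hP
  obtain ⟨m', A', b', rfl⟩ := hQ
  have := IsRatPoly.of_fintype (ι := Fin m ⊕ Fin m') (Sum.elim A A') (Sum.elim b b')
  convert this using 1
  ext x
  simp

/-- index by an arbitrary finite type -/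
theorem HasRationalDecomposition.of_fintype {ι : Type} [Fintype ι] {Φ : (Fin r → ℝ) → V} {M : ℝ}
    (P : ι → Set (Fin r → ℝ)) (h1 : ∀ j, IsRatPoly (P j))
    (h2 : ∀ j, P j ⊆ {x : Fin r → ℝ | ∀ i, 0 ≤ x i}) (h3 : box r M ⊆ ⋃ j, P j)
    (h4 : ∀ j, ∀ x ∈ interior (P j), ∀ y ∈ interior (P j), Φ x = Φ y) :
    HasRationalDecomposition Φ M := by
  refine ⟨Fintype.card ι, fun j => P ((Fintype.equivFin ι).symm j), fun j => h1 _, fun j => h2 _,
    ?_, fun j => h4 _⟩
  intro x hx
  obtain ⟨j, hj⟩ := Set.mem_iUnion.1 (h3 hx)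
  refine Set.mem_iUnion.2 ⟨Fintype.equivFin ι j, ?_⟩
  simpa using hj

/-- points of the interior can be moved a little in the direction of a coordinate -/
theorem exists_move {P : Set (Fin r → ℝ)} {x : Fin r → ℝ} (hx : x ∈ interior P) (i : Fin r) :
    ∃ ε > 0, Function.update x i (x i + ε) ∈ P ∧ Function.update x i (x i - ε) ∈ P := by
  obtain ⟨ε, hε, hball⟩ := Metric.isOpen_iff.1 isOpen_interior x hx
  have key : ∀ t : ℝ, |t| < ε → Function.update x i (x i + t) ∈ P := by
    intro t ht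
    apply interior_subset
    apply hball
    rw [Metric.mem_ball, dist_pi_lt_iff hε]
    intro j
    by_cases hj : j = i
    · subst hj
      rw [Function.update_self, Real.dist_eq]
      simpa using ht
    · rw [Function.update_of_ne hj, dist_self]
      exact hε
  refine ⟨ε / 2, by positivity, key (ε / 2) ?_, ?_⟩
  · rw [abs_of_pos (by positivity)]; linarith
  · have := key (-(ε / 2)) (by rw [abs_neg, abs_of_pos (by positivity)]; linarith)
    rwa [← sub_eq_add_neg] at this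

/-- adding one variable: if `Φ' (x, y)` depends only on `Φ x` and on the integral part of
`∑ d_i x_i + y`, a decomposition for `Φ` gives one for `Φ'` -/
theorem HasRationalDecomposition.snoc {V' : Type*} {Φ : (Fin r → ℝ) → V}
    {Φ' : (Fin (r + 1) → ℝ) → V'} (d : Fin r → ℕ)
    (hΦ : ∀ x y : Fin (r + 1) → ℝ, (∀ i, 0 ≤ x i) → (∀ i, 0 ≤ y i) →
      Φ (Fin.init x) = Φ (Fin.init y) →
      ⌊(∑ i, (d i : ℝ) * x (Fin.castSucc i)) + x (Fin.last r)⌋₊ =
        ⌊(∑ i, (d i : ℝ) * y (Fin.castSucc i)) + y (Fin.last r)⌋₊ → Φ' x = Φ' y)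
    (h : ∀ M, HasRationalDecomposition Φ M) (M : ℝ) : HasRationalDecomposition Φ' M := by
  classical
  obtain ⟨N, P, h1, h2, h3, h4⟩ := h M
  let s : (Fin (r + 1) → ℝ) → ℝ := fun x => (∑ i, (d i : ℝ) * x (Fin.castSucc i)) + x (Fin.last r)
  let L : ℕ := ⌊((∑ i, (d i : ℝ)) + 1) * M⌋₊ + 1
  let A : Fin (r + 1) → ℚ := Fin.snoc (fun i => (d i : ℚ)) 1
  have hA : ∀ x : Fin (r + 1) → ℝ, ∑ i, (A i : ℝ) * x i = s x := by
    intro x
    rw [Fin.sum_univ_castSucc]
    simp [A, s]
  let Q : Fin N × Fin L → Set (Fin (r + 1) → ℝ) := fun jl =>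
    {x | Fin.init x ∈ P jl.1} ∩ ({x | (jl.2 : ℝ) ≤ s x} ∩ ({x | s x ≤ (jl.2 : ℝ) + 1} ∩
      {x | 0 ≤ x (Fin.last r)}))
  refine HasRationalDecomposition.of_fintype Q ?_ ?_ ?_ ?_
  · rintro ⟨j, l⟩
    refine IsRatPoly.inter ?_ (IsRatPoly.inter ?_ (IsRatPoly.inter ?_ ?_))
    · obtain ⟨m, B, b, hP⟩ := h1 j
      refine ⟨m, fun l => Fin.snoc (B l) 0, b, ?_⟩
      ext x
      rw [Set.mem_ofPred_eq, Set.mem_ofPred_eq]
      change Fin.init x ∈ P j ↔ _
      rw [hP, Set.mem_ofPred_eq]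
      refine forall_congr' fun l => ?_
      rw [Fin.sum_univ_castSucc]
      simp [Fin.init]
    · have := IsRatPoly.halfspace (fun i => -A i) (-(l : ℚ))
      convert this using 1
      ext x
      rw [Set.mem_ofPred_eq, Set.mem_ofPred_eq]
      push_cast
      have h5 : ∑ i, -(A i : ℝ) * x i = -s x := by
        rw [← hA, ← Finset.sum_neg_distrib]
        refine Finset.sum_congr rfl fun i _ => by ring
      rw [h5]
      constructor <;> intro h <;> linarith
    · have := IsRatPoly.halfspace A ((l : ℚ) + 1)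
      convert this using 1
      ext x
      rw [Set.mem_ofPred_eq, Set.mem_ofPred_eq]
      push_cast
      rw [hA]
    · have := IsRatPoly.halfspace (Fin.snoc (fun _ : Fin r => (0 : ℚ)) (-1)) 0
      convert this using 1
      ext x
      rw [Set.mem_ofPred_eq, Set.mem_ofPred_eq, Fin.sum_univ_castSucc]
      simp
  · rintro ⟨j, l⟩ x hx i
    obtain ⟨hx1, _, _, hx4⟩ := hx
    refine Fin.lastCases ?_ (fun i => ?_) i
    · exact hx4
    · exact h2 j hx1 i
  · intro x hx
    have hinit : Fin.init x ∈ box r M := fun i => hx (Fin.castSucc i)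
    obtain ⟨j, hj⟩ := Set.mem_iUnion.1 (h3 hinit)
    have hM : 0 ≤ M := (hx (Fin.last r)).1.trans (hx (Fin.last r)).2
    have hs0 : 0 ≤ s x := by
      simp only [s]
      have : 0 ≤ ∑ i, (d i : ℝ) * x (Fin.castSucc i) :=
        Finset.sum_nonneg fun i _ => mul_nonneg (by positivity) (hx _).1
      have := (hx (Fin.last r)).1
      linarith
    have hs1 : s x ≤ ((∑ i, (d i : ℝ)) + 1) * M := by
      simp only [s]
      rw [add_mul, Finset.sum_mul, one_mul]
      refine add_le_add (Finset.sum_le_sum fun i _ => ?_) (hx _).2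
      exact mul_le_mul_of_nonneg_left (hx _).2 (by positivity)
    have hl : ⌊s x⌋₊ < L := Nat.lt_succ_of_le (Nat.floor_le_floor hs1)
    refine Set.mem_iUnion.2 ⟨(j, ⟨⌊s x⌋₊, hl⟩), hj, ?_, ?_, ?_⟩
    · exact Nat.floor_le hs0
    · exact (Nat.lt_floor_add_one (s x)).le
    · exact (hx (Fin.last r)).1
  · rintro ⟨j, l⟩ x hx y hy
    have hsub : ∀ z ∈ interior (Q (j, l)), Fin.init z ∈ interior (P j) ∧ (∀ i, 0 ≤ z i) ∧
        ⌊s z⌋₊ = l := by
      intro z hz
      refine ⟨?_, ?_, ?_⟩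
      · rw [mem_interior]
        refine ⟨{u | (Fin.snoc u (z (Fin.last r)) : Fin (r + 1) → ℝ) ∈ interior (Q (j, l))},
          ?_, ?_, ?_⟩
        · intro u hu
          have := (interior_subset hu).1
          rw [Set.mem_ofPred_eq, Fin.init_snoc] at this
          exact this
        · refine isOpen_interior.preimage ?_
          refine continuous_pi fun i => ?_
          refine Fin.lastCases ?_ (fun i => ?_) i
          · simp only [Fin.snoc_last]; exact continuous_const
          · simp only [Fin.snoc_castSucc]; exact continuous_apply i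
        · rw [Set.mem_ofPred_eq, Fin.snoc_init_self]
          exact hz
      · obtain ⟨hx1, _, _, hx4⟩ := interior_subset hz
        intro i
        refine Fin.lastCases ?_ (fun i => ?_) i
        · exact hx4
        · exact h2 j hx1 i
      · obtain ⟨ε, hε, hp, hm⟩ := exists_move hz (Fin.last r)
        have hs : ∀ t, s (Function.update z (Fin.last r) t) = s z - z (Fin.last r) + t := by
          intro t
          simp only [s, Function.update_self]
          have : ∀ i : Fin r, Function.update z (Fin.last r) t (Fin.castSucc i) =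
              z (Fin.castSucc i) := fun i => Function.update_of_ne (Fin.castSucc_lt_last i).ne _ _
          simp only [this]
          ring
        have h5 : s z - z (Fin.last r) + (z (Fin.last r) + ε) ≤ (l : ℝ) + 1 := by
          rw [← hs]; exact hp.2.2.1
        have h6 : (l : ℝ) ≤ s z - z (Fin.last r) + (z (Fin.last r) - ε) := by
          rw [← hs]; exact hm.2.1
        rw [Nat.floor_eq_iff (by
          have : (0 : ℝ) ≤ (l : ℝ) := by positivity
          linarith)]
        constructor <;> linarith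
    obtain ⟨hx1, hx2, hx3⟩ := hsub x hx
    obtain ⟨hy1, hy2, hy3⟩ := hsub y hy
    refine hΦ x y hx2 hy2 (h4 j _ hx1 _ hy1) ?_
    change ⌊s x⌋₊ = ⌊s y⌋₊
    rw [hx3, hy3]

end general

section test

variable {p : ℕ} {k : Type*} [Field k] [ExpChar k p] [PerfectRing k p] {n : ℕ}

theorem tau_bot (hp : 0 < p) {a : ℝ} (ha : 0 < a) :
    tau p (⊥ : Ideal (MvPolynomial (Fin n) k)) a = ⊥ := by
  rw [eq_bot_iff, tau_le_iff hp]
  intro e
  have hpR : (0 : ℝ) < p := by exact_mod_cast hp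
  have h1 : ⌈a * (p : ℝ) ^ e⌉₊ ≠ 0 := by
    rw [← Nat.pos_iff_ne_zero, Nat.ceil_pos]
    positivity
  rw [Ideal.bot_pow h1]
  exact bot_le

/-- the case of one ideal -/
theorem decomposition_one (hp : 2 ≤ p) (I : Ideal (MvPolynomial (Fin n) k)) (M : ℝ) :
    HasRationalDecomposition (mixedTestIdeal p (fun _ : Fin 1 => I)) M := by
  classical
  have hp0 : 0 < p := by omega
  set R : ℕ := ⌈M⌉₊ + 1 with hR
  have hMR : M ≤ R := by
    rw [hR]; push_cast
    linarith [Nat.le_ceil M]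
  have hfin := finite_jumps (p := p) hp0 I (R : ℝ)
  obtain ⟨Δ, hΔ, hΔ2⟩ : ∃ Δ : ℕ, 0 < Δ ∧ ∀ c, c ≤ (R : ℝ) → Jump p I c → ∃ z : ℤ, c * Δ = z := by
    have hrat : ∀ c : ℝ, ∃ q : ℚ, Jump p I c → (q : ℝ) = c := by
      intro c
      by_cases hc : Jump p I c
      · obtain ⟨q, hq⟩ := hc.rational hp
        exact ⟨q, fun _ => hq⟩
      · exact ⟨0, fun h => absurd h hc⟩
    choose q hq using hrat
    refine ⟨∏ c ∈ hfin.toFinset, (q c).den, Finset.prod_pos fun c _ => (q c).den_pos, ?_⟩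
    intro c hc1 hc2
    have hmem : c ∈ hfin.toFinset := by
      rw [Set.Finite.mem_toFinset]
      exact ⟨hc1, hc2⟩
    obtain ⟨t, ht⟩ := Finset.dvd_prod_of_mem (fun c => (q c).den) hmem
    refine ⟨(q c).num * t, ?_⟩
    rw [ht]
    have h1 : c * ((q c).den : ℝ) = (q c).num := by
      have h2 := Rat.mul_den_eq_num (q c)
      have h3 : ((q c : ℚ) : ℝ) * ((q c).den : ℝ) = ((q c).num : ℝ) := by exact_mod_cast h2
      rwa [hq c hc2] at h3
    push_cast
    rw [← mul_assoc, h1]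
  have hΔR : (0 : ℝ) < Δ := by exact_mod_cast hΔ
  -- constancy
  have hconst : ∀ j : ℕ, (j : ℝ) + 1 ≤ R * Δ → ∀ a b : ℝ, (j : ℝ) < a * Δ → a * Δ < j + 1 →
      (j : ℝ) < b * Δ → b * Δ < j + 1 → tau p I a = tau p I b := by
    intro j hj
    by_cases hI : I = ⊥
    · intro a b ha1 _ hb1 _
      have hj0 : (0 : ℝ) ≤ j := by positivity
      rw [hI, tau_bot hp0 (pos_of_mul_pos_left (lt_of_le_of_lt hj0 ha1) hΔR.le),
        tau_bot hp0 (pos_of_mul_pos_left (lt_of_le_of_lt hj0 hb1) hΔR.le)]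
    · have key : ∀ a : ℝ, (j : ℝ) < a * Δ → a * Δ < j + 1 → tau p I a = tau p I (j / Δ) := by
        intro a ha1 ha2
        refine tau_const hp hI (by positivity) ?_ ?_
        · rw [div_le_iff₀ hΔR]; exact ha1.le
        · intro c hc1 hc2 hc3
          have h1 : c * Δ ≤ a * Δ := mul_le_mul_of_nonneg_right hc2 hΔR.le
          have h2 : c ≤ (R : ℝ) := by
            have : c * Δ ≤ R * Δ := by linarith
            exact le_of_mul_le_mul_right this hΔR
          obtain ⟨z, hz⟩ := hΔ2 c h2 hc3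
          rw [div_lt_iff₀ hΔR, hz] at hc1
          rw [hz] at h1
          have h3 : (j : ℤ) < z := by exact_mod_cast hc1
          have h4 : (z : ℝ) < j + 1 := by linarith
          have h5 : z < (j : ℤ) + 1 := by exact_mod_cast h4
          omega
      intro a b ha1 ha2 hb1 hb2
      rw [key a ha1 ha2, key b hb1 hb2]
  have hmix : ∀ x : Fin 1 → ℝ, mixedTestIdeal p (fun _ : Fin 1 => I) x = tau p I (x 0) := by
    intro x
    unfold tau
    congr 1
    funext i
    rw [Subsingleton.elim i 0]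
  let Q : Fin (R * Δ) → Set (Fin 1 → ℝ) := fun j =>
    {x | (j : ℝ) ≤ x 0 * Δ} ∩ {x | x 0 * Δ ≤ (j : ℝ) + 1}
  refine HasRationalDecomposition.of_fintype Q ?_ ?_ ?_ ?_
  · intro j
    refine IsRatPoly.inter ?_ ?_
    · have := IsRatPoly.halfspace (r := 1) (fun _ => -(Δ : ℚ)) (-(j : ℚ))
      convert this using 1
      ext x
      rw [Set.mem_ofPred_eq, Set.mem_ofPred_eq]
      push_cast
      rw [Fin.sum_univ_one]
      constructor <;> intro h <;> linarith
    · have := IsRatPoly.halfspace (r := 1) (fun _ => (Δ : ℚ)) ((j : ℚ) + 1)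
      convert this using 1
      ext x
      rw [Set.mem_ofPred_eq, Set.mem_ofPred_eq]
      push_cast
      rw [Fin.sum_univ_one]
      constructor <;> intro h <;> linarith
  · rintro j x ⟨hx1, _⟩ i
    rw [Subsingleton.elim i 0]
    have hj0 : (0 : ℝ) ≤ (j : ℕ) := by positivity
    have hx1' : ((j : ℕ) : ℝ) ≤ x 0 * Δ := hx1
    exact nonneg_of_mul_nonneg_left (hj0.trans hx1') hΔR
  · intro x hx
    have hx0 := hx 0
    have h0 : 0 ≤ x 0 * Δ := mul_nonneg hx0.1 hΔR.le
    have hxR : x 0 * Δ ≤ R * Δ :=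
      mul_le_mul_of_nonneg_right (hx0.2.trans hMR) hΔR.le
    have hpos : 0 < R * Δ := Nat.mul_pos (Nat.succ_pos _) hΔ
    · by_cases hlt : ⌊x 0 * Δ⌋₊ < R * Δ
      · refine Set.mem_iUnion.2 ⟨⟨⌊x 0 * Δ⌋₊, hlt⟩, ?_, ?_⟩
        · exact Nat.floor_le h0
        · exact (Nat.lt_floor_add_one (x 0 * (Δ : ℝ))).le
      · push Not at hlt
        have h1 : ((R * Δ : ℕ) : ℝ) ≤ x 0 * Δ := by
          have := Nat.floor_le h0
          have h2 : ((R * Δ : ℕ) : ℝ) ≤ (⌊x 0 * Δ⌋₊ : ℝ) := by exact_mod_cast hlt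
          linarith
        refine Set.mem_iUnion.2 ⟨⟨R * Δ - 1, by omega⟩, ?_, ?_⟩
        · change ((R * Δ - 1 : ℕ) : ℝ) ≤ x 0 * Δ
          refine le_trans ?_ h1
          exact_mod_cast Nat.sub_le _ _
        · change x 0 * Δ ≤ ((R * Δ - 1 : ℕ) : ℝ) + 1
          have : ((R * Δ - 1 : ℕ) : ℝ) + 1 = R * Δ := by
            rw [Nat.cast_sub hpos]; push_cast; ring
          rw [this]
          exact hxR
  · intro j x hx y hy
    have hstrict : ∀ z ∈ interior (Q j), ((j : ℕ) : ℝ) < z 0 * Δ ∧ z 0 * Δ < (j : ℕ) + 1 := by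
      intro z hz
      obtain ⟨ε, hε, hp, hm⟩ := exists_move hz 0
      have h1 : (z 0 + ε) * Δ ≤ (j : ℕ) + 1 := by
        have := hp.2
        rw [Set.mem_ofPred_eq, Function.update_self] at this
        exact this
      have h2 : ((j : ℕ) : ℝ) ≤ (z 0 - ε) * Δ := by
        have := hm.1
        rw [Set.mem_ofPred_eq, Function.update_self] at this
        exact this
      have h3 : 0 < ε * Δ := mul_pos hε hΔR
      constructor <;> nlinarith
    rw [hmix, hmix]
    have hj : ((j : ℕ) : ℝ) + 1 ≤ R * Δ := by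
      have := j.2
      exact_mod_cast this
    exact hconst j hj _ _ (hstrict x hx).1 (hstrict x hx).2 (hstrict y hy).1 (hstrict y hy).2

/-- Pairs and more: adding the homogeneous maximal ideal. -/
theorem decomposition_snoc (hp : 2 ≤ p) (hn : 0 < n) {r : ℕ}
    (I : Fin r → Ideal (MvPolynomial (Fin n) k)) (d : Fin r → ℕ) (hI : ∀ i, HGen (d i) (I i))
    (h : ∀ M, HasRationalDecomposition (mixedTestIdeal p I) M) (M : ℝ) :
    HasRationalDecomposition (mixedTestIdeal p
      (Fin.snoc I (idealOfVars (Fin n) k) : Fin (r + 1) → Ideal (MvPolynomial (Fin n) k))) M := by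
  refine HasRationalDecomposition.snoc d ?_ h M
  intro x y hx hy hxy hfl
  have hx' : x = (Fin.snoc (Fin.init x) (x (Fin.last r)) : Fin (r + 1) → ℝ) :=
    (Fin.snoc_init_self x).symm
  have hy' : y = (Fin.snoc (Fin.init y) (y (Fin.last r)) : Fin (r + 1) → ℝ) :=
    (Fin.snoc_init_self y).symm
  rw [hx', hy', formula hp hn I d hI (Fin.init x) (fun i => hx _) (x (Fin.last r)) (hx _),
    formula hp hn I d hI (Fin.init y) (fun i => hy _) (y (Fin.last r)) (hy _), hxy]
  have h1 : ⌊(∑ i, (d i : ℝ) * Fin.init x i) + x (Fin.last r)⌋₊ =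
      ⌊(∑ i, (d i : ℝ) * Fin.init y i) + y (Fin.last r)⌋₊ := hfl
  rw [h1]

end test

end Pool.Agent.Lib.MP_71915d_ag
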