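import Mathlib

set_option autoImplicit false

namespace Pool.Agent.Lib.MP_71915d_ag

open Set

/-- The mixed test ideal `τ(I_1^{x_1} ⋯ I_r^{x_r})`: the supremum over `e` of the smallest ideals `K`
with `I_1^{⌈x_1 p^e⌉} ⋯ I_r^{⌈x_r p^e⌉} ⊆ K^{[p^e]}`.  (This is the formula of the problem; in a
regular F-finite ring the sequence is increasing and eventually constant.) -/
noncomputable def mixedTestIdeal (p : ℕ) {R : Type*} [CommRing R] [ExpChar R p] {r : ℕ}
    (I : Fin r → Ideal R) (x : Fin r → ℝ) : Ideal R :=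
  ⨆ e : ℕ, sInf {K : Ideal R |
    (∏ i, I i ^ ⌈x i * (p : ℝ) ^ e⌉₊) ≤ Ideal.map (iterateFrobenius R p e) K}

/-- The box `[0,M]^r`. -/
def box (r : ℕ) (M : ℝ) : Set (Fin r → ℝ) := {x | ∀ i, 0 ≤ x i ∧ x i ≤ M}

/-- There is no finite decomposition of the box `[0,M]^r` into closed sets (of any shape) such that
the map `Φ` is constant on the interior of each of them. -/
def NoClosedDecomposition {r : ℕ} {V : Type*} (Φ : (Fin r → ℝ) → V) (M : ℝ) : Prop :=
  ∀ (N : ℕ) (P : Fin N → Set (Fin r → ℝ)), (∀ j, IsClosed (P j)) → box r M ⊆ ⋃ j, P j →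
    ∃ j, ∃ x ∈ interior (P j), ∃ y ∈ interior (P j), Φ x ≠ Φ y

section topology

variable {r : ℕ} {V : Type*} {Φ : (Fin r → ℝ) → V} {M : ℝ}

/-- A nonempty open set covered by finitely many closed sets meets the interior of one of them. -/
theorem exists_interior {X : Type*} [TopologicalSpace X] {N : ℕ} {P : Fin N → Set X}
    (hP : ∀ j, IsClosed (P j)) {U : Set X} (hU : IsOpen U) (hne : U.Nonempty)
    (hc : U ⊆ ⋃ j, P j) : ∃ j, (U ∩ interior (P j)).Nonempty := by
  by_contra hcon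
  push Not at hcon
  have key : ∀ s : Finset (Fin N), (U ∩ ⋂ j ∈ s, (P j)ᶜ).Nonempty := by
    intro s
    induction s using Finset.induction_on with
    | empty => simpa using hne
    | insert a s ha ih =>
      have hopen : IsOpen (U ∩ ⋂ j ∈ s, (P j)ᶜ) :=
        hU.inter (isOpen_biInter_finset fun j _ => (hP j).isOpen_compl)
      by_contra hno
      rw [Set.not_nonempty_iff_eq_empty] at hno
      have hsub : (U ∩ ⋂ j ∈ s, (P j)ᶜ) ⊆ P a := by
        intro z hz
        by_contra hza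
        have : z ∈ (U ∩ ⋂ j ∈ insert a s, (P j)ᶜ) := by
          refine ⟨hz.1, ?_⟩
          simp only [Finset.mem_insert, Set.mem_iInter, Set.mem_compl_iff]
          rintro j (rfl | hj)
          · exact hza
          · have := hz.2
            simp only [Set.mem_iInter, Set.mem_compl_iff] at this
            exact this j hj
        rw [hno] at this
        exact this
      have hint : (U ∩ ⋂ j ∈ s, (P j)ᶜ) ⊆ interior (P a) := interior_maximal hsub hopen
      obtain ⟨z, hz⟩ := ih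
      have := hcon a
      have hz' : z ∈ U ∩ interior (P a) := ⟨hz.1, hint hz⟩
      rw [this] at hz'
      exact hz'
  obtain ⟨z, hzU, hz⟩ := key Finset.univ
  obtain ⟨j, hj⟩ := Set.mem_iUnion.1 (hc hzU)
  simp only [Finset.mem_univ, Set.iInter_true, Set.mem_iInter, Set.mem_compl_iff] at hz
  exact hz j hj

theorem noClosedDecomposition_of {U : ℕ → Set (Fin r → ℝ)} (hU : ∀ n, IsOpen (U n))
    (hne : ∀ n, (U n).Nonempty) (hbox : ∀ n, U n ⊆ box r M)
    (hΦ : ∀ n m, n ≠ m → ∀ x ∈ U n, ∀ y ∈ U m, Φ x ≠ Φ y) : NoClosedDecomposition Φ M := by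
  intro N P hP hcov
  have h1 : ∀ n, ∃ j, (U n ∩ interior (P j)).Nonempty := fun n =>
    exists_interior hP (hU n) (hne n) ((hbox n).trans hcov)
  choose j hj using h1
  obtain ⟨n, m, hnm, hjj⟩ := Finite.exists_ne_map_eq_of_infinite j
  obtain ⟨x, hxU, hx⟩ := hj n
  obtain ⟨y, hyU, hy⟩ := hj m
  refine ⟨j n, x, hx, y, ?_, hΦ n m hnm x hxU y hyU⟩
  rw [hjj]; exact hy

theorem infinite_of {U : ℕ → Set (Fin r → ℝ)}
    (hne : ∀ n, (U n).Nonempty) (hbox : ∀ n, U n ⊆ box r M)
    (hΦ : ∀ n m, n ≠ m → ∀ x ∈ U n, ∀ y ∈ U m, Φ x ≠ Φ y) : (Φ '' box r M).Infinite := by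
  choose x hx using hne
  refine Set.infinite_of_injective_forall_mem (f := fun n => Φ (x n)) ?_ ?_
  · intro n m h
    by_contra hnm
    exact hΦ n m hnm _ (hx n) _ (hx m) h
  · intro n
    exact ⟨x n, hbox n (hx n), rfl⟩

end topology

end Pool.Agent.Lib.MP_71915d_ag
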