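import Pool.Agent.Lib.MP_71915d_ag.Core

set_option autoImplicit false

namespace Pool.Agent.Lib.MP_71915d_ag

section fp

variable {p : ℕ}

/-- Dual bases for the iterates of Frobenius. -/
def FrobProj (p : ℕ) (S : Type*) [CommRing S] : Prop :=
  ∀ e : ℕ, ∃ (N : ℕ) (s : Fin N → S) (D : Fin N → S →+ S), (∀ i, IsCart p e (D i)) ∧
    ∀ x, x = ∑ i, (D i x) ^ p ^ e * s i

theorem isCart_mul {S : Type*} [CommRing S] {e : ℕ} {D : S →+ S}
    (hD : IsCart p e D) (c : S) : IsCart p e (D.comp (AddMonoidHom.mulLeft c)) := by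
  intro r s
  simp only [AddMonoidHom.comp_apply, AddMonoidHom.coe_mulLeft]
  rw [mul_left_comm, hD]

theorem isCart_mulLeft {S : Type*} [CommRing S] {e : ℕ} {D : S →+ S}
    (hD : IsCart p e D) (c : S) : IsCart p e ((AddMonoidHom.mulLeft c).comp D) := by
  intro r s
  simp only [AddMonoidHom.comp_apply, AddMonoidHom.coe_mulLeft]
  rw [hD]
  ring

theorem isCart_add {S : Type*} [CommRing S] {e : ℕ} {D E : S →+ S}
    (hD : IsCart p e D) (hE : IsCart p e E) : IsCart p e (D + E) := by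
  intro r s
  simp only [AddMonoidHom.add_apply]
  rw [hD, hE]
  ring

theorem isCart_zero {S : Type*} [CommRing S] {e : ℕ} : IsCart p e (0 : S →+ S) := by
  intro r s
  simp

/-- The ideal of all `D F`, `D` a `p^{-e}`-linear operator. -/
def rt (p e : ℕ) {S : Type*} [CommRing S] (F : S) : Ideal S where
  carrier := {x | ∃ D : S →+ S, IsCart p e D ∧ D F = x}
  zero_mem' := ⟨0, isCart_zero, rfl⟩
  add_mem' := by
    rintro _ _ ⟨D, hD, rfl⟩ ⟨E, hE, rfl⟩
    exact ⟨D + E, isCart_add hD hE, rfl⟩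
  smul_mem' := by
    rintro c _ ⟨D, hD, rfl⟩
    exact ⟨(AddMonoidHom.mulLeft c).comp D, isCart_mulLeft hD c, rfl⟩

theorem mem_rt {S : Type*} [CommRing S] {e : ℕ} {F x : S} :
    x ∈ rt p e F ↔ ∃ D : S →+ S, IsCart p e D ∧ D F = x := Iff.rfl

variable {S : Type*} [CommRing S] [ExpChar S p]

theorem mem_frobMap_of (hS : FrobProj p S) {e : ℕ} {K : Ideal S} {x : S}
    (h : ∀ D : S →+ S, IsCart p e D → D x ∈ K) : x ∈ frobMap p e K := by
  obtain ⟨N, s, D, hD, hx⟩ := hS e
  rw [hx x]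
  refine Ideal.sum_mem _ fun i _ => Ideal.mul_mem_right _ _ (pow_mem_frobMap (h _ (hD i)) e)

theorem mem_frobMap_rt (hS : FrobProj p S) (e : ℕ) (F : S) : F ∈ frobMap p e (rt p e F) :=
  mem_frobMap_of hS fun D hD => ⟨D, hD, rfl⟩

theorem rt_le_iff (hS : FrobProj p S) {e : ℕ} {F : S} {K : Ideal S} :
    rt p e F ≤ K ↔ F ∈ frobMap p e K := by
  constructor
  · intro h
    exact Ideal.map_mono h (mem_frobMap_rt hS e F)
  · rintro h _ ⟨D, hD, rfl⟩
    exact hD.mem h

/-- split -/
theorem FrobProj.split (hS : FrobProj p S) (hp : 0 < p) : Split p S := by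
  intro e
  have h1 : (1 : S) ∈ rt p e (1 : S) := by
    by_contra hcon
    obtain ⟨m, hm, hle⟩ := Ideal.exists_le_maximal (rt p e (1 : S))
      ((Ideal.ne_top_iff_one _).2 hcon)
    have h2 := (rt_le_iff hS).1 hle
    have h3 : frobMap p e m ≤ m := by
      unfold frobMap
      rw [Ideal.map_le_iff_le_comap]
      intro x hx
      rw [Ideal.mem_comap, iterateFrobenius_def]
      exact m.pow_mem_of_mem hx _ (Nat.pow_pos hp)
    exact (Ideal.ne_top_iff_one _).1 hm.ne_top (h3 h2)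
  obtain ⟨D, hD, hD1⟩ := h1
  exact ⟨D, hD, hD1⟩

theorem rt_pow (hS : FrobProj p S) (hp : 0 < p) (e d : ℕ) (F : S) :
    rt p (e + d) (F ^ p ^ d) = rt p e F := by
  apply le_antisymm
  · rw [rt_le_iff hS, ← frobMap_frobMap]
    exact pow_mem_frobMap (mem_frobMap_rt hS e F) d
  · rintro _ ⟨D, hD, rfl⟩
    obtain ⟨σ, hσ, h1⟩ := hS.split hp d
    refine ⟨D.comp σ, hσ.comp hD, ?_⟩
    have : σ (F ^ p ^ d) = F := by
      have := hσ F 1
      rwa [mul_one, h1, mul_one] at this
    simp [this]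

omit [ExpChar S p] in
theorem rt_mul (e : ℕ) (F : S) (c : S) : rt p e (c ^ p ^ e * F) ≤ rt p e F := by
  rintro _ ⟨D, hD, rfl⟩
  rw [hD]
  exact Ideal.mul_mem_left _ _ ⟨D, hD, rfl⟩

omit [ExpChar S p] in
theorem rt_dvd (e : ℕ) {F G : S} (h : F ∣ G) : rt p e G ≤ rt p e F := by
  obtain ⟨c, rfl⟩ := h
  rintro _ ⟨D, hD, rfl⟩
  refine ⟨D.comp (AddMonoidHom.mulLeft c), isCart_mul hD c, ?_⟩
  simp [mul_comm]

theorem sInf_span_eq (hS : FrobProj p S) (e : ℕ) (F : S) :
    sInf {K : Ideal S | Ideal.span {F} ≤ frobMap p e K} = rt p e F := by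
  apply le_antisymm
  · apply sInf_le
    rw [Set.mem_ofPred_eq, Ideal.span_singleton_le_iff_mem]
    exact mem_frobMap_rt hS e F
  · refine le_sInf fun K hK => ?_
    rw [Set.mem_ofPred_eq, Ideal.span_singleton_le_iff_mem] at hK
    exact (rt_le_iff hS).2 hK

variable {r : ℕ}

/-- the mixed test ideal of principal ideals at a point with denominators powers of `p` -/
theorem mixed_rat (hS : FrobProj p S) (hp : 0 < p) (F : Fin r → S) (a : Fin r → ℕ) (n : ℕ) :
    mixedTestIdeal p (fun i => Ideal.span {F i}) (fun i => (a i : ℝ) / (p : ℝ) ^ n) =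
      rt p n (∏ i, F i ^ a i) := by
  have hTT : ∀ d, TT p (fun i => Ideal.span {F i}) (fun i => (a i : ℝ) / (p : ℝ) ^ n) (n + d) =
      rt p n (∏ i, F i ^ a i) := by
    intro d
    unfold TT
    rw [JJ_principal hp, sInf_span_eq hS, rt_pow hS hp]
  apply le_antisymm
  · rw [mixed_eq]
    refine iSup_le fun e => ?_
    refine (TT_mono (hS.split hp) _ _ e n).trans ?_
    rw [add_comm, hTT]
  · rw [mixed_eq, ← hTT 0]
    exact le_iSup (TT p (fun i => Ideal.span {F i}) (fun i => (a i : ℝ) / (p : ℝ) ^ n)) (n + 0)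

/-- right constancy at points with denominators powers of `p` -/
theorem mixed_right (hS : FrobProj p S) (hp : 0 < p) (F : Fin r → S) (a : Fin r → ℕ) (n e0 : ℕ)
    {D0 : S →+ S} (hD0 : IsCart p e0 D0) (h1 : D0 (∏ i, F i) = 1) (x : Fin r → ℝ)
    (hx1 : ∀ i, (a i : ℝ) / (p : ℝ) ^ n ≤ x i)
    (hx2 : ∀ i, x i ≤ (a i : ℝ) / (p : ℝ) ^ n + 1 / (p : ℝ) ^ (n + e0)) :
    mixedTestIdeal p (fun i => Ideal.span {F i}) x =
      mixedTestIdeal p (fun i => Ideal.span {F i}) (fun i => (a i : ℝ) / (p : ℝ) ^ n) := by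
  have hpR : (0 : ℝ) < p := by exact_mod_cast hp
  apply le_antisymm (mixed_anti _ hx1)
  have h2 : mixedTestIdeal p (fun i => Ideal.span {F i})
      (fun i => ((a i * p ^ e0 + 1 : ℕ) : ℝ) / (p : ℝ) ^ (n + e0)) ≤
      mixedTestIdeal p (fun i => Ideal.span {F i}) x := by
    refine mixed_anti _ fun i => ?_
    refine (hx2 i).trans (le_of_eq ?_)
    push_cast
    rw [pow_add]
    field_simp
  refine le_trans ?_ h2
  rw [mixed_rat hS hp, mixed_rat hS hp]
  rintro _ ⟨D, hD, rfl⟩
  refine ⟨D.comp D0, hD0.comp hD, ?_⟩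
  have : ∏ i, F i ^ (a i * p ^ e0 + 1) = (∏ i, F i ^ a i) ^ p ^ e0 * ∏ i, F i := by
    rw [← Finset.prod_pow, ← Finset.prod_mul_distrib]
    refine Finset.prod_congr rfl fun i _ => ?_
    rw [pow_succ, pow_mul]
  rw [AddMonoidHom.comp_apply, this, hD0, h1, mul_one]

/-- A dual basis for Frobenius gives dual bases for its iterates. -/
theorem FrobProj.of_one (h : ∃ (N : ℕ) (s : Fin N → S) (D : Fin N → S →+ S),
    (∀ i, IsCart p 1 (D i)) ∧ ∀ x, x = ∑ i, (D i x) ^ p * s i) : FrobProj p S := by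
  classical
  intro e
  induction e with
  | zero =>
    refine ⟨1, fun _ => 1, fun _ => AddMonoidHom.id S, fun _ r s => by simp, fun x => by simp⟩
  | succ e ih =>
    obtain ⟨N, s, D, hD, hx⟩ := h
    obtain ⟨N', s', D', hD', hx'⟩ := ih
    let ε : Fin (N' * N) ≃ Fin N' × Fin N := finProdFinEquiv.symm
    refine ⟨N' * N, fun l => s (ε l).2 ^ p ^ e * s' (ε l).1,
      fun l => (D (ε l).2).comp (D' (ε l).1), fun l => ?_, fun x => ?_⟩
    · rw [add_comm]
      exact (hD' _).comp (hD _)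
    · rw [← Equiv.sum_comp ε.symm, Fintype.sum_prod_type]
      simp only [Equiv.apply_symm_apply, AddMonoidHom.comp_apply]
      conv_lhs => rw [hx' x]
      refine Finset.sum_congr rfl fun i _ => ?_
      conv_lhs => rw [hx (D' i x)]
      rw [← iterateFrobenius_def, map_sum, Finset.sum_mul]
      refine Finset.sum_congr rfl fun j _ => ?_
      rw [iterateFrobenius_def, mul_pow, ← pow_mul, ← pow_succ', mul_assoc]

/-- dual bases for finite flat ring homomorphisms from Noetherian rings -/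
theorem exists_dual_basis {A B : Type*} [CommRing A] [CommRing B] [IsNoetherianRing A]
    (f : A →+* B) (h1 : f.Finite) (h2 : f.Flat) :
    ∃ (N : ℕ) (b : Fin N → B) (φ : Fin N → B →+ A),
      (∀ i a x, φ i (f a * x) = a * φ i x) ∧ ∀ x, x = ∑ i, f (φ i x) * b i := by
  algebraize [f]
  have h3 : Module.Finite A B := h1
  have h4 : Module.Flat A B := h2
  have h5 : Module.FinitePresentation A B := Module.finitePresentation_of_finite A B
  have h6 : Module.Projective A B := Module.Flat.projective_of_finitePresentation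
  obtain ⟨N, g, hg⟩ := Module.Finite.exists_fin' A B
  obtain ⟨s, hs⟩ := Module.projective_lifting_property g LinearMap.id hg
  refine ⟨N, fun i => g (Pi.single i 1), fun i => ((LinearMap.proj i).comp s).toAddMonoidHom,
    fun i a x => ?_, fun x => ?_⟩
  · have : f a * x = a • x := by rw [Algebra.smul_def]; rfl
    simp only [LinearMap.toAddMonoidHom_coe, LinearMap.comp_apply]
    rw [this, map_smul, map_smul, smul_eq_mul]
  · have h7 : g (s x) = x := LinearMap.congr_fun hs x
    conv_lhs => rw [← h7, pi_eq_sum_univ' (s x)]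
    rw [map_sum]
    refine Finset.sum_congr rfl fun i _ => ?_
    rw [map_smul, Algebra.smul_def]
    rfl

/-- A Noetherian ring with finite flat Frobenius has dual bases. -/
theorem FrobProj.of_flat [IsNoetherianRing S] (h1 : (frobenius S p).Finite)
    (h2 : (frobenius S p).Flat) : FrobProj p S := by
  apply FrobProj.of_one
  obtain ⟨N, b, φ, h3, h4⟩ := exists_dual_basis (frobenius S p) h1 h2
  refine ⟨N, b, φ, fun i r s => ?_, fun x => ?_⟩
  · have := h3 i r s
    rwa [frobenius_def, ← pow_one p] at this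
  · exact h4 x

end fp

end Pool.Agent.Lib.MP_71915d_ag
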