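import Pool.Agent.Lib.MP_71915d_ag.Perf

set_option autoImplicit false

namespace Pool.Agent.Lib.MP_71915d_ag

open MvPolynomial
open scoped Pointwise

section fin

variable {p : ℕ} {k : Type*} [Field k] [ExpChar k p] [PerfectRing k p] {n : ℕ}

/-- all exponents with entries `< Q` -/
noncomputable def boxF (n Q : ℕ) : Finset (Fin n →₀ ℕ) :=
  (Finset.univ : Finset (Fin n → Fin Q)).image
    (fun v => Finsupp.equivFunOnFinite.symm (fun i => (v i : ℕ)))

theorem mem_boxF {n Q : ℕ} {α : Fin n →₀ ℕ} : α ∈ boxF n Q ↔ ∀ i, α i < Q := by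
  unfold boxF
  rw [Finset.mem_image]
  constructor
  · rintro ⟨v, _, rfl⟩ i
    simp
  · intro h
    refine ⟨fun i => ⟨α i, h i⟩, Finset.mem_univ _, ?_⟩
    ext i
    simp

/-- remainder of an exponent -/
noncomputable def qmod (Q : ℕ) (m : Fin n →₀ ℕ) : Fin n →₀ ℕ :=
  m.mapRange (fun a => a % Q) (Nat.zero_mod Q)

theorem qmod_apply (Q : ℕ) (m : Fin n →₀ ℕ) (i : Fin n) : qmod Q m i = m i % Q := by
  simp [qmod]

theorem qmod_add (Q : ℕ) (m : Fin n →₀ ℕ) : qmod Q m + Q • qdiv Q m = m := by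
  ext i
  simp only [Finsupp.add_apply, Finsupp.smul_apply, qmod_apply, qdiv_apply, smul_eq_mul]
  exact Nat.mod_add_div _ _

theorem cart_monomial (e : ℕ) (hQ : 0 < p ^ e) {α : Fin n →₀ ℕ} (hα : ∀ i, α i < p ^ e)
    (m : Fin n →₀ ℕ) (c : k) :
    cart (root p k e) hQ α (monomial m c) =
      if α = qmod (p ^ e) m then monomial (qdiv (p ^ e) m) (root p k e c) else 0 := by
  classical
  ext β
  rw [coeff_cart, coeff_monomial]
  have key : m = α + p ^ e • β ↔ (α = qmod (p ^ e) m ∧ qdiv (p ^ e) m = β) := by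
    constructor
    · intro h
      constructor
      · ext i
        rw [qmod_apply, h]
        simp only [Finsupp.add_apply, Finsupp.smul_apply, smul_eq_mul, Nat.add_mul_mod_self_left]
        rw [Nat.mod_eq_of_lt (hα i)]
      · ext i
        rw [qdiv_apply, h]
        simp only [Finsupp.add_apply, Finsupp.smul_apply, smul_eq_mul]
        rw [Nat.add_mul_div_left _ _ hQ, Nat.div_eq_of_lt (hα i), zero_add]
    · rintro ⟨h1, h2⟩
      rw [h1, ← h2, qmod_add]
  by_cases h1 : α = qmod (p ^ e) m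
  · rw [if_pos h1, coeff_monomial]
    by_cases h2 : qdiv (p ^ e) m = β
    · rw [if_pos h2, if_pos (key.2 ⟨h1, h2⟩)]
    · rw [if_neg h2, if_neg (fun h => h2 (key.1 h).2), map_zero]
  · rw [if_neg h1, if_neg (fun h => h1 (key.1 h).1), map_zero, coeff_zero]

/-- reconstruction of a polynomial from its components -/
theorem reconstruct (e : ℕ) (hQ : 0 < p ^ e) (F : MvPolynomial (Fin n) k) :
    F = ∑ α ∈ boxF n (p ^ e), (cart (root p k e) hQ α F) ^ p ^ e * monomial α 1 := by
  classical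
  induction F using MvPolynomial.induction_on' with
  | add G1 G2 h1 h2 =>
    conv_lhs => rw [h1, h2]
    rw [← Finset.sum_add_distrib]
    refine Finset.sum_congr rfl fun α _ => ?_
    rw [map_add, add_pow_expChar_pow, add_mul]
  | monomial m c =>
    have hmem : qmod (p ^ e) m ∈ boxF n (p ^ e) := by
      rw [mem_boxF]
      intro i
      rw [qmod_apply]
      exact Nat.mod_lt _ hQ
    rw [Finset.sum_eq_single_of_mem _ hmem]
    · rw [cart_monomial e hQ (mem_boxF.1 hmem), if_pos rfl, monomial_pow, root_pow,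
        monomial_mul, mul_one, add_comm, qmod_add]
    · intro α hα hne
      rw [cart_monomial e hQ (mem_boxF.1 hα), if_neg hne, zero_pow hQ.ne', zero_mul]

theorem mem_frobMap_iff (e : ℕ) (hQ : 0 < p ^ e) (F : MvPolynomial (Fin n) k)
    (K : Ideal (MvPolynomial (Fin n) k)) :
    F ∈ frobMap p e K ↔ ∀ α ∈ boxF n (p ^ e), cart (root p k e) hQ α F ∈ K := by
  constructor
  · intro h α hα
    exact (isCart_cart _ (isCart_root e) hQ α (mem_boxF.1 hα)).mem h
  · intro h
    rw [reconstruct e hQ F]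
    refine Ideal.sum_mem _ fun α hα => ?_
    exact Ideal.mul_mem_right _ _ (pow_mem_frobMap (h α hα) e)

/-- the operator `J ↦ J^{[1/p^e]}` on spans -/
theorem le_frobMap_iff (e : ℕ) (hQ : 0 < p ^ e) (S : Set (MvPolynomial (Fin n) k))
    (K : Ideal (MvPolynomial (Fin n) k)) :
    Ideal.span S ≤ frobMap p e K ↔
      Ideal.span {G | ∃ F ∈ S, ∃ α ∈ boxF n (p ^ e), G = cart (root p k e) hQ α F} ≤ K := by
  rw [Ideal.span_le, Ideal.span_le]
  constructor
  · rintro h _ ⟨F, hF, α, hα, rfl⟩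
    exact (mem_frobMap_iff e hQ F K).1 (h hF) α hα
  · intro h F hF
    exact (mem_frobMap_iff e hQ F K).2 fun α hα => h ⟨F, hF, α, hα, rfl⟩

/-- polynomials of bounded degree with coefficients in `K0` -/
def GG (K0 : Subring k) (n D : ℕ) : Set (MvPolynomial (Fin n) k) :=
  {F | F.totalDegree ≤ D ∧ ∀ m, coeff m F ∈ K0}

/-- generated by elements of `GG K0 n D` -/
def Gen (K0 : Subring k) (D : ℕ) (J : Ideal (MvPolynomial (Fin n) k)) : Prop :=
  ∃ S ⊆ GG K0 n D, J = Ideal.span S

omit [ExpChar k p] [PerfectRing k p] in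
theorem GG_mono (K0 : Subring k) {D D' : ℕ} (h : D ≤ D') : GG K0 n D ⊆ GG K0 n D' :=
  fun _ hF => ⟨hF.1.trans h, hF.2⟩

theorem GG_mul (K0 : Subring k) {D D' : ℕ} {F G : MvPolynomial (Fin n) k} (hF : F ∈ GG K0 n D)
    (hG : G ∈ GG K0 n D') : F * G ∈ GG K0 n (D + D') := by
  classical
  refine ⟨(totalDegree_mul _ _).trans (add_le_add hF.1 hG.1), fun m => ?_⟩
  rw [coeff_mul]
  exact K0.sum_mem fun x _ => K0.mul_mem (hF.2 _) (hG.2 _)

theorem GG_one (K0 : Subring k) : (1 : MvPolynomial (Fin n) k) ∈ GG K0 n 0 := by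
  classical
  refine ⟨by simp, fun m => ?_⟩
  rw [coeff_one]
  split_ifs
  · exact K0.one_mem
  · exact K0.zero_mem

theorem Gen.mul {K0 : Subring k} {D D' : ℕ} {J J' : Ideal (MvPolynomial (Fin n) k)}
    (h : Gen K0 D J) (h' : Gen K0 D' J') : Gen K0 (D + D') (J * J') := by
  obtain ⟨S, hS, rfl⟩ := h
  obtain ⟨S', hS', rfl⟩ := h'
  refine ⟨S * S', ?_, Ideal.span_mul_span' S S'⟩
  rintro _ ⟨F, hF, G, hG, rfl⟩
  exact GG_mul K0 (hS hF) (hS' hG)

theorem Gen.one (K0 : Subring k) : Gen K0 0 (1 : Ideal (MvPolynomial (Fin n) k)) := by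
  refine ⟨{1}, ?_, ?_⟩
  · rintro _ rfl
    exact GG_one K0
  · rw [Ideal.span_singleton_one, Ideal.one_eq_top]

theorem Gen.mono {K0 : Subring k} {D D' : ℕ} {J : Ideal (MvPolynomial (Fin n) k)}
    (h : Gen K0 D J) (hD : D ≤ D') : Gen K0 D' J := by
  obtain ⟨S, hS, rfl⟩ := h
  exact ⟨S, hS.trans (GG_mono K0 hD), rfl⟩

theorem Gen.pow {K0 : Subring k} {D : ℕ} {J : Ideal (MvPolynomial (Fin n) k)}
    (h : Gen K0 D J) (a : ℕ) : Gen K0 (D * a) (J ^ a) := by
  induction a with
  | zero => simpa using Gen.one K0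
  | succ a ih =>
    rw [pow_succ, mul_add, mul_one]
    exact ih.mul h

theorem Gen.prod {K0 : Subring k} {ι : Type*} (s : Finset ι) (D : ι → ℕ)
    (J : ι → Ideal (MvPolynomial (Fin n) k)) (h : ∀ i ∈ s, Gen K0 (D i) (J i)) :
    Gen K0 (∑ i ∈ s, D i) (∏ i ∈ s, J i) := by
  classical
  induction s using Finset.induction_on with
  | empty => simpa using Gen.one K0
  | insert a s ha ih =>
    rw [Finset.sum_insert ha, Finset.prod_insert ha]
    exact (h a (Finset.mem_insert_self _ _)).mul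
      (ih fun i hi => h i (Finset.mem_insert_of_mem hi))

theorem cart_mem_GG {K0 : Subring k} {e : ℕ} (hQ : 0 < p ^ e)
    (hK0 : ∀ x ∈ K0, root p k e x ∈ K0) {D : ℕ} {F : MvPolynomial (Fin n) k}
    (hF : F ∈ GG K0 n (D * p ^ e)) (α : Fin n →₀ ℕ) :
    cart (root p k e) hQ α F ∈ GG K0 n D := by
  constructor
  · unfold totalDegree
    refine Finset.sup_le fun β hβ => ?_
    rw [mem_support_iff, coeff_cart] at hβ
    have h1 : coeff (α + p ^ e • β) F ≠ 0 := by
      intro h
      rw [h, map_zero] at hβ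
      exact hβ rfl
    have h2 := le_totalDegree (mem_support_iff.2 h1)
    have h3 : ((α + p ^ e • β).sum fun _ e => e) = (α + p ^ e • β).degree := by
      rw [Finsupp.degree_apply]; rfl
    have h4 : (β.sum fun _ e => e) = β.degree := by
      rw [Finsupp.degree_apply]; rfl
    rw [h3] at h2
    rw [h4]
    have h6 : (α + p ^ e • β).degree = α.degree + p ^ e * β.degree := by
      rw [map_add, map_nsmul, smul_eq_mul]
    rw [h6] at h2
    have h5 := hF.1
    have h7 : p ^ e * β.degree ≤ p ^ e * D := by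
      rw [mul_comm (p ^ e) D]; omega
    exact Nat.le_of_mul_le_mul_left h7 hQ
  · intro m
    rw [coeff_cart]
    exact hK0 _ (hF.2 _)

theorem GG_finite {K0 : Subring k} (hfin : (K0 : Set k).Finite) (n D : ℕ) :
    (GG K0 n D).Finite := by
  classical
  set T : Finset (Fin n →₀ ℕ) := boxF n (D + 1) with hT
  have : Finite (K0 : Set k) := hfin
  have hfun : Finite (T → (K0 : Set k)) := inferInstance
  let φ : GG K0 n D → (T → (K0 : Set k)) := fun F m => ⟨coeff m.1 F.1, F.2.2 m.1⟩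
  have hinj : Function.Injective φ := by
    rintro ⟨F, hF⟩ ⟨G, hG⟩ h
    apply Subtype.ext
    change F = G
    ext m
    by_cases hm : m ∈ T
    · have := congrFun h ⟨m, hm⟩
      exact congrArg Subtype.val this
    · have hdeg : D < m.degree := by
        rw [hT, mem_boxF] at hm
        push Not at hm
        obtain ⟨i, hi⟩ := hm
        have h3 : i ∈ m.support := by
          rw [Finsupp.mem_support_iff]; omega
        have h4 : m i ≤ ∑ j ∈ m.support, m j :=
          Finset.single_le_sum (f := fun j => m j) (fun _ _ => Nat.zero_le _) h3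
        rw [Finsupp.degree_apply]
        omega
      rw [coeff_eq_zero_of_totalDegree_lt, coeff_eq_zero_of_totalDegree_lt]
      · rw [← Finsupp.degree_apply]; exact hG.1.trans_lt hdeg
      · rw [← Finsupp.degree_apply]; exact hF.1.trans_lt hdeg
  have := Finite.of_injective φ hinj
  exact Set.toFinite _

theorem TT_gen {K0 : Subring k} (hp : 0 < p) (hK0 : ∀ e, ∀ x ∈ K0, root p k e x ∈ K0) {r : ℕ}
    (I : Fin r → Ideal (MvPolynomial (Fin n) k)) (D : Fin r → ℕ) (hI : ∀ i, Gen K0 (D i) (I i))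
    {M : ℝ} {x : Fin r → ℝ} (hx : x ∈ box r M) (e : ℕ) :
    Gen K0 (∑ i, D i * ⌈M⌉₊) (TT p I x e) := by
  have hQ : 0 < p ^ e := Nat.pow_pos hp
  have h1 : Gen K0 ((∑ i, D i * ⌈M⌉₊) * p ^ e) (JJ p I x e) := by
    have h2 : Gen K0 (∑ i, D i * ⌈x i * (p : ℝ) ^ e⌉₊) (JJ p I x e) :=
      Gen.prod _ _ _ fun i _ => (hI i).pow _
    refine h2.mono ?_
    rw [Finset.sum_mul]
    refine Finset.sum_le_sum fun i _ => ?_
    rw [mul_assoc]
    refine Nat.mul_le_mul_left _ ?_
    rw [Nat.ceil_le]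
    push_cast
    refine mul_le_mul_of_nonneg_right ?_ (by positivity)
    exact (hx i).2.trans (Nat.le_ceil _)
  obtain ⟨S, hS, hJ⟩ := h1
  refine ⟨{G | ∃ F ∈ S, ∃ α ∈ boxF n (p ^ e), G = cart (root p k e) hQ α F}, ?_, ?_⟩
  · rintro _ ⟨F, hF, α, _, rfl⟩
    exact cart_mem_GG hQ (hK0 e) (hS hF) α
  · unfold TT
    rw [hJ]
    apply le_antisymm
    · exact sInf_le ((le_frobMap_iff e hQ S _).2 le_rfl)
    · refine le_sInf fun K hK => ?_
      exact (le_frobMap_iff e hQ S K).1 hK

theorem mixed_gen {K0 : Subring k} (hp : 0 < p) (hK0 : ∀ e, ∀ x ∈ K0, root p k e x ∈ K0) {r : ℕ}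
    (I : Fin r → Ideal (MvPolynomial (Fin n) k)) (D : Fin r → ℕ) (hI : ∀ i, Gen K0 (D i) (I i))
    {M : ℝ} {x : Fin r → ℝ} (hx : x ∈ box r M) :
    Gen K0 (∑ i, D i * ⌈M⌉₊) (mixedTestIdeal p I x) := by
  have h := TT_gen hp hK0 I D hI hx
  choose S hS hT using h
  refine ⟨⋃ e, S e, Set.iUnion_subset hS, ?_⟩
  rw [mixed_eq, Ideal.span, Submodule.span_iUnion]
  exact iSup_congr hT

theorem finite_values {K0 : Subring k} (hfin : (K0 : Set k).Finite) (hp : 0 < p)
    (hK0 : ∀ e, ∀ x ∈ K0, root p k e x ∈ K0) {r : ℕ}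
    (I : Fin r → Ideal (MvPolynomial (Fin n) k)) (D : Fin r → ℕ) (hI : ∀ i, Gen K0 (D i) (I i))
    (M : ℝ) : (mixedTestIdeal p I '' box r M).Finite := by
  set E := ∑ i, D i * ⌈M⌉₊ with hE
  have h1 : {S | S ⊆ GG K0 n E}.Finite := (GG_finite hfin n E).finite_subsets
  refine (h1.image Ideal.span).subset ?_
  rintro _ ⟨x, hx, rfl⟩
  obtain ⟨S, hS, hT⟩ := mixed_gen hp hK0 I D hI hx
  exact ⟨S, hS, hT.symm⟩

theorem exists_subring [Fact p.Prime] [Algebra (ZMod p) k] (halg : Algebra.IsAlgebraic (ZMod p) k)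
    (S : Finset k) : ∃ K0 : Subring k, (K0 : Set k).Finite ∧ (∀ e, ∀ x ∈ K0, root p k e x ∈ K0) ∧
      (S : Set k) ⊆ K0 := by
  set E : IntermediateField (ZMod p) k := IntermediateField.adjoin (ZMod p) (S : Set k) with hE
  have hfd : FiniteDimensional (ZMod p) E :=
    IntermediateField.finiteDimensional_adjoin fun x _ => (halg.isAlgebraic x).isIntegral
  have hfin : Finite E := Module.finite_of_finite (ZMod p)
  refine ⟨E.toSubring, ?_, ?_, ?_⟩
  · exact Set.toFinite (E : Set k)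
  · intro e x hx
    have hinj : Function.Injective (fun y : E => y ^ p ^ e) := by
      intro a b hab
      apply Subtype.ext
      have h1 : (a : k) ^ p ^ e = (b : k) ^ p ^ e := by
        have := congrArg Subtype.val hab
        simpa using this
      have h2 := root_unique (p := p) (k := k) h1
      exact h2.symm.trans (root_unique (p := p) (k := k) (e := e) rfl)
    obtain ⟨y, hy⟩ := Finite.surjective_of_injective hinj ⟨x, hx⟩
    have h1 : (y : k) ^ p ^ e = x := by
      have := congrArg Subtype.val hy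
      simpa using this
    rw [root_unique h1]
    exact y.2
  · exact IntermediateField.subset_adjoin _ _

theorem finite_of_algebraic [Fact p.Prime] [Algebra (ZMod p) k]
    (halg : Algebra.IsAlgebraic (ZMod p) k) {r : ℕ}
    (I : Fin r → Ideal (MvPolynomial (Fin n) k)) (M : ℝ) :
    (mixedTestIdeal p I '' box r M).Finite := by
  classical
  have hfg : ∀ i, (I i).FG := fun i => IsNoetherian.noetherian (I i)
  choose S hS using hfg
  obtain ⟨K0, h1, h2, h3⟩ := exists_subring (p := p) halg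
    (Finset.univ.biUnion fun i => (S i).biUnion fun F => F.support.image fun m => coeff m F)
  refine finite_values h1 (Nat.Prime.pos Fact.out) h2 I (fun i => (S i).sup totalDegree) ?_ M
  intro i
  refine ⟨S i, ?_, (hS i).symm⟩
  intro F hF
  refine ⟨Finset.le_sup (f := totalDegree) hF, fun m => ?_⟩
  by_cases hm : m ∈ F.support
  · apply h3
    rw [Finset.mem_coe, Finset.mem_biUnion]
    refine ⟨i, Finset.mem_univ _, ?_⟩
    rw [Finset.mem_biUnion]
    exact ⟨F, hF, Finset.mem_image_of_mem _ hm⟩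
  · rw [notMem_support_iff.1 hm]
    exact K0.zero_mem

end fin

end Pool.Agent.Lib.MP_71915d_ag
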