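import Pool.Agent.Lib.MP_71915d_ag.Homog

set_option autoImplicit false

namespace Pool.Agent.Lib.MP_71915d_ag

open MvPolynomial
open scoped Pointwise

section formula

variable {p : ℕ} {k : Type*} [Field k] [ExpChar k p] [PerfectRing k p] {n : ℕ}

theorem split_poly (hp : 0 < p) : Split p (MvPolynomial (Fin n) k) :=
  split_mvPolynomial hp split_perf

theorem TT_monotone (hp : 0 < p) {r : ℕ} (I : Fin r → Ideal (MvPolynomial (Fin n) k))
    (x : Fin r → ℝ) : Monotone (TT p I x) := by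
  intro e e' h
  obtain ⟨d, rfl⟩ := Nat.exists_eq_add_of_le h
  exact TT_mono (split_poly hp) I x e d

theorem JJ_hgen {r : ℕ} (I : Fin r → Ideal (MvPolynomial (Fin n) k)) (d : Fin r → ℕ)
    (hI : ∀ i, HGen (d i) (I i)) (x : Fin r → ℝ) (e : ℕ) :
    HGen (∑ i, d i * ⌈x i * (p : ℝ) ^ e⌉₊) (JJ p I x e) :=
  HGen.prod _ _ _ fun i _ => (hI i).pow _

omit [ExpChar k p] [PerfectRing k p] in
theorem JJ_snoc {r : ℕ} (I : Fin r → Ideal (MvPolynomial (Fin n) k)) (x : Fin r → ℝ)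
    (m : Ideal (MvPolynomial (Fin n) k)) (y : ℝ) (e : ℕ) :
    JJ p (Fin.snoc I m : Fin (r + 1) → Ideal (MvPolynomial (Fin n) k))
      (Fin.snoc x y : Fin (r + 1) → ℝ) e = JJ p I x e * m ^ ⌈y * (p : ℝ) ^ e⌉₊ := by
  unfold JJ
  rw [Fin.prod_univ_castSucc]
  simp

theorem TT_snoc (hp : 0 < p) {r : ℕ} (I : Fin r → Ideal (MvPolynomial (Fin n) k)) (d : Fin r → ℕ)
    (hI : ∀ i, HGen (d i) (I i)) (x : Fin r → ℝ) (y : ℝ) (e c : ℕ)
    (hc1 : (∑ i, d i * ⌈x i * (p : ℝ) ^ e⌉₊) + ⌈y * (p : ℝ) ^ e⌉₊ + n ≤ p ^ e * (c + n))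
    (hc2 : ∀ c', (∑ i, d i * ⌈x i * (p : ℝ) ^ e⌉₊) + ⌈y * (p : ℝ) ^ e⌉₊ + n ≤ p ^ e * (c' + n) →
      c ≤ c') :
    TT p (Fin.snoc I (idealOfVars (Fin n) k) : Fin (r + 1) → Ideal (MvPolynomial (Fin n) k))
      (Fin.snoc x y : Fin (r + 1) → ℝ) e = TT p I x e ⊓ idealOfVars (Fin n) k ^ c := by
  have hQ : 0 < p ^ e := Nat.pow_pos hp
  obtain ⟨S, hS, hJ⟩ := JJ_hgen (p := p) I d hI x e
  unfold TT
  rw [JJ_snoc, hJ, sInf_eq_rootSpan e hQ]
  apply le_antisymm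
  · exact sInf_le ((span_mul_le_iff e hQ hS _ c hc1 hc2 _).2 le_rfl)
  · exact le_sInf fun K hK => (span_mul_le_iff e hQ hS _ c hc1 hc2 K).1 hK

/-- The formula `τ(I_1^{x_1} ⋯ I_r^{x_r} 𝔪^y) = τ(I_1^{x_1} ⋯ I_r^{x_r}) ∩ 𝔪^{⌊∑ d_i x_i + y⌋+1-n}`. -/
theorem formula (hp : 2 ≤ p) (hn : 0 < n) {r : ℕ} (I : Fin r → Ideal (MvPolynomial (Fin n) k))
    (d : Fin r → ℕ) (hI : ∀ i, HGen (d i) (I i)) (x : Fin r → ℝ) (hx : ∀ i, 0 ≤ x i) (y : ℝ)
    (hy : 0 ≤ y) :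
    mixedTestIdeal p
      (Fin.snoc I (idealOfVars (Fin n) k) : Fin (r + 1) → Ideal (MvPolynomial (Fin n) k))
      (Fin.snoc x y : Fin (r + 1) → ℝ) =
    mixedTestIdeal p I x ⊓
      idealOfVars (Fin n) k ^ (⌊(∑ i, (d i : ℝ) * x i) + y⌋₊ + 1 - n) := by
  classical
  have hp0 : 0 < p := by omega
  have hpR : (1 : ℝ) < p := by exact_mod_cast (by omega : 1 < p)
  set s : ℝ := (∑ i, (d i : ℝ) * x i) + y with hs
  have hs0 : 0 ≤ s := by
    rw [hs]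
    have : 0 ≤ ∑ i, (d i : ℝ) * x i := Finset.sum_nonneg fun i _ => mul_nonneg (by positivity) (hx i)
    linarith
  set c0 : ℕ := ⌊s⌋₊ + 1 - n with hc0
  let NB : ℕ → ℕ := fun e => (∑ i, d i * ⌈x i * (p : ℝ) ^ e⌉₊) + ⌈y * (p : ℝ) ^ e⌉₊
  -- the exponents at level e
  have hex : ∀ e, ∃ c, NB e + n ≤ p ^ e * (c + n) := by
    intro e
    refine ⟨NB e + n, ?_⟩
    have h1 : 1 ≤ p ^ e := Nat.one_le_pow _ _ hp0
    calc NB e + n ≤ 1 * (NB e + n + n) := by omega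
      _ ≤ p ^ e * (NB e + n + n) := Nat.mul_le_mul_right _ h1
  let c : ℕ → ℕ := fun e => Nat.find (hex e)
  have hc1 : ∀ e, NB e + n ≤ p ^ e * (c e + n) := fun e => Nat.find_spec (hex e)
  have hc2 : ∀ e c', NB e + n ≤ p ^ e * (c' + n) → c e ≤ c' := fun e c' h => Nat.find_min' (hex e) h
  have hTT : ∀ e, TT p
      (Fin.snoc I (idealOfVars (Fin n) k) : Fin (r + 1) → Ideal (MvPolynomial (Fin n) k))
      (Fin.snoc x y : Fin (r + 1) → ℝ) e = TT p I x e ⊓ idealOfVars (Fin n) k ^ c e :=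
    fun e => TT_snoc hp0 I d hI x y e (c e) (hc1 e) (hc2 e)
  -- bounds for NB
  have hlow : ∀ e, s * (p : ℝ) ^ e ≤ (NB e : ℝ) := by
    intro e
    simp only [NB, hs]
    push_cast
    rw [add_mul, Finset.sum_mul]
    refine add_le_add (Finset.sum_le_sum fun i _ => ?_) (Nat.le_ceil _)
    rw [mul_assoc]
    exact mul_le_mul_of_nonneg_left (Nat.le_ceil _) (by positivity)
  have hupp : ∀ e, (NB e : ℝ) ≤ s * (p : ℝ) ^ e + ((∑ i, (d i : ℝ)) + 1) := by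
    intro e
    simp only [NB, hs]
    push_cast
    have h1 : ∀ i, (d i : ℝ) * (⌈x i * (p : ℝ) ^ e⌉₊ : ℝ) ≤ d i * x i * (p : ℝ) ^ e + d i := by
      intro i
      have := (Nat.ceil_lt_add_one (mul_nonneg (hx i) (by positivity : (0 : ℝ) ≤ (p : ℝ) ^ e))).le
      have h2 := mul_le_mul_of_nonneg_left this (by positivity : (0 : ℝ) ≤ (d i : ℝ))
      linarith
    have h2 := Finset.sum_le_sum fun i (_ : i ∈ (Finset.univ : Finset (Fin r))) => h1 i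
    rw [Finset.sum_add_distrib, ← Finset.sum_mul] at h2
    have h3 := (Nat.ceil_lt_add_one (mul_nonneg hy (by positivity : (0 : ℝ) ≤ (p : ℝ) ^ e))).le
    rw [add_mul]
    linarith
  have hge : ∀ e, c0 ≤ c e := by
    intro e
    have h1 : ((NB e + n : ℕ) : ℝ) ≤ ((p ^ e * (c e + n) : ℕ) : ℝ) := by exact_mod_cast hc1 e
    push_cast at h1
    have h2 := hlow e
    have h3 : (0 : ℝ) < (p : ℝ) ^ e := by positivity
    have h4 : (0 : ℝ) < (n : ℝ) := by exact_mod_cast hn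
    have h5 : s < c e + n := by
      have : s * (p : ℝ) ^ e < (c e + n) * (p : ℝ) ^ e := by linarith
      exact lt_of_mul_lt_mul_right this h3.le
    have h6 : ⌊s⌋₊ < c e + n := by
      rw [Nat.floor_lt hs0]
      exact_mod_cast h5
    omega
  obtain ⟨e0, he0⟩ : ∃ e0, ∀ e ≥ e0, c e ≤ c0 := by
    have hgap : 0 < (⌊s⌋₊ : ℝ) + 1 - s := by
      have := Nat.lt_floor_add_one s
      linarith
    obtain ⟨e0, he0⟩ := pow_unbounded_of_one_lt
      (((∑ i, (d i : ℝ)) + 1 + n) / ((⌊s⌋₊ : ℝ) + 1 - s)) hpR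
    refine ⟨e0, fun e he => hc2 e c0 ?_⟩
    have h1 : (p : ℝ) ^ e0 ≤ (p : ℝ) ^ e := pow_le_pow_right₀ hpR.le he
    have h2 : (∑ i, (d i : ℝ)) + 1 + n < (p : ℝ) ^ e * ((⌊s⌋₊ : ℝ) + 1 - s) := by
      rw [div_lt_iff₀ hgap] at he0
      have := mul_le_mul_of_nonneg_right h1 hgap.le
      linarith
    have h3 := hupp e
    have h4 : ((NB e + n : ℕ) : ℝ) ≤ ((p ^ e * (⌊s⌋₊ + 1) : ℕ) : ℝ) := by
      push_cast
      nlinarith
    have h5 : NB e + n ≤ p ^ e * (⌊s⌋₊ + 1) := by exact_mod_cast h4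
    refine h5.trans (Nat.mul_le_mul_left _ ?_)
    omega
  rw [mixed_eq, mixed_eq]
  apply le_antisymm
  · refine iSup_le fun e => ?_
    rw [hTT e]
    exact inf_le_inf (le_iSup (TT p I x) e) (Ideal.pow_le_pow_right (hge e))
  · rintro G ⟨hG1, hG2⟩
    have hmono := TT_monotone (n := n) hp0 I x
    rw [SetLike.mem_coe, Submodule.mem_iSup_of_directed _ hmono.directed_le] at hG1
    obtain ⟨e, he⟩ := hG1
    have h1 : G ∈ TT p I x (max e e0) := hmono (le_max_left _ _) he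
    have h2 : G ∈ idealOfVars (Fin n) k ^ c (max e e0) :=
      Ideal.pow_le_pow_right (he0 _ (le_max_right _ _)) hG2
    refine (le_iSup (TT p (Fin.snoc I (idealOfVars (Fin n) k) :
      Fin (r + 1) → Ideal (MvPolynomial (Fin n) k)) (Fin.snoc x y : Fin (r + 1) → ℝ)) (max e e0)) ?_
    rw [hTT]
    exact ⟨h1, h2⟩

end formula

end Pool.Agent.Lib.MP_71915d_ag
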