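import Pool.Agent.Lib.MP_71915d_ag.Fin

set_option autoImplicit false

namespace Pool.Agent.Lib.MP_71915d_ag

open MvPolynomial
open scoped Pointwise

section homog

variable {p : ℕ} {k : Type*} [Field k] [ExpChar k p] [PerfectRing k p] {n : ℕ}

/-- generated by homogeneous polynomials of degree `N` -/
def HGen {k : Type*} [Field k] {n : ℕ} (N : ℕ) (J : Ideal (MvPolynomial (Fin n) k)) : Prop :=
  ∃ S : Set (MvPolynomial (Fin n) k), (∀ F ∈ S, F.IsHomogeneous N) ∧ J = Ideal.span S

omit [ExpChar k p] [PerfectRing k p] in
theorem HGen.mul {N N' : ℕ} {J J' : Ideal (MvPolynomial (Fin n) k)}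
    (h : HGen N J) (h' : HGen N' J') : HGen (N + N') (J * J') := by
  obtain ⟨S, hS, rfl⟩ := h
  obtain ⟨S', hS', rfl⟩ := h'
  refine ⟨S * S', ?_, Ideal.span_mul_span' S S'⟩
  rintro _ ⟨F, hF, G, hG, rfl⟩
  exact (hS F hF).mul (hS' G hG)

omit [ExpChar k p] [PerfectRing k p] in
theorem HGen.one : HGen 0 (1 : Ideal (MvPolynomial (Fin n) k)) := by
  refine ⟨{1}, ?_, ?_⟩
  · rintro _ rfl
    exact isHomogeneous_one _ _
  · rw [Ideal.span_singleton_one, Ideal.one_eq_top]

omit [ExpChar k p] [PerfectRing k p] in
theorem HGen.pow {N : ℕ} {J : Ideal (MvPolynomial (Fin n) k)}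
    (h : HGen N J) (a : ℕ) : HGen (N * a) (J ^ a) := by
  induction a with
  | zero => simpa using HGen.one
  | succ a ih =>
    rw [pow_succ, mul_add, mul_one]
    exact ih.mul h

omit [ExpChar k p] [PerfectRing k p] in
theorem HGen.prod {ι : Type*} (s : Finset ι) (N : ι → ℕ)
    (J : ι → Ideal (MvPolynomial (Fin n) k)) (h : ∀ i ∈ s, HGen (N i) (J i)) :
    HGen (∑ i ∈ s, N i) (∏ i ∈ s, J i) := by
  classical
  induction s using Finset.induction_on with
  | empty => simpa using HGen.one
  | insert a s ha ih =>
    rw [Finset.sum_insert ha, Finset.prod_insert ha]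
    exact (h a (Finset.mem_insert_self _ _)).mul
      (ih fun i hi => h i (Finset.mem_insert_of_mem hi))

/-- the root ideal `J^{[1/p^e]}` of a span -/
noncomputable def rootSpan (p : ℕ) {k : Type*} [Field k] [ExpChar k p] [PerfectRing k p] {n : ℕ} (e : ℕ)
    (hQ : 0 < p ^ e) (S : Set (MvPolynomial (Fin n) k)) : Ideal (MvPolynomial (Fin n) k) :=
  Ideal.span {G | ∃ F ∈ S, ∃ α ∈ boxF n (p ^ e), G = cart (root p k e) hQ α F}

theorem sInf_eq_rootSpan (e : ℕ) (hQ : 0 < p ^ e) (S : Set (MvPolynomial (Fin n) k)) :
    sInf {K : Ideal (MvPolynomial (Fin n) k) | Ideal.span S ≤ frobMap p e K} =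
      rootSpan p e hQ S := by
  apply le_antisymm
  · exact sInf_le ((le_frobMap_iff e hQ S _).2 le_rfl)
  · exact le_sInf fun K hK => (le_frobMap_iff e hQ S K).1 hK

theorem cart_mem_rootSpan (e : ℕ) (hQ : 0 < p ^ e) {S : Set (MvPolynomial (Fin n) k)}
    {G : MvPolynomial (Fin n) k} (hG : G ∈ Ideal.span S) {α : Fin n →₀ ℕ}
    (hα : α ∈ boxF n (p ^ e)) : cart (root p k e) hQ α G ∈ rootSpan p e hQ S := by
  have h : Ideal.span S ≤ frobMap p e (rootSpan p e hQ S) := (le_frobMap_iff e hQ S _).2 le_rfl
  exact (mem_frobMap_iff e hQ G _).1 (h hG) α hα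

/-- degrees of the components of a homogeneous polynomial -/
theorem coeff_cart_degree {e : ℕ} (hQ : 0 < p ^ e) {N : ℕ} {F : MvPolynomial (Fin n) k}
    (hF : F.IsHomogeneous N) {α γ : Fin n →₀ ℕ}
    (h : coeff γ (cart (root p k e) hQ α F) ≠ 0) : α.degree + p ^ e * γ.degree = N := by
  rw [coeff_cart] at h
  have h1 : coeff (α + p ^ e • γ) F ≠ 0 := by
    intro h0
    rw [h0, map_zero] at h
    exact h rfl
  have h2 : (α + p ^ e • γ).degree = N := by
    by_contra hne
    exact h1 (hF.coeff_eq_zero hne)
  rw [← h2, map_add, map_nsmul, smul_eq_mul]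

theorem degree_le_of_box {Q : ℕ} {α : Fin n →₀ ℕ} (h : α ∈ boxF n Q) :
    α.degree ≤ n * (Q - 1) := by
  rw [mem_boxF] at h
  rw [Finsupp.degree_eq_sum]
  calc ∑ i, α i ≤ ∑ _i : Fin n, (Q - 1) := Finset.sum_le_sum fun i _ => by
        have := h i
        omega
    _ = n * (Q - 1) := by simp

/-- the top exponent `(Q-1,…,Q-1)` -/
noncomputable def topE (n Q : ℕ) : Fin n →₀ ℕ := Finsupp.equivFunOnFinite.symm fun _ => Q - 1

theorem topE_apply (n Q : ℕ) (i : Fin n) : topE n Q i = Q - 1 := by simp [topE]

theorem degree_topE (n Q : ℕ) : (topE n Q).degree = n * (Q - 1) := by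
  rw [Finsupp.degree_eq_sum]
  simp [topE_apply]

theorem topE_mem {Q : ℕ} (hQ : 0 < Q) : topE n Q ∈ boxF n Q := by
  rw [mem_boxF]
  intro i
  rw [topE_apply]
  omega

/-- picking out one component by multiplication with a monomial -/
theorem cart_top (e : ℕ) (hQ : 0 < p ^ e) {α : Fin n →₀ ℕ} (hα : α ∈ boxF n (p ^ e))
    (γ : Fin n →₀ ℕ) (c : k) (F : MvPolynomial (Fin n) k) :
    cart (root p k e) hQ (topE n (p ^ e))
      (monomial (p ^ e • γ + (topE n (p ^ e) - α)) (c ^ p ^ e) * F) =
      monomial γ c * cart (root p k e) hQ α F := by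
  classical
  rw [mem_boxF] at hα
  have hle : α ≤ topE n (p ^ e) := by
    intro i
    rw [topE_apply]
    have := hα i
    omega
  ext μ
  rw [coeff_cart, coeff_monomial_mul', coeff_monomial_mul', coeff_cart]
  have hiff : p ^ e • γ + (topE n (p ^ e) - α) ≤ topE n (p ^ e) + p ^ e • μ ↔ γ ≤ μ := by
    constructor
    · intro h i
      have h1 := h i
      simp only [Finsupp.add_apply, Finsupp.smul_apply, Finsupp.coe_tsub, Pi.sub_apply,
        smul_eq_mul, topE_apply] at h1
      have h2 := hα i
      by_contra h3
      push Not at h3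
      have h4 : p ^ e * (μ i + 1) ≤ p ^ e * γ i := Nat.mul_le_mul_left _ h3
      rw [mul_add, mul_one] at h4
      omega
    · intro h i
      have h1 := h i
      simp only [Finsupp.add_apply, Finsupp.smul_apply, Finsupp.coe_tsub, Pi.sub_apply,
        smul_eq_mul, topE_apply]
      have h4 : p ^ e * γ i ≤ p ^ e * μ i := Nat.mul_le_mul_left _ h1
      omega
  by_cases h : γ ≤ μ
  · rw [if_pos (hiff.2 h), if_pos h, isCart_root e]
    congr 3
    ext i
    have h1 := h i
    have h2 := hα i
    have h5 := (hiff.2 h) i
    simp only [Finsupp.add_apply, Finsupp.smul_apply, Finsupp.coe_tsub, Pi.sub_apply,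
      smul_eq_mul, topE_apply] at h5 ⊢
    have h4 : p ^ e * γ i ≤ p ^ e * μ i := Nat.mul_le_mul_left _ h1
    rw [Nat.mul_sub]
    omega
  · rw [if_neg h, if_neg (fun h' => h (hiff.1 h')), map_zero]

/-- The exact formula at finite level. -/
theorem span_mul_le_iff (e : ℕ) (hQ : 0 < p ^ e) {N : ℕ} {S : Set (MvPolynomial (Fin n) k)}
    (hS : ∀ F ∈ S, F.IsHomogeneous N) (B c : ℕ)
    (hc1 : N + B + n ≤ p ^ e * (c + n)) (hc2 : ∀ d, N + B + n ≤ p ^ e * (d + n) → c ≤ d)
    (K : Ideal (MvPolynomial (Fin n) k)) :
    Ideal.span S * idealOfVars (Fin n) k ^ B ≤ frobMap p e K ↔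
      rootSpan p e hQ S ⊓ idealOfVars (Fin n) k ^ c ≤ K := by
  classical
  constructor
  · intro h
    -- components of elements of the root ideal
    have key : ∀ G ∈ rootSpan p e hQ S, ∀ r : MvPolynomial (Fin n) k, ∀ d, c ≤ d →
        homogeneousComponent d (r * G) ∈ K := by
      intro G hG
      refine Submodule.span_induction (p := fun G _ => ∀ r : MvPolynomial (Fin n) k, ∀ d, c ≤ d →
        homogeneousComponent d (r * G) ∈ K) ?_ ?_ ?_ ?_ hG
      · rintro _ ⟨F, hF, α, hα, rfl⟩ r d hd
        induction r using MvPolynomial.induction_on' with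
        | add r1 r2 h1 h2 =>
          rw [add_mul, map_add]
          exact K.add_mem h1 h2
        | monomial γ c' =>
          by_cases hz : homogeneousComponent d (monomial γ c' * cart (root p k e) hQ α F) = 0
          · rw [hz]; exact K.zero_mem
          · -- the polynomial is homogeneous of degree d
            have hex : ∃ μ, coeff μ (homogeneousComponent d
                (monomial γ c' * cart (root p k e) hQ α F)) ≠ 0 := by
              by_contra hcon
              push Not at hcon
              exact hz (MvPolynomial.ext _ _ fun μ => by rw [hcon μ, coeff_zero])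
            obtain ⟨μ, hμ⟩ := hex
            rw [coeff_homogeneousComponent] at hμ
            have hμd : μ.degree = d := by
              by_contra hne
              rw [if_neg hne] at hμ
              exact hμ rfl
            rw [if_pos hμd, coeff_monomial_mul'] at hμ
            have hγμ : γ ≤ μ := by
              by_contra hne
              rw [if_neg hne] at hμ
              exact hμ rfl
            rw [if_pos hγμ] at hμ
            have hcoef : coeff (μ - γ) (cart (root p k e) hQ α F) ≠ 0 := right_ne_zero_of_mul hμ
            have hdeg := coeff_cart_degree hQ (hS F hF) hcoef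
            have hdeg2 : γ.degree + (μ - γ).degree = d := by
              rw [← map_add, add_tsub_cancel_of_le hγμ, hμd]
            have hhom : (monomial γ c' * cart (root p k e) hQ α F).IsHomogeneous d := by
              rw [← hdeg2]
              refine (isHomogeneous_monomial c' rfl).mul ?_
              intro ν hν
              have h3 := coeff_cart_degree hQ (hS F hF) hν
              have h4 : p ^ e * ν.degree = p ^ e * (μ - γ).degree := by omega
              have h5 := Nat.eq_of_mul_eq_mul_left hQ h4
              rw [← h5, Finsupp.degree_eq_weight_one]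
              rfl
            rw [homogeneousComponent_of_mem hhom, if_pos rfl]
            -- now it comes from an element of the product
            have hβ : B ≤ (p ^ e • γ + (topE n (p ^ e) - α)).degree := by
              have hle : α ≤ topE n (p ^ e) := by
                intro i
                rw [topE_apply]
                have := mem_boxF.1 hα i
                omega
              have h6 : (topE n (p ^ e) - α).degree + α.degree = n * (p ^ e - 1) := by
                rw [← map_add, tsub_add_cancel_of_le hle, degree_topE]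
              rw [map_add, map_nsmul, smul_eq_mul]
              have h7 : p ^ e * (c + n) ≤ p ^ e * (d + n) := Nat.mul_le_mul_left _ (by omega)
              have h8 : p ^ e * (d + n) = p ^ e * γ.degree + p ^ e * (μ - γ).degree + p ^ e * n := by
                rw [← hdeg2]; ring
              have h9 : p ^ e * n = n * (p ^ e - 1) + n := by
                have : 1 ≤ p ^ e := hQ
                obtain ⟨q, hq⟩ : ∃ q, p ^ e = q + 1 := ⟨p ^ e - 1, by omega⟩
                rw [hq, Nat.add_sub_cancel]; ring
              omega
            have hmem : F * monomial (p ^ e • γ + (topE n (p ^ e) - α)) (c' ^ p ^ e) ∈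
                Ideal.span S * idealOfVars (Fin n) k ^ B := by
              refine Ideal.mul_mem_mul (Ideal.subset_span hF) ?_
              rw [mem_pow_idealOfVars_iff']
              intro x hx
              rw [coeff_monomial, if_neg]
              rintro rfl
              omega
            have h10 := (mem_frobMap_iff e hQ _ K).1 (h hmem) _ (topE_mem (n := n) hQ)
            rw [mul_comm F, cart_top e hQ hα] at h10
            exact h10
      · intro r d _; simp
      · intro a b _ _ ha hb r d hd
        rw [mul_add, map_add]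
        exact K.add_mem (ha r d hd) (hb r d hd)
      · intro a b _ hb r d hd
        rw [smul_eq_mul, ← mul_assoc]
        exact hb _ d hd
    rintro G ⟨hG1, hG2⟩
    rw [← sum_homogeneousComponent G]
    refine Ideal.sum_mem _ fun d _ => ?_
    by_cases hd : c ≤ d
    · have := key G hG1 1 d hd
      rwa [one_mul] at this
    · have hz : homogeneousComponent d G = 0 := by
        ext μ
        rw [coeff_homogeneousComponent, coeff_zero]
        split_ifs with hμ
        · exact (mem_pow_idealOfVars_iff' _ _).1 hG2 μ (by omega)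
        · rfl
      rw [hz]; exact K.zero_mem
  · intro h
    rw [Ideal.mul_le]
    intro F hF G hG
    -- reduce to generators
    rw [mem_frobMap_iff e hQ]
    intro α hα
    refine h ⟨?_, ?_⟩
    · exact cart_mem_rootSpan e hQ (Ideal.mul_mem_right _ _ hF) hα
    · -- degree bound for arbitrary elements
      have hmon : ∀ F ∈ Ideal.span S, ∀ μ, coeff μ F ≠ 0 → N ≤ μ.degree := by
        have hle : Ideal.span S ≤ idealOfVars (Fin n) k ^ N := by
          rw [Ideal.span_le]
          intro F hF
          rw [SetLike.mem_coe, mem_pow_idealOfVars_iff']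
          intro x hx
          exact (hS F hF).coeff_eq_zero (by omega)
        intro F hF μ hμ
        by_contra hlt
        push Not at hlt
        exact hμ ((mem_pow_idealOfVars_iff' _ _).1 (hle hF) μ hlt)
      have hFG : F * G ∈ idealOfVars (Fin n) k ^ (N + B) := by
        rw [pow_add]
        refine Ideal.mul_mem_mul ?_ hG
        rw [mem_pow_idealOfVars_iff']
        intro x hx
        by_contra hne
        have := hmon F hF x hne
        omega
      rw [SetLike.mem_coe, mem_pow_idealOfVars_iff']
      intro x hx
      rw [coeff_cart]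
      have h0 : coeff (α + p ^ e • x) (F * G) = 0 := by
        apply (mem_pow_idealOfVars_iff' _ _).1 hFG
        rw [map_add, map_nsmul, smul_eq_mul]
        by_contra hge
        push Not at hge
        have h1 := degree_le_of_box hα
        have h9 : p ^ e * n = n * (p ^ e - 1) + n := by
          have : 1 ≤ p ^ e := hQ
          obtain ⟨q, hq⟩ : ∃ q, p ^ e = q + 1 := ⟨p ^ e - 1, by omega⟩
          rw [hq, Nat.add_sub_cancel]; ring
        have h2 := hc2 x.degree (by rw [mul_add]; omega)
        omega
      rw [h0, map_zero]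

end homog

end Pool.Agent.Lib.MP_71915d_ag
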