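import Pool.Agent.Lib.MP_71915d_ag.Poly

set_option autoImplicit false

namespace Pool.Agent.Lib.MP_71915d_ag

open MvPolynomial

section iter

variable {A : Type*} [CommRing A]

/-- the products `F_n = f ∏_{j<n} g_j^{(p-1)p^j}` -/
noncomputable def FF (p : ℕ) (z τ : ℕ → A) : ℕ → MvPolynomial (Fin 2) A
  | 0 => lin (z 0)
  | n + 1 => FF p z τ n * (cub (τ n) ^ (p - 1)) ^ p ^ n

variable {p : ℕ} [ExpChar A p]

theorem frobMap_mul_pow {R : Type*} [CommRing R] [ExpChar R p] {K K' : Ideal R} {G F : R} {n : ℕ}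
    (hG : ∀ k ∈ K, G * k ∈ frobMap p 1 K') (hF : F ∈ frobMap p n K) :
    F * G ^ p ^ n ∈ frobMap p (n + 1) K' := by
  have h1 : K * Ideal.span {G} ≤ frobMap p 1 K' := by
    rw [Ideal.mul_le]
    intro k hk s hs
    obtain ⟨c, rfl⟩ := Ideal.mem_span_singleton'.1 hs
    have := Ideal.mul_mem_left (frobMap p 1 K') c (hG k hk)
    have h2 : k * (c * G) = c * (G * k) := by ring
    rwa [h2]
  have h2 : frobMap p n (K * Ideal.span {G}) ≤ frobMap p (n + 1) K' := by
    have h3 : frobMap p n (frobMap p 1 K') = frobMap p (n + 1) K' := by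
      rw [frobMap_frobMap, add_comm]
    rw [← h3]
    exact Ideal.map_mono h1
  apply h2
  unfold frobMap
  rw [Ideal.map_mul, Ideal.map_span, Set.image_singleton, iterateFrobenius_def]
  exact Ideal.mul_mem_mul hF (Ideal.mem_span_singleton_self _)

theorem lin_mem (z : A) : lin z ∈ LL z := by
  unfold LL
  exact Ideal.mem_sup_left (Ideal.mem_span_singleton_self _)

theorem step_LL (hp : 2 ≤ p) {τ z z' : A} (hz : z' ^ p = z - τ + τ ^ p)
    {k : MvPolynomial (Fin 2) A} (hk : k ∈ LL z) :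
    cub τ ^ (p - 1) * k ∈ frobMap p 1 (LL z') := by
  have hM : frobMap p 1 (M2 A) ≤ frobMap p 1 (LL z') := Ideal.map_mono le_sup_right
  obtain ⟨m, hm, heq⟩ := step1 hp hz
  unfold LL at hk
  obtain ⟨a, ha, b, hb, rfl⟩ := Submodule.mem_sup.1 hk
  obtain ⟨c, rfl⟩ := Ideal.mem_span_singleton'.1 ha
  rw [mul_add]
  refine Ideal.add_mem _ ?_ (hM (step2 hp τ hb))
  have h1 : cub τ ^ (p - 1) * (c * lin z) = c * (cub τ ^ (p - 1) * lin z) := by ring
  rw [h1, heq]
  refine Ideal.mul_mem_left _ _ (Ideal.add_mem _ (Ideal.mul_mem_right _ _ ?_) (hM hm))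
  have := pow_mem_frobMap (p := p) (lin_mem z') 1
  rwa [pow_one] at this

theorem FF_mem (hp : 2 ≤ p) (z τ : ℕ → A) (hz : ∀ n, z (n + 1) ^ p = z n - τ n + τ n ^ p)
    (n : ℕ) : FF p z τ n ∈ frobMap p n (LL (z n)) := by
  induction n with
  | zero =>
    unfold frobMap
    rw [iterateFrobenius_zero, Ideal.map_id]
    exact lin_mem _
  | succ n ih => exact frobMap_mul_pow (fun k hk => step_LL hp (hz n) hk) ih

theorem exists_cart (hp : 2 ≤ p) (κ : A →+ A) (hκ : IsCart p 1 κ) (h1 : κ 1 = 1) (z τ : ℕ → A)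
    (hz : ∀ n, z (n + 1) ^ p = z n - τ n + τ n ^ p) (n : ℕ) :
    ∃ D : MvPolynomial (Fin 2) A →+ MvPolynomial (Fin 2) A, IsCart p n D ∧
      D (FF p z τ n) - lin (z n) ∈ M2 A := by
  have hQ : 0 < p ^ 1 := by rw [pow_one]; omega
  induction n with
  | zero =>
    refine ⟨AddMonoidHom.id _, fun r s => by simp, ?_⟩
    simp only [AddMonoidHom.id_apply, FF, sub_self]
    exact zero_mem _
  | succ n ih =>
    obtain ⟨D, hD, hm⟩ := ih
    set E := cart κ hQ (ex (p - 1) (p - 1)) with hE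
    have hEc : IsCart p 1 E := by
      refine isCart_cart κ hκ hQ _ ?_
      intro i
      rw [pow_one]
      fin_cases i
      · change ex (p - 1) (p - 1) 0 < p
        rw [ex_zero]; omega
      · change ex (p - 1) (p - 1) 1 < p
        rw [ex_one]; omega
    refine ⟨E.comp D, ?_, ?_⟩
    · have := hD.comp hEc
      rwa [add_comm] at this
    · obtain ⟨m, hm', heq⟩ := step1 hp (hz n)
      simp only [AddMonoidHom.comp_apply, FF]
      rw [mul_comm, hD]
      have h2 : cub (τ n) ^ (p - 1) * D (FF p z τ n) =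
          cub (τ n) ^ (p - 1) * lin (z n) + cub (τ n) ^ (p - 1) * (D (FF p z τ n) - lin (z n)) := by
        ring
      rw [h2, map_add, heq, map_add]
      have h3 : E (lin (z (n + 1)) ^ p * (lin (τ n) * yy) ^ (p - 1)) = lin (z (n + 1)) := by
        have := hEc (lin (z (n + 1))) ((lin (τ n) * yy) ^ (p - 1))
        rw [pow_one] at this
        rw [this, step3 hp κ h1 hQ, mul_one]
      rw [h3]
      have h4 : E m ∈ M2 A := hEc.mem hm'
      have h5 : E (cub (τ n) ^ (p - 1) * (D (FF p z τ n) - lin (z n))) ∈ M2 A :=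
        hEc.mem (step2 hp _ hm)
      have h6 := Ideal.add_mem _ h4 h5
      convert h6 using 1
      ring

/-- the polynomial `f g` has coefficient `1` at `x^3 y` -/
theorem cart_two (κ : A →+ A) (h1 : κ 1 = 1) {Q : ℕ} (hQ : 0 < Q) (z : A) :
    cart κ hQ (ex 3 1) (lin z * cub 0) = 1 := by
  have h0 : (cub 0 : MvPolynomial (Fin 2) A) = xx * yy * (xx + yy) := by
    unfold cub lin; simp
  have hd : (lin z * cub 0 : MvPolynomial (Fin 2) A).totalDegree ≤ 4 := by
    unfold cub
    refine (totalDegree_mul _ _).trans ?_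
    have ha := totalDegree_lin_le z
    have hb : (lin (0 : A) * yy * (lin 0 + yy)).totalDegree ≤ 3 := by
      refine (totalDegree_mul _ _).trans ?_
      have h2 : (lin (0 : A) * yy).totalDegree ≤ 2 :=
        (totalDegree_mul _ _).trans (add_le_add (totalDegree_lin_le 0) totalDegree_yy_le)
      have h3 : (lin (0 : A) + yy).totalDegree ≤ 1 :=
        (totalDegree_add _ _).trans (max_le (totalDegree_lin_le 0) totalDegree_yy_le)
      omega
    omega
  rw [cart_of_degree_lt]
  · have : (lin z * cub 0 : MvPolynomial (Fin 2) A) =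
        xx ^ 3 * yy ^ 1 + yy ^ (1 + 1) * (xx ^ 2 + C z * xx ^ 2 + C z * xx * yy) := by
      rw [h0]; unfold lin; ring
    rw [this, coeff_top, h1, C_1]
  · rw [degree_ex]; omega

/-- the polynomial `f g_0 g_1` has coefficient `1` at `x^5 y^2` -/
theorem cart_three (κ : A →+ A) (h1 : κ 1 = 1) {Q : ℕ} (hQ : 0 < Q) (z τ : A) :
    cart κ hQ (ex 5 2) (lin z * cub 0 * cub τ) = 1 := by
  have h0 : (cub 0 : MvPolynomial (Fin 2) A) = xx * yy * (xx + yy) := by
    unfold cub lin; simp
  have hc : ∀ σ : A, (cub σ).totalDegree ≤ 3 := by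
    intro σ
    unfold cub
    refine (totalDegree_mul _ _).trans ?_
    have h2 : (lin σ * yy).totalDegree ≤ 2 :=
      (totalDegree_mul _ _).trans (add_le_add (totalDegree_lin_le σ) totalDegree_yy_le)
    have h3 : (lin σ + yy).totalDegree ≤ 1 :=
      (totalDegree_add _ _).trans (max_le (totalDegree_lin_le σ) totalDegree_yy_le)
    omega
  have hd : (lin z * cub 0 * cub τ : MvPolynomial (Fin 2) A).totalDegree ≤ 7 := by
    refine (totalDegree_mul _ _).trans ?_
    have h2 := totalDegree_mul (lin z) (cub (0 : A))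
    have ha := totalDegree_lin_le z
    have hb := hc 0
    have hb' := hc τ
    omega
  rw [cart_of_degree_lt]
  · obtain ⟨r, hr⟩ : ∃ r, (lin z * cub 0 * cub τ : MvPolynomial (Fin 2) A) =
        xx ^ 5 * yy ^ 2 + yy ^ (2 + 1) * r := by
      refine ⟨xx ^ 4 + C z * xx ^ 4 + C z * xx ^ 3 * yy + xx ^ 2 * (xx + C z * yy) * (xx + yy) *
        (2 * C τ * 1 + C τ * (C τ * yy) * 0) * 1 + (xx + C z * yy) * xx * (xx + yy) *
        (xx + C τ ^ 2 * yy + C τ * yy), ?_⟩
      rw [h0]; unfold cub lin; ring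
    rw [hr, coeff_top, h1, C_1]
  · rw [degree_ex]; omega

end iter

end Pool.Agent.Lib.MP_71915d_ag
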