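import Pool.Agent.Lib.MP_71915d_ag.Formula

set_option autoImplicit false

namespace Pool.Agent.Lib.MP_71915d_ag

open MvPolynomial
open scoped Pointwise

section jump

variable {p : ℕ} {k : Type*} [Field k] [ExpChar k p] [PerfectRing k p] {n : ℕ}

theorem TT_le_iff (hp : 0 < p) {r : ℕ} (I : Fin r → Ideal (MvPolynomial (Fin n) k))
    (x : Fin r → ℝ) (e : ℕ) (K : Ideal (MvPolynomial (Fin n) k)) :
    TT p I x e ≤ K ↔ JJ p I x e ≤ frobMap p e K := by
  have hQ : 0 < p ^ e := Nat.pow_pos hp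
  have hJ : JJ p I x e = Ideal.span (JJ p I x e : Set (MvPolynomial (Fin n) k)) :=
    (Ideal.span_eq _).symm
  constructor
  · intro h
    unfold TT at h
    rw [hJ, sInf_eq_rootSpan e hQ] at h
    rw [hJ]
    exact (le_frobMap_iff e hQ _ K).2 h
  · intro h
    exact sInf_le h

/-- the test ideal of one ideal -/
noncomputable def tau (p : ℕ) {k : Type*} [Field k] [ExpChar k p] {n : ℕ}
    (I : Ideal (MvPolynomial (Fin n) k)) (a : ℝ) : Ideal (MvPolynomial (Fin n) k) :=
  mixedTestIdeal p (fun _ : Fin 1 => I) (fun _ => a)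

omit [PerfectRing k p] in
theorem JJ_one (I : Ideal (MvPolynomial (Fin n) k)) (a : ℝ) (e : ℕ) :
    JJ p (fun _ : Fin 1 => I) (fun _ => a) e = I ^ ⌈a * (p : ℝ) ^ e⌉₊ := by
  simp [JJ]

theorem tau_le_iff (hp : 0 < p) (I : Ideal (MvPolynomial (Fin n) k)) (a : ℝ)
    (K : Ideal (MvPolynomial (Fin n) k)) :
    tau p I a ≤ K ↔ ∀ e, I ^ ⌈a * (p : ℝ) ^ e⌉₊ ≤ frobMap p e K := by
  unfold tau
  rw [mixed_eq, iSup_le_iff]
  refine forall_congr' fun e => ?_
  rw [TT_le_iff hp, JJ_one]

omit [PerfectRing k p] in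
theorem tau_anti (I : Ideal (MvPolynomial (Fin n) k)) {a b : ℝ} (h : a ≤ b) :
    tau p I b ≤ tau p I a := mixed_anti _ fun _ => h

/-- stabilisation -/
theorem tau_eq_TT (hp : 0 < p) (I : Ideal (MvPolynomial (Fin n) k)) (a : ℝ) :
    ∃ N, tau p I a = TT p (fun _ : Fin 1 => I) (fun _ => a) N := by
  have hmono := TT_monotone (p := p) hp (fun _ : Fin 1 => I) (fun _ => a)
  obtain ⟨N, hN⟩ := (monotone_stabilizes_iff_noetherian (R := MvPolynomial (Fin n) k)
    (M := MvPolynomial (Fin n) k)).2 inferInstance ⟨_, hmono⟩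
  refine ⟨N, ?_⟩
  unfold tau
  rw [mixed_eq]
  apply le_antisymm
  · refine iSup_le fun e => ?_
    refine (hmono (le_max_left e N)).trans ?_
    exact (hN (max e N) (le_max_right _ _)).ge
  · exact le_iSup (TT p (fun _ : Fin 1 => I) (fun _ => a)) N

/-- a nonzero ideal has a unit root for large `e` -/
theorem exists_unit_root (hp : 2 ≤ p) {I : Ideal (MvPolynomial (Fin n) k)} (hI : I ≠ ⊥) :
    ∃ F ∈ I, ∃ e, ∃ D : MvPolynomial (Fin n) k →+ MvPolynomial (Fin n) k,
      IsCart p e D ∧ ∃ u : k, u ≠ 0 ∧ D F = C u := by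
  obtain ⟨F, hF, hF0⟩ := Submodule.exists_mem_ne_zero_of_ne_bot hI
  have hp0 : 0 < p := by omega
  obtain ⟨α, hα⟩ : ∃ α, coeff α F ≠ 0 := by
    by_contra hcon
    push Not at hcon
    exact hF0 (MvPolynomial.ext _ _ fun μ => by rw [hcon μ, coeff_zero])
  have h1 : F.totalDegree < p ^ (F.totalDegree) := Nat.lt_pow_self (by omega)
  set e := F.totalDegree with he
  have hQ : 0 < p ^ e := Nat.pow_pos hp0
  have hdeg : α.degree ≤ F.totalDegree := by
    by_contra hlt
    push Not at hlt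
    apply hα
    apply coeff_eq_zero_of_totalDegree_lt
    rwa [← Finsupp.degree_apply]
  have hbox : ∀ i, α i < p ^ e := by
    intro i
    refine lt_of_le_of_lt ?_ h1
    refine le_trans ?_ hdeg
    rw [Finsupp.degree_eq_sum]
    exact Finset.single_le_sum (f := fun j => α j) (fun _ _ => Nat.zero_le _) (Finset.mem_univ i)
  refine ⟨F, hF, e, cart (root p k e) hQ α, isCart_cart _ (isCart_root e) hQ α hbox,
    root p k e (coeff α F), ?_, ?_⟩
  · intro h
    apply hα
    rw [← root_pow (p := p) e (coeff α F), h, zero_pow hQ.ne']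
  · exact cart_of_degree_lt hQ α F (by omega)

/-- right constancy -/
theorem right_const (hp : 2 ≤ p) {I : Ideal (MvPolynomial (Fin n) k)} (hI : I ≠ ⊥) {a : ℝ}
    (ha : 0 ≤ a) : ∃ δ > 0, ∀ b, a ≤ b → b ≤ a + δ → tau p I b = tau p I a := by
  have hp0 : 0 < p := by omega
  have hpR : (0 : ℝ) < p := by exact_mod_cast hp0
  obtain ⟨N, hN⟩ := tau_eq_TT (p := p) hp0 I a
  obtain ⟨F, hF, e, D, hD, u, hu, hDF⟩ := exists_unit_root (p := p) hp hI
  refine ⟨1 / (p : ℝ) ^ (N + e), by positivity, fun b hab hb => ?_⟩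
  apply le_antisymm (tau_anti I hab)
  rw [hN, TT_le_iff hp0, JJ_one]
  intro G hG
  have h1 := (tau_le_iff hp0 I b (tau p I b)).1 le_rfl (N + e)
  have h2 : ⌈b * (p : ℝ) ^ (N + e)⌉₊ ≤ ⌈a * (p : ℝ) ^ N⌉₊ * p ^ e + 1 := by
    rw [Nat.ceil_le]
    push_cast
    have h3 : a * (p : ℝ) ^ N ≤ (⌈a * (p : ℝ) ^ N⌉₊ : ℝ) := Nat.le_ceil _
    have h4 : b * (p : ℝ) ^ (N + e) ≤ (a + 1 / (p : ℝ) ^ (N + e)) * (p : ℝ) ^ (N + e) :=
      mul_le_mul_of_nonneg_right hb (by positivity)
    have h5 : (a + 1 / (p : ℝ) ^ (N + e)) * (p : ℝ) ^ (N + e) =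
        a * (p : ℝ) ^ N * (p : ℝ) ^ e + 1 := by
      rw [pow_add]; field_simp
    rw [h5] at h4
    have h6 := mul_le_mul_of_nonneg_right h3 (by positivity : (0 : ℝ) ≤ (p : ℝ) ^ e)
    linarith
  have h3 : G ^ p ^ e * F ∈ I ^ ⌈b * (p : ℝ) ^ (N + e)⌉₊ := by
    apply Ideal.pow_le_pow_right h2
    rw [pow_add, pow_one, pow_mul]
    exact Ideal.mul_mem_mul (Ideal.pow_mem_pow hG _) hF
  have h4 := h1 h3
  rw [← frobMap_frobMap] at h4
  have h5 := hD.mem h4
  rw [hD, hDF] at h5
  have h6 : G = G * C u * C u⁻¹ := by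
    rw [mul_assoc, ← C_mul, mul_inv_cancel₀ hu, C_1, mul_one]
  rw [h6]
  exact Ideal.mul_mem_right _ _ h5

/-- multiplication by `p` -/
theorem tau_mul_p (hp : 0 < p) (I : Ideal (MvPolynomial (Fin n) k)) (a : ℝ)
    (K : Ideal (MvPolynomial (Fin n) k)) :
    tau p I (a * p) ≤ frobMap p 1 K ↔ tau p I a ≤ K := by
  rw [tau_le_iff hp]
  have h1 : ∀ e, (I ^ ⌈a * (p : ℝ) * (p : ℝ) ^ e⌉₊ ≤ frobMap p e (frobMap p 1 K)) ↔
      I ^ ⌈a * (p : ℝ) ^ (e + 1)⌉₊ ≤ frobMap p (e + 1) K := by
    intro e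
    rw [frobMap_frobMap, add_comm 1 e, pow_succ, mul_assoc, mul_comm (p : ℝ)]
  constructor
  · intro h
    unfold tau
    rw [mixed_eq]
    refine iSup_le fun e => ?_
    refine (TT_monotone hp _ _ (Nat.le_succ e)).trans ?_
    rw [TT_le_iff hp, JJ_one]
    exact (h1 e).1 (h e)
  · intro h e
    rw [h1]
    exact (tau_le_iff hp I a K).1 h (e + 1)

theorem tau_eq_of_mul_p (hp : 0 < p) (I : Ideal (MvPolynomial (Fin n) k)) {a b : ℝ}
    (h : tau p I (a * p) = tau p I (b * p)) : tau p I a = tau p I b := by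
  apply le_antisymm
  · rw [← tau_mul_p hp, h, tau_mul_p hp]
  · rw [← tau_mul_p hp, ← h, tau_mul_p hp]

/-- pigeonhole for powers of a finitely generated ideal -/
theorem pow_le_frobMap_mul (e : ℕ) (hQ : 0 < p ^ e) (I : Ideal (MvPolynomial (Fin n) k))
    (s : Finset (MvPolynomial (Fin n) k)) (hs : (s : Set (MvPolynomial (Fin n) k)) ⊆ I) (m : ℕ)
    (hm : p ^ e ≤ m) (hm2 : s.card * (p ^ e - 1) + 1 ≤ m) :
    Ideal.span (s : Set (MvPolynomial (Fin n) k)) ^ m ≤ frobMap p e I * I ^ (m - p ^ e) := by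
  classical
  have main : ∀ (s : Finset (MvPolynomial (Fin n) k)),
      (s : Set (MvPolynomial (Fin n) k)) ⊆ I → ∀ j l : ℕ, s.card * (p ^ e - 1) + 1 ≤ l →
      p ^ e ≤ j + l →
      I ^ j * Ideal.span (s : Set (MvPolynomial (Fin n) k)) ^ l ≤
        frobMap p e I * I ^ (j + l - p ^ e) := by
    intro s
    induction s using Finset.induction_on with
    | empty =>
      intro _ j l hl _
      have : l ≠ 0 := by omega
      rw [Finset.coe_empty, Ideal.span_empty, Ideal.bot_pow this]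
      simp
    | insert g s hg ih =>
      intro hsub j l hl hjl
      have hgI : g ∈ I := hsub (by simp)
      have hsI : (s : Set (MvPolynomial (Fin n) k)) ⊆ I := by
        intro x hx
        exact hsub (by simp [hx])
      have hsp : Ideal.span (s : Set (MvPolynomial (Fin n) k)) ≤ I := Ideal.span_le.2 hsI
      rw [Finset.coe_insert, Ideal.span_insert, ← Ideal.add_eq_sup, add_pow, Finset.mul_sum]
      rw [Finset.card_insert_of_notMem hg] at hl
      rw [Ideal.sum_eq_sup]
      refine Finset.sup_le fun i hi => ?_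
      rw [Finset.mem_range] at hi
      have hterm : I ^ j * (Ideal.span {g} ^ i * Ideal.span (s : Set (MvPolynomial (Fin n) k)) ^
          (l - i) * (l.choose i : Ideal (MvPolynomial (Fin n) k))) ≤
          I ^ j * (Ideal.span {g} ^ i * Ideal.span (s : Set (MvPolynomial (Fin n) k)) ^ (l - i)) :=
        Ideal.mul_mono le_rfl Ideal.mul_le_left
      refine hterm.trans ?_
      by_cases hi2 : p ^ e ≤ i
      · have h1 : Ideal.span {g} ^ i ≤ frobMap p e I * I ^ (i - p ^ e) := by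
          have : i = p ^ e + (i - p ^ e) := by omega
          conv_lhs => rw [this, pow_add]
          refine Ideal.mul_mono ?_ (Ideal.pow_right_mono ?_ _)
          · rw [Ideal.span_singleton_pow, Ideal.span_singleton_le_iff_mem]
            exact pow_mem_frobMap hgI e
          · rwa [Ideal.span_singleton_le_iff_mem]
        calc I ^ j * (Ideal.span {g} ^ i * Ideal.span (s : Set (MvPolynomial (Fin n) k)) ^ (l - i))
            ≤ I ^ j * (frobMap p e I * I ^ (i - p ^ e) * I ^ (l - i)) :=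
              Ideal.mul_mono le_rfl (Ideal.mul_mono h1 (Ideal.pow_right_mono hsp _))
          _ = frobMap p e I * (I ^ j * I ^ (i - p ^ e) * I ^ (l - i)) := by ring
          _ = frobMap p e I * I ^ (j + l - p ^ e) := by
              rw [← pow_add, ← pow_add]
              congr 2
              omega
      · push Not at hi2
        have h1 : Ideal.span {g} ^ i ≤ I ^ i :=
          Ideal.pow_right_mono (by rwa [Ideal.span_singleton_le_iff_mem]) _
        have h2 : (s.card + 1) * (p ^ e - 1) = s.card * (p ^ e - 1) + (p ^ e - 1) := by ring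
        calc I ^ j * (Ideal.span {g} ^ i * Ideal.span (s : Set (MvPolynomial (Fin n) k)) ^ (l - i))
            ≤ I ^ j * (I ^ i * Ideal.span (s : Set (MvPolynomial (Fin n) k)) ^ (l - i)) :=
              Ideal.mul_mono le_rfl (Ideal.mul_mono h1 le_rfl)
          _ = I ^ (j + i) * Ideal.span (s : Set (MvPolynomial (Fin n) k)) ^ (l - i) := by
              rw [pow_add]; ring
          _ ≤ frobMap p e I * I ^ (j + i + (l - i) - p ^ e) :=
              ih hsI (j + i) (l - i) (by omega) (by omega)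
          _ = frobMap p e I * I ^ (j + l - p ^ e) := by
              congr 2
              omega
  have := main s hs 0 m hm2 (by omega)
  simpa using this

end jump

end Pool.Agent.Lib.MP_71915d_ag
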