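import Pool.Agent.Lib.MP_71915d_ag.Jump

set_option autoImplicit false

namespace Pool.Agent.Lib.MP_71915d_ag

open MvPolynomial
open scoped Pointwise

section jump2

variable {p : ℕ} {k : Type*} [Field k] [ExpChar k p] [PerfectRing k p] {n : ℕ}

/-- the colon-free form of Skoda's step: `(I^{[q]} J)^{[1/q]} = I J^{[1/q]}` -/
theorem frobMap_mul_le_iff (e : ℕ) (hQ : 0 < p ^ e) (I J K : Ideal (MvPolynomial (Fin n) k)) :
    frobMap p e I * J ≤ frobMap p e K ↔
      I * rootSpan p e hQ (J : Set (MvPolynomial (Fin n) k)) ≤ K := by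
  constructor
  · intro h
    rw [Ideal.mul_le]
    intro g hg G hG
    refine Submodule.span_induction (p := fun G _ => g * G ∈ K) ?_ ?_ ?_ ?_ hG
    · rintro _ ⟨F, hF, α, hα, rfl⟩
      have h1 : g ^ p ^ e * F ∈ frobMap p e K := h (Ideal.mul_mem_mul (pow_mem_frobMap hg e) hF)
      have h2 := (mem_frobMap_iff e hQ _ K).1 h1 α hα
      rwa [isCart_cart _ (isCart_root e) hQ α (mem_boxF.1 hα)] at h2
    · simp
    · intro a b _ _ ha hb
      rw [mul_add]
      exact K.add_mem ha hb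
    · intro a b _ hb
      rw [smul_eq_mul, mul_left_comm]
      exact K.mul_mem_left _ hb
  · intro h
    have h1 : frobMap p e (I * rootSpan p e hQ (J : Set (MvPolynomial (Fin n) k))) ≤
        frobMap p e K := Ideal.map_mono h
    refine le_trans ?_ h1
    unfold frobMap
    rw [Ideal.map_mul]
    refine Ideal.mul_mono le_rfl ?_
    have h2 := (le_frobMap_iff e hQ (J : Set (MvPolynomial (Fin n) k)) _).2 le_rfl
    rwa [Ideal.span_eq] at h2

theorem TT_eq_rootSpan (e : ℕ) (hQ : 0 < p ^ e) (I : Ideal (MvPolynomial (Fin n) k)) (a : ℝ) :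
    TT p (fun _ : Fin 1 => I) (fun _ => a) e =
      rootSpan p e hQ ((I ^ ⌈a * (p : ℝ) ^ e⌉₊ : Ideal (MvPolynomial (Fin n) k)) :
        Set (MvPolynomial (Fin n) k)) := by
  rw [← sInf_eq_rootSpan, Ideal.span_eq]
  unfold TT
  rw [JJ_one]

/-- Skoda's theorem -/
theorem skoda (hp : 0 < p) (I : Ideal (MvPolynomial (Fin n) k))
    (s : Finset (MvPolynomial (Fin n) k)) (hs : Ideal.span (s : Set (MvPolynomial (Fin n) k)) = I)
    {a : ℝ} (ha : (s.card : ℝ) ≤ a) (ha1 : 1 ≤ a) : tau p I a = I * tau p I (a - 1) := by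
  have hsub : (s : Set (MvPolynomial (Fin n) k)) ⊆ I := by
    rw [← hs]; exact Ideal.subset_span
  unfold tau
  rw [mixed_eq, mixed_eq, Ideal.mul_iSup]
  refine iSup_congr fun e => ?_
  have hQ : 0 < p ^ e := Nat.pow_pos hp
  have hQR : (0 : ℝ) < (p : ℝ) ^ e := by
    have : (0 : ℝ) < p := by exact_mod_cast hp
    positivity
  set m := ⌈a * (p : ℝ) ^ e⌉₊ with hm
  have hm1 : p ^ e ≤ m := by
    have h1 : (p : ℝ) ^ e ≤ a * (p : ℝ) ^ e := by nlinarith
    have h2 : ((p ^ e : ℕ) : ℝ) ≤ m := by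
      push_cast
      exact h1.trans (Nat.le_ceil _)
    exact_mod_cast h2
  have hm2 : s.card * p ^ e ≤ m := by
    have h1 : (s.card : ℝ) * (p : ℝ) ^ e ≤ a * (p : ℝ) ^ e := mul_le_mul_of_nonneg_right ha hQR.le
    have h2 : ((s.card * p ^ e : ℕ) : ℝ) ≤ m := by
      push_cast
      exact h1.trans (Nat.le_ceil _)
    exact_mod_cast h2
  have hm3 : s.card * (p ^ e - 1) + 1 ≤ m := by
    rcases Nat.eq_zero_or_pos s.card with h0 | h0
    · rw [h0]; omega
    · have h4 : s.card * p ^ e = s.card * (p ^ e - 1) + s.card := by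
        obtain ⟨q, hq⟩ : ∃ q, p ^ e = q + 1 := ⟨p ^ e - 1, by omega⟩
        rw [hq, Nat.add_sub_cancel]; ring
      omega
  have hm4 : ⌈(a - 1) * (p : ℝ) ^ e⌉₊ = m - p ^ e := by
    have h1 : (a - 1) * (p : ℝ) ^ e = a * (p : ℝ) ^ e - ((p ^ e : ℕ) : ℝ) := by
      push_cast; ring
    rw [h1, Nat.ceil_sub_natCast]
  have hpow : I ^ m = frobMap p e I * I ^ (m - p ^ e) := by
    apply le_antisymm
    · have := pow_le_frobMap_mul e hQ I s hsub m hm1 hm3
      rwa [hs] at this
    · have h1 : frobMap p e I ≤ I ^ p ^ e := by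
        unfold frobMap
        rw [Ideal.map_le_iff_le_comap]
        intro x hx
        rw [Ideal.mem_comap, iterateFrobenius_def]
        exact Ideal.pow_mem_pow hx _
      have h2 : m = p ^ e + (m - p ^ e) := by omega
      conv_rhs => rw [h2, pow_add]
      exact Ideal.mul_mono h1 le_rfl
  -- compare both sides
  apply le_antisymm
  · rw [TT_le_iff hp, JJ_one, ← hm, hpow, frobMap_mul_le_iff e hQ, TT_eq_rootSpan e hQ, hm4]
  · rw [TT_eq_rootSpan e hQ I (a - 1), hm4, ← frobMap_mul_le_iff e hQ, ← hpow]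
    have h3 := (TT_le_iff (p := p) hp (fun _ : Fin 1 => I) (fun _ => a) e _).1 le_rfl
    rwa [JJ_one, ← hm] at h3

/-- jumping numbers -/
def Jump (p : ℕ) {k : Type*} [Field k] [ExpChar k p] {n : ℕ}
    (I : Ideal (MvPolynomial (Fin n) k)) (c : ℝ) : Prop :=
  0 < c ∧ ∀ b, 0 ≤ b → b < c → tau p I b ≠ tau p I c

theorem Jump.mul_p (hp : 0 < p) {I : Ideal (MvPolynomial (Fin n) k)} {c : ℝ}
    (h : Jump p I c) : Jump p I (c * p) := by
  have hpR : (0 : ℝ) < p := by exact_mod_cast hp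
  refine ⟨mul_pos h.1 hpR, fun b hb0 hb heq => ?_⟩
  refine h.2 (b / p) (by positivity) ?_ ?_
  · rw [div_lt_iff₀ hpR]; exact hb
  · apply tau_eq_of_mul_p hp
    rwa [div_mul_cancel₀ _ hpR.ne']

theorem Jump.mul_pow (hp : 0 < p) {I : Ideal (MvPolynomial (Fin n) k)} {c : ℝ}
    (h : Jump p I c) (e : ℕ) : Jump p I (c * (p : ℝ) ^ e) := by
  induction e with
  | zero => simpa using h
  | succ e ih =>
    have := ih.mul_p hp
    rwa [mul_assoc, ← pow_succ] at this

theorem Jump.sub_one (hp : 0 < p) {I : Ideal (MvPolynomial (Fin n) k)}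
    {s : Finset (MvPolynomial (Fin n) k)} (hs : Ideal.span (s : Set (MvPolynomial (Fin n) k)) = I)
    {c : ℝ} (h : Jump p I c) (hc : (s.card : ℝ) + 1 < c) : Jump p I (c - 1) := by
  have hcard : (0 : ℝ) ≤ s.card := by positivity
  refine ⟨by linarith, fun b hb0 hb heq => ?_⟩
  -- move b up
  set b' := max b (s.card : ℝ) with hb'
  have h1 : tau p I b' = tau p I (c - 1) := by
    apply le_antisymm
    · rw [← heq]
      exact tau_anti I (le_max_left _ _)
    · exact tau_anti I (max_le hb.le (by linarith))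
  have h2 : b' < c - 1 := max_lt hb (by linarith)
  have hb'1 : (s.card : ℝ) ≤ b' := le_max_right _ _
  refine h.2 (b' + 1) (by linarith) (by linarith) ?_
  rw [skoda hp I s hs (a := b' + 1) (by linarith) (by linarith),
    skoda hp I s hs (a := c) (by linarith) (by linarith)]
  rw [show b' + 1 - 1 = b' by ring, h1]

theorem Jump.sub_nat (hp : 0 < p) {I : Ideal (MvPolynomial (Fin n) k)}
    {s : Finset (MvPolynomial (Fin n) k)} (hs : Ideal.span (s : Set (MvPolynomial (Fin n) k)) = I)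
    {c : ℝ} (h : Jump p I c) (m : ℕ) (hc : (s.card : ℝ) + m < c) : Jump p I (c - m) := by
  induction m with
  | zero => simpa using h
  | succ m ih =>
    push_cast at hc ⊢
    have h1 := ih (by linarith)
    have := h1.sub_one hp hs (by linarith)
    rwa [sub_sub] at this

/-- the set of values on a bounded interval is finite -/
theorem finite_tau (hp : 0 < p) (I : Ideal (MvPolynomial (Fin n) k)) (M : ℝ) :
    {J | ∃ a, 0 ≤ a ∧ a ≤ M ∧ J = tau p I a}.Finite := by
  classical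
  obtain ⟨S, hS⟩ := IsNoetherian.noetherian I
  set D := S.sup totalDegree with hD
  have hgen : Gen (⊤ : Subring k) D I :=
    ⟨S, fun F hF => ⟨Finset.le_sup (f := totalDegree) hF, fun m => Subring.mem_top _⟩, hS.symm⟩
  set E := ∑ _i : Fin 1, D * ⌈M⌉₊ with hE
  have hmem : ∀ a, 0 ≤ a → a ≤ M → Gen (⊤ : Subring k) E (tau p I a) := by
    intro a h0 h1
    exact mixed_gen hp (fun e x _ => Subring.mem_top _) (fun _ : Fin 1 => I) (fun _ => D)
      (fun _ => hgen) (M := M) (fun _ => ⟨h0, h1⟩)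
  let V := restrictTotalDegree (Fin n) k E
  let W : Ideal (MvPolynomial (Fin n) k) → Submodule k V := fun J =>
    (J.restrictScalars k).comap V.subtype
  have hW : ∀ a, 0 ≤ a → a ≤ M → ∀ b, 0 ≤ b → b ≤ M → a ≤ b →
      Module.finrank k (W (tau p I a)) = Module.finrank k (W (tau p I b)) →
      tau p I a = tau p I b := by
    intro a ha0 ha1 b hb0 hb1 hab hfr
    apply le_antisymm _ (tau_anti I hab)
    have h1 : W (tau p I b) ≤ W (tau p I a) := by
      intro x hx
      exact tau_anti I hab hx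
    have h2 : W (tau p I b) = W (tau p I a) := Submodule.eq_of_le_of_finrank_eq h1 hfr.symm
    obtain ⟨S', hS', hJ⟩ := hmem a ha0 ha1
    rw [hJ, Ideal.span_le]
    intro F hF
    have hFV : F ∈ V := (mem_restrictTotalDegree _ _ _).2 (hS' hF).1
    have h3 : (⟨F, hFV⟩ : V) ∈ W (tau p I a) := by
      change F ∈ tau p I a
      rw [hJ]
      exact Ideal.subset_span hF
    rw [← h2] at h3
    exact h3
  refine Set.Finite.of_finite_image (f := fun J => Module.finrank k (W J)) ?_ ?_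
  · refine (Set.finite_Iic (Module.finrank k V)).subset ?_
    rintro _ ⟨J, _, rfl⟩
    exact Submodule.finrank_le _
  · rintro _ ⟨a, ha0, ha1, rfl⟩ _ ⟨b, hb0, hb1, rfl⟩ h
    rcases le_total a b with hab | hab
    · exact hW a ha0 ha1 b hb0 hb1 hab h
    · exact (hW b hb0 hb1 a ha0 ha1 hab h.symm).symm

theorem finite_jumps (hp : 0 < p) (I : Ideal (MvPolynomial (Fin n) k)) (M : ℝ) :
    {c | c ≤ M ∧ Jump p I c}.Finite := by
  refine Set.Finite.of_finite_image (f := tau p I) ?_ ?_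
  · refine (finite_tau hp I M).subset ?_
    rintro _ ⟨c, ⟨h1, h2⟩, rfl⟩
    exact ⟨c, h2.1.le, h1, rfl⟩
  · rintro c ⟨_, h2⟩ c' ⟨_, h2'⟩ h
    rcases lt_trichotomy c c' with hlt | heq | hgt
    · exact absurd h (h2'.2 c h2.1.le hlt)
    · exact heq
    · exact absurd h.symm (h2.2 c' h2'.1.le hgt)

/-- jumping numbers are rational -/
theorem Jump.rational (hp : 2 ≤ p) {I : Ideal (MvPolynomial (Fin n) k)} {c : ℝ}
    (h : Jump p I c) : ∃ q : ℚ, (q : ℝ) = c := by
  have hp0 : 0 < p := by omega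
  have hpR : (1 : ℝ) < p := by exact_mod_cast (by omega : 1 < p)
  obtain ⟨s, hs⟩ := IsNoetherian.noetherian I
  have hs' : Ideal.span (s : Set (MvPolynomial (Fin n) k)) = I := hs
  set μ : ℝ := (s.card : ℝ) with hμ
  -- choose shifts
  have hshift : ∀ e : ℕ, ∃ m : ℕ, c * (p : ℝ) ^ e - m ≤ μ + 1 ∧ Jump p I (c * (p : ℝ) ^ e - m) := by
    intro e
    have h1 := h.mul_pow hp0 e
    by_cases hle : c * (p : ℝ) ^ e ≤ μ + 1
    · exact ⟨0, by simpa using hle, by simpa using h1⟩
    · push Not at hle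
      set x := c * (p : ℝ) ^ e - μ with hx
      have hx1 : 1 < x := by rw [hx]; linarith
      have h2 : (⌈x⌉₊ : ℝ) < x + 1 := Nat.ceil_lt_add_one (by linarith)
      have h3 : x ≤ (⌈x⌉₊ : ℝ) := Nat.le_ceil x
      have h4 : 1 ≤ ⌈x⌉₊ := Nat.one_le_ceil_iff.2 (by linarith)
      refine ⟨⌈x⌉₊ - 1, ?_, ?_⟩
      · rw [Nat.cast_sub h4]
        push_cast
        linarith
      · refine h1.sub_nat hp0 hs' _ ?_
        rw [Nat.cast_sub h4]
        push_cast
        linarith
  choose m hm1 hm2 using hshift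
  have hfin := finite_jumps (p := p) hp0 I (μ + 1)
  have hmaps : ∀ e, (c * (p : ℝ) ^ e - m e) ∈ {c | c ≤ μ + 1 ∧ Jump p I c} := fun e =>
    ⟨hm1 e, hm2 e⟩
  obtain ⟨e, _, e', _, hne, heq⟩ := Set.infinite_univ.exists_ne_map_eq_of_mapsTo
    (f := fun e : ℕ => c * (p : ℝ) ^ e - m e) (t := {c | c ≤ μ + 1 ∧ Jump p I c})
    (fun e _ => hmaps e) hfin
  have heq' : c * (p : ℝ) ^ e - m e = c * (p : ℝ) ^ e' - m e' := heq
  have hpne : (p : ℝ) ^ e - (p : ℝ) ^ e' ≠ 0 := by
    intro h0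
    apply hne
    have : (p : ℝ) ^ e = (p : ℝ) ^ e' := by linarith
    exact pow_right_injective₀ (by linarith) hpR.ne' this
  refine ⟨((m e : ℚ) - m e') / ((p : ℚ) ^ e - (p : ℚ) ^ e'), ?_⟩
  push_cast
  rw [div_eq_iff hpne]
  linarith

/-- constancy away from jumping numbers -/
theorem tau_const (hp : 2 ≤ p) {I : Ideal (MvPolynomial (Fin n) k)} (hI : I ≠ ⊥) {u v : ℝ}
    (hu : 0 ≤ u) (huv : u ≤ v) (hno : ∀ c, u < c → c ≤ v → ¬ Jump p I c) :
    tau p I v = tau p I u := by
  set S : Set ℝ := {w | u ≤ w ∧ w ≤ v ∧ tau p I w = tau p I u} with hS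
  have hne : S.Nonempty := ⟨u, le_rfl, huv, rfl⟩
  have hbdd : BddAbove S := ⟨v, fun w hw => hw.2.1⟩
  set σ := sSup S with hσ
  have huσ : u ≤ σ := le_csSup hbdd ⟨le_rfl, huv, rfl⟩
  have hσv : σ ≤ v := csSup_le hne fun w hw => hw.2.1
  -- below σ the value is constant
  have hbelow : ∀ b, u ≤ b → b < σ → tau p I b = tau p I u := by
    intro b hub hbσ
    obtain ⟨w, hw, hbw⟩ := exists_lt_of_lt_csSup hne hbσ
    apply le_antisymm (tau_anti I hub)
    rw [← hw.2.2]
    exact tau_anti I hbw.le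
  have hσS : tau p I σ = tau p I u := by
    rcases eq_or_lt_of_le huσ with heq | hlt
    · rw [← heq]
    · have hnj := hno σ hlt hσv
      unfold Jump at hnj
      push Not at hnj
      obtain ⟨b, hb0, hbσ, hb⟩ := hnj (lt_of_le_of_lt hu hlt)
      rcases le_total u b with h1 | h1
      · rw [← hb, hbelow b h1 hbσ]
      · apply le_antisymm (tau_anti I huσ)
        rw [← hb]
        exact tau_anti I h1
  rcases eq_or_lt_of_le hσv with heq | hlt
  · rw [← heq, hσS]
  · obtain ⟨δ, hδ, hconst⟩ := right_const (p := p) hp hI (hu.trans huσ)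
    set w := min v (σ + δ) with hw
    have h1 : σ < w := lt_min hlt (by linarith)
    have h2 : w ∈ S := by
      refine ⟨huσ.trans h1.le, min_le_left _ _, ?_⟩
      rw [hconst w h1.le (min_le_right _ _), hσS]
    have := le_csSup hbdd h2
    linarith

end jump2

end Pool.Agent.Lib.MP_71915d_ag
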