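import Pool.Agent.Lib.MP_71915d_ag.FP

set_option autoImplicit false

namespace Pool.Agent.Lib.MP_71915d_ag

open Polynomial

section pc

variable {p : ℕ} {S : Type*} [CommRing S]

open Classical in
/-- the operator on polynomials: the coefficient of `x^u` in the result is `κ` of the coefficient
of `x^(v+Qu)` -/
noncomputable def pcFun (κ : S →+ S) (Q v : ℕ) (F : S[X]) : S[X] :=
  ∑ m ∈ F.support, if v + Q * ((m - v) / Q) = m then monomial ((m - v) / Q) (κ (F.coeff m)) else 0

theorem coeff_pcFun (κ : S →+ S) {Q : ℕ} (hQ : 0 < Q) (v : ℕ) (F : S[X]) (u : ℕ) :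
    (pcFun κ Q v F).coeff u = κ (F.coeff (v + Q * u)) := by
  classical
  unfold pcFun
  rw [finset_sum_coeff]
  by_cases hs : v + Q * u ∈ F.support
  · rw [Finset.sum_eq_single_of_mem _ hs]
    · have h1 : (v + Q * u - v) / Q = u := by
        rw [Nat.add_sub_cancel_left, Nat.mul_div_cancel_left _ hQ]
      rw [h1, if_pos rfl, coeff_monomial, if_pos rfl]
    · intro m _ hm
      split_ifs with h
      · rw [coeff_monomial, if_neg]
        intro h2
        apply hm
        rw [← h, h2]
      · simp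
  · have h0 : F.coeff (v + Q * u) = 0 := by simpa using hs
    rw [h0, map_zero]
    refine Finset.sum_eq_zero fun m hm => ?_
    split_ifs with h
    · rw [coeff_monomial, if_neg]
      intro h2
      apply hs
      rw [← h2, h]
      exact hm
    · simp

/-- the operator as an additive map -/
noncomputable def pc (κ : S →+ S) {Q : ℕ} (hQ : 0 < Q) (v : ℕ) : S[X] →+ S[X] where
  toFun := pcFun κ Q v
  map_zero' := by
    ext u
    simp [coeff_pcFun κ hQ]
  map_add' F G := by
    ext u
    simp [coeff_pcFun κ hQ]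

theorem coeff_pc (κ : S →+ S) {Q : ℕ} (hQ : 0 < Q) (v : ℕ) (F : S[X]) (u : ℕ) :
    (pc κ hQ v F).coeff u = κ (F.coeff (v + Q * u)) :=
  coeff_pcFun κ hQ v F u

theorem isCart_pc {e : ℕ} [ExpChar S p] (κ : S →+ S) (hκ : IsCart p e κ)
    (hQ : 0 < p ^ e) {v : ℕ} (hv : v < p ^ e) : IsCart p e (pc κ hQ v) := by
  classical
  intro G F
  induction G using Polynomial.induction_on' with
  | add G1 G2 h1 h2 =>
    rw [add_pow_expChar_pow, add_mul, map_add, h1, h2, add_mul]
  | monomial μ c =>
    ext u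
    rw [coeff_pc, ← C_mul_X_pow_eq_monomial, mul_pow, ← C_pow, ← pow_mul, mul_assoc, mul_assoc,
      coeff_C_mul, coeff_C_mul, coeff_X_pow_mul', coeff_X_pow_mul', hκ]
    have hiff : μ * p ^ e ≤ v + p ^ e * u ↔ μ ≤ u := by
      constructor
      · intro h
        by_contra h3
        push Not at h3
        have h4 : p ^ e * (u + 1) ≤ p ^ e * μ := Nat.mul_le_mul_left _ h3
        rw [mul_add, mul_one, mul_comm _ μ] at h4
        omega
      · intro h
        have : μ * p ^ e ≤ u * p ^ e := Nat.mul_le_mul_right _ h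
        rw [mul_comm _ u]
        omega
    by_cases h : μ ≤ u
    · rw [if_pos h, if_pos (hiff.2 h), coeff_pc]
      congr 3
      rw [Nat.mul_sub, mul_comm μ]
      have : p ^ e * μ ≤ p ^ e * u := Nat.mul_le_mul_left _ h
      omega
    · rw [if_neg h, if_neg (fun h' => h (hiff.1 h')), map_zero]

/-- value on `c x^n` if `n ≡ v` -/
theorem pc_monomial (κ : S →+ S) {Q : ℕ} (hQ : 0 < Q) {v n u : ℕ} (h : n = v + Q * u)
    (c : S) : pc κ hQ v (C c * X ^ n) = C (κ c) * X ^ u := by
  ext w
  rw [coeff_pc, coeff_C_mul_X_pow, coeff_C_mul_X_pow]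
  by_cases hw : w = u
  · rw [if_pos hw, if_pos (by rw [hw, h])]
  · rw [if_neg hw, if_neg, map_zero]
    intro h2
    apply hw
    rw [h] at h2
    exact Nat.eq_of_mul_eq_mul_left hQ (by omega)

/-- value on `c x^n` if `n ≢ v` -/
theorem pc_monomial_zero (κ : S →+ S) {Q : ℕ} (hQ : 0 < Q) {v n : ℕ} (hv : v < Q)
    (h : n % Q ≠ v) (c : S) : pc κ hQ v (C c * X ^ n) = 0 := by
  ext w
  rw [coeff_pc, coeff_C_mul_X_pow, if_neg, map_zero, coeff_zero]
  intro h2
  apply h
  rw [← h2, Nat.add_mul_mod_self_left, Nat.mod_eq_of_lt hv]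

/-- polynomial rings inherit dual bases -/
theorem FrobProj.poly [ExpChar S p] (hp : 0 < p) (hS : FrobProj p S) : FrobProj p S[X] := by
  classical
  intro e
  obtain ⟨N, s, D, hD, hx⟩ := hS e
  have hQ : 0 < p ^ e := Nat.pow_pos hp
  let ε : Fin (N * p ^ e) ≃ Fin N × Fin (p ^ e) := finProdFinEquiv.symm
  refine ⟨N * p ^ e, fun l => C (s (ε l).1) * X ^ ((ε l).2 : ℕ), fun l => pc (D (ε l).1) hQ (ε l).2,
    fun l => isCart_pc _ (hD _) hQ (ε l).2.2, fun F => ?_⟩
  rw [← Equiv.sum_comp ε.symm, Fintype.sum_prod_type_right]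
  simp only [Equiv.apply_symm_apply]
  induction F using Polynomial.induction_on' with
  | add F G hF hG =>
    conv_lhs => rw [hF, hG]
    rw [← Finset.sum_add_distrib]
    refine Finset.sum_congr rfl fun v _ => ?_
    rw [← Finset.sum_add_distrib]
    refine Finset.sum_congr rfl fun i _ => ?_
    rw [map_add, add_pow_expChar_pow, add_mul]
  | monomial n c =>
    rw [← C_mul_X_pow_eq_monomial]
    rw [Finset.sum_eq_single (⟨n % p ^ e, Nat.mod_lt _ hQ⟩ : Fin (p ^ e))]
    · have h1 : n = n % p ^ e + p ^ e * (n / p ^ e) := (Nat.mod_add_div _ _).symm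
      conv_lhs => rw [hx c, map_sum, Finset.sum_mul]
      refine Finset.sum_congr rfl fun i _ => ?_
      rw [pc_monomial _ hQ h1, mul_pow, ← C_pow, C_mul, ← pow_mul]
      conv_lhs => rw [h1, pow_add]
      rw [mul_comm (n / p ^ e)]
      ring
    · intro v _ hv
      refine Finset.sum_eq_zero fun i _ => ?_
      rw [pc_monomial_zero _ hQ v.2, zero_pow hQ.ne', zero_mul]
      intro h
      apply hv
      ext
      exact h.symm
    · intro h
      exact absurd (Finset.mem_univ _) h

end pc

end Pool.Agent.Lib.MP_71915d_ag
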