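import Pool.Agent.Lib.MP_71915d_ag.TauS
import Pool.Agent.Lib.MP_71915d_ag.Alt
import Pool.Agent.Lib.MP_71915d_ag.Ari

set_option autoImplicit false

namespace Pool.Agent.Lib.MP_71915d_ag

open Polynomial

section pair

variable {p : ℕ} {S : Type*} [CommRing S] [ExpChar S p]

/-- the element `x^m + h` of `S[x]` -/
noncomputable def gg (m : ℕ) (h : S) : S[X] := X ^ m + C h

omit [ExpChar S p] in
theorem expand (m : ℕ) (h : S) (A B : ℕ) : X ^ A * gg m h ^ B =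
    ∑ i ∈ Finset.range (B + 1), C (h ^ (B - i) * (B.choose i : S)) * X ^ (A + m * i) := by
  unfold gg
  rw [add_pow, Finset.mul_sum]
  refine Finset.sum_congr rfl fun i _ => ?_
  rw [C_mul, C_pow, ← pow_mul, pow_add]
  have : (C (B.choose i : S) : S[X]) = (B.choose i : S[X]) := by simp
  rw [this]
  ring

omit [ExpChar S p] in
theorem cast_eq_zero_of_dvd [Fact p.Prime] [CharP S p] {n : ℕ} (h : p ∣ n) : (n : S) = 0 :=
  (CharP.cast_eq_zero_iff S p n).2 h

omit [ExpChar S p] in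
theorem exists_inv [hp : Fact p.Prime] [CharP S p] {n : ℕ} (h : ¬ p ∣ n) :
    ∃ c : ℕ, (c : S) * (n : S) = 1 := by
  have h1 : Nat.Coprime n p := ((Nat.Prime.coprime_iff_not_dvd hp.out).2 h).symm
  obtain ⟨c, _, hc⟩ := Nat.exists_mul_mod_eq_one_of_coprime h1 hp.out.one_lt
  refine ⟨c, ?_⟩
  have h2 : ((c * n : ℕ) : S) = ((1 : ℕ) : S) := by
    rw [CharP.natCast_eq_natCast S p]
    unfold Nat.ModEq
    rw [mul_comm c n, hc, Nat.mod_eq_of_lt hp.out.one_lt]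
  push_cast at h2
  exact h2

/-- lower bound -/
theorem lower [hp : Fact p.Prime] [CharP S p] {m : ℕ} (hm : ¬ p ∣ m) (h : S) {e A B i : ℕ}
    (hB : B < p ^ e) (hi : i ≤ B) (hch : ¬ p ∣ B.choose i) {t : S} (ht : t ∈ rt p e (h ^ (B - i))) :
    C t * X ^ ((A + m * i) / p ^ e) ∈ rt p e (X ^ A * gg m h ^ B) := by
  classical
  have hQ : 0 < p ^ e := Nat.pow_pos hp.out.pos
  obtain ⟨D, hD, rfl⟩ := ht
  obtain ⟨c, hc⟩ := exists_inv (p := p) (S := S) hch
  have hv : (A + m * i) % p ^ e < p ^ e := Nat.mod_lt _ hQ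
  have key : pc D hQ ((A + m * i) % p ^ e) (X ^ A * gg m h ^ B) =
      C (D (h ^ (B - i) * (B.choose i : S))) * X ^ ((A + m * i) / p ^ e) := by
    rw [expand, map_sum, Finset.sum_eq_single_of_mem i (Finset.mem_range.2 (by omega))]
    · exact pc_monomial D hQ (Nat.mod_add_div _ _).symm _
    · intro i' hi' hne
      rw [Finset.mem_range] at hi'
      apply pc_monomial_zero D hQ hv
      intro h1
      apply hne
      have h2 : A + m * i' ≡ A + m * i [MOD p ^ e] := h1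
      have h3 : m * i' ≡ m * i [MOD p ^ e] := Nat.ModEq.add_left_cancel' A h2
      have h4 : Nat.gcd (p ^ e) m = 1 :=
        Nat.Coprime.pow_left e ((Nat.Prime.coprime_iff_not_dvd hp.out).2 hm)
      have h5 : i' ≡ i [MOD p ^ e] := Nat.ModEq.cancel_left_of_coprime h4 h3
      exact Nat.ModEq.eq_of_lt_of_lt h5 (by omega) (by omega)
  have h1 : pc D hQ ((A + m * i) % p ^ e) (X ^ A * gg m h ^ B) ∈ rt p e (X ^ A * gg m h ^ B) :=
    ⟨_, isCart_pc D hD hQ hv, rfl⟩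
  rw [key] at h1
  have h2 := Ideal.mul_mem_left _ (C (c : S)) h1
  have h3 : D (h ^ (B - i) * (B.choose i : S)) = (B.choose i : S) * D (h ^ (B - i)) := by
    rw [mul_comm, ← nsmul_eq_mul, map_nsmul, nsmul_eq_mul]
  rw [h3, ← mul_assoc, ← C_mul, ← mul_assoc, hc, one_mul] at h2
  exact h2

theorem map_C_frobMap (L : Ideal S) (e : ℕ) {x : S} (hx : x ∈ frobMap p e L) :
    C x ∈ frobMap p e (Ideal.map (C : S →+* S[X]) L) := by
  have h1 : C x ∈ Ideal.map (C : S →+* S[X]) (frobMap p e L) := Ideal.mem_map_of_mem _ hx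
  refine (?_ : Ideal.map (C : S →+* S[X]) (frobMap p e L) ≤ _) h1
  unfold frobMap
  rw [Ideal.map_map, Ideal.map_map]
  have : (C : S →+* S[X]).comp (iterateFrobenius S p e) =
      (iterateFrobenius S[X] p e).comp (C : S →+* S[X]) := by
    ext x
    simp [iterateFrobenius_def]
  rw [this]

/-- upper bound -/
theorem upper (hS : FrobProj p S) [hp : Fact p.Prime] [CharP S p] {m : ℕ} (h : S) {e A B u : ℕ}
    {L : Ideal S}
    (hyp : ∀ i, i ≤ B → ¬ p ∣ B.choose i → (u + 1) * p ^ e ≤ A + m * i ∨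
      h ^ (B - i) ∈ frobMap p e L) :
    rt p e (X ^ A * gg m h ^ B) ≤
      Ideal.span {(X : S[X]) ^ (u + 1)} ⊔ Ideal.map (C : S →+* S[X]) L := by
  rw [rt_le_iff (hS.poly hp.out.pos), expand]
  refine Ideal.sum_mem _ fun i hi => ?_
  rw [Finset.mem_range] at hi
  by_cases hch : p ∣ B.choose i
  · rw [cast_eq_zero_of_dvd (S := S) hch, mul_zero, C_0, zero_mul]
    exact Ideal.zero_mem _
  · rcases hyp i (by omega) hch with h1 | h1
    · have h2 : ((X : S[X]) ^ (u + 1)) ^ p ^ e ∈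
          frobMap p e (Ideal.span {(X : S[X]) ^ (u + 1)} ⊔ Ideal.map (C : S →+* S[X]) L) :=
        pow_mem_frobMap (Ideal.mem_sup_left (Ideal.mem_span_singleton_self _)) e
      have h3 : (X : S[X]) ^ (A + m * i) =
          ((X : S[X]) ^ (u + 1)) ^ p ^ e * X ^ (A + m * i - (u + 1) * p ^ e) := by
        rw [← pow_mul, ← pow_add]
        congr 1
        omega
      rw [h3, mul_left_comm]
      exact Ideal.mul_mem_right _ _ h2
    · have h2 : C (h ^ (B - i)) ∈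
          frobMap p e (Ideal.span {(X : S[X]) ^ (u + 1)} ⊔ Ideal.map (C : S →+* S[X]) L) :=
        Ideal.map_mono le_sup_right (map_C_frobMap L e h1)
      rw [C_mul, mul_assoc]
      exact Ideal.mul_mem_right _ _ h2

omit [ExpChar S p] in
theorem mem_of_mul_X_pow {L : Ideal S} {u : ℕ} {t : S}
    (h : C t * X ^ u ∈ Ideal.span {(X : S[X]) ^ (u + 1)} ⊔ Ideal.map (C : S →+* S[X]) L) :
    t ∈ L := by
  obtain ⟨a, ha, b, hb, hab⟩ := Submodule.mem_sup.1 h
  obtain ⟨a', rfl⟩ := Ideal.mem_span_singleton'.1 ha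
  have h1 := congrArg (fun F => coeff F u) hab
  rw [coeff_add, coeff_mul_X_pow', coeff_C_mul_X_pow, if_neg (by omega), if_pos rfl,
    zero_add] at h1
  rw [← h1]
  exact (Ideal.mem_map_C_iff.1 hb) u

/-- the pair of elements -/
noncomputable def FF2 (m : ℕ) (h : S) : Fin 2 → S[X] := ![X, gg m h]

/-- the map `Φ` of the pair `(x), (x^m + h)` -/
noncomputable def Phi (p : ℕ) {S : Type*} [CommRing S] [ExpChar S p] (m : ℕ) (h : S)
    (x : Fin 2 → ℝ) : Ideal S[X] :=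
  mixedTestIdeal p (fun i => Ideal.span {FF2 m h i}) x

theorem Phi_rat (hS : FrobProj p S) (hp : 0 < p) (m : ℕ) (h : S) (A B n : ℕ) :
    Phi p m h ![(A : ℝ) / (p : ℝ) ^ n, (B : ℝ) / (p : ℝ) ^ n] = rt p n (X ^ A * gg m h ^ B) := by
  have h1 := mixed_rat (hS.poly hp) hp (FF2 m h) ![A, B] n
  have h2 : (fun i => ((![A, B] : Fin 2 → ℕ) i : ℝ) / (p : ℝ) ^ n) =
      ![(A : ℝ) / (p : ℝ) ^ n, (B : ℝ) / (p : ℝ) ^ n] := by
    funext i
    fin_cases i <;> rfl
  rw [h2] at h1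
  unfold Phi
  rw [h1, Fin.prod_univ_two]
  rfl

theorem Phi_anti (m : ℕ) (h : S) {x y : Fin 2 → ℝ} (hxy : ∀ i, x i ≤ y i) :
    Phi p m h y ≤ Phi p m h x := mixed_anti _ hxy

/-- right constancy -/
theorem Phi_right (hS : FrobProj p S) [hp : Fact p.Prime] {m : ℕ} (hm : 1 ≤ m) (h : S) :
    ∃ e0 : ℕ, ∀ (A B n : ℕ) (w : Fin 2 → ℝ),
      (∀ l, 0 < w l ∧ w l < 1 / (p : ℝ) ^ (n + e0)) →
      Phi p m h (![(A : ℝ) / (p : ℝ) ^ n, (B : ℝ) / (p : ℝ) ^ n] + w) =
        Phi p m h ![(A : ℝ) / (p : ℝ) ^ n, (B : ℝ) / (p : ℝ) ^ n] := by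
  have hp0 := hp.out.pos
  have hQ : 0 < p ^ (m + 1) := Nat.pow_pos hp0
  have hlt : m + 1 < p ^ (m + 1) := Nat.lt_pow_self hp.out.one_lt
  obtain ⟨σ, hσ, h1⟩ := hS.split hp0 (m + 1)
  refine ⟨m + 1, fun A B n w hw => ?_⟩
  have h2 : (fun i => ((![A, B] : Fin 2 → ℕ) i : ℝ) / (p : ℝ) ^ n) =
      ![(A : ℝ) / (p : ℝ) ^ n, (B : ℝ) / (p : ℝ) ^ n] := by
    funext i
    fin_cases i <;> rfl
  have hD : pc σ hQ (m + 1) (∏ i, FF2 m h i) = 1 := by
    rw [Fin.prod_univ_two]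
    have h3 : FF2 m h 0 * FF2 m h 1 = C 1 * X ^ (m + 1) + C h * X ^ 1 := by
      change X * gg m h = _
      unfold gg
      rw [C_1]
      ring
    rw [h3, map_add, pc_monomial σ hQ (u := 0) (by omega), pc_monomial_zero σ hQ hlt, h1]
    · simp
    · rw [Nat.mod_eq_of_lt (by omega)]
      omega
  have h4 := mixed_right (hS.poly hp0) hp0 (FF2 m h) ![A, B] n (m + 1)
    (isCart_pc σ hσ hQ hlt) hD (![(A : ℝ) / (p : ℝ) ^ n, (B : ℝ) / (p : ℝ) ^ n] + w) ?_ ?_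
  · rw [h2] at h4
    exact h4
  · intro i
    have h5 := congrFun h2 i
    rw [h5, Pi.add_apply]
    linarith [(hw i).1]
  · intro i
    have h5 := congrFun h2 i
    rw [h5, Pi.add_apply]
    linarith [(hw i).2]

end pair

end Pool.Agent.Lib.MP_71915d_ag
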