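import Pool.Agent.Lib.MP_71915d_ag.Pair

set_option autoImplicit false

namespace Pool.Agent.Lib.MP_71915d_ag

open Polynomial

section pair2

variable {p : ℕ} {S : Type*} [CommRing S] [ExpChar S p]

theorem rt_le_tau1 (hS : FrobProj p S) (hp : 0 < p) (h : S) {c : ℝ} {j n : ℕ}
    (hj : c * (p : ℝ) ^ n ≤ j) : rt p n (h ^ j) ≤ tau1 p h c := by
  rw [← tau1_rat hS hp]
  apply tau1_anti
  rw [le_div_iff₀ (by positivity)]
  exact hj

theorem pow_mem_frobMap_tau1 (hS : FrobProj p S) (hp : 0 < p) (h : S) {c : ℝ} {j n : ℕ}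
    (hj : c * (p : ℝ) ^ n ≤ j) : h ^ j ∈ frobMap p n (tau1 p h c) :=
  Ideal.map_mono (rt_le_tau1 hS hp h hj) (mem_frobMap_rt hS n (h ^ j))

/-- points of the box -/
theorem mem_box_of {M : ℝ} (hM : 1 ≤ M) {n e0 A B : ℕ} (hp : 1 < p) (hA : A + 1 ≤ p ^ n)
    (hB : B + 1 ≤ p ^ n) {w : Fin 2 → ℝ} (hw : ∀ l, 0 < w l ∧ w l < 1 / (p : ℝ) ^ (n + e0)) :
    ![(A : ℝ) / (p : ℝ) ^ n, (B : ℝ) / (p : ℝ) ^ n] + w ∈ box 2 M := by
  have hpR : (1 : ℝ) < p := by exact_mod_cast hp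
  have hQ : (0 : ℝ) < (p : ℝ) ^ n := by positivity
  have h1 : 1 / (p : ℝ) ^ (n + e0) ≤ 1 / (p : ℝ) ^ n := by
    apply one_div_le_one_div_of_le hQ
    exact pow_le_pow_right₀ hpR.le (by omega)
  have h2 : ∀ a : ℕ, a + 1 ≤ p ^ n → (a : ℝ) / (p : ℝ) ^ n + 1 / (p : ℝ) ^ n ≤ 1 := by
    intro a ha
    rw [← add_div, div_le_one hQ]
    exact_mod_cast ha
  intro i
  rw [Pi.add_apply]
  fin_cases i
  · have h3 := h2 A hA
    have h4 := hw 0
    have h5 : (0 : ℝ) ≤ (A : ℝ) / (p : ℝ) ^ n := by positivity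
    change 0 ≤ (A : ℝ) / (p : ℝ) ^ n + w 0 ∧ (A : ℝ) / (p : ℝ) ^ n + w 0 ≤ M
    constructor <;> linarith
  · have h3 := h2 B hB
    have h4 := hw 1
    have h5 : (0 : ℝ) ≤ (B : ℝ) / (p : ℝ) ^ n := by positivity
    change 0 ≤ (B : ℝ) / (p : ℝ) ^ n + w 1 ∧ (B : ℝ) / (p : ℝ) ^ n + w 1 ≤ M
    constructor <;> linarith

/-- the points inside -/
theorem point_in [hp : Fact p.Prime] [CharP S p] (hS : FrobProj p S) {m : ℕ} (hm : ¬ p ∣ m)
    (h : S) {n l G : ℕ} (hC : G < p ^ n) (hl : l < n) (hml : m * p ^ l < p ^ n)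
    (hd : (G / p ^ l) % p ≠ p - 1) {g : S} (hg : g ∈ tau1 p h ((G : ℝ) / (p : ℝ) ^ n)) :
    C g * X ^ 0 ∈ Phi p m h ![((p ^ n - 1 - m * p ^ l : ℕ) : ℝ) / (p : ℝ) ^ n,
      ((G + p ^ l : ℕ) : ℝ) / (p : ℝ) ^ n] := by
  rw [Phi_rat hS hp.out.pos]
  rw [tau1_rat hS hp.out.pos] at hg
  have h1 := lower (p := p) hm h (e := n) (A := p ^ n - 1 - m * p ^ l) (B := G + p ^ l)
    (i := p ^ l) (add_pow_lt hl hC hd) (by omega) (not_dvd_choose_add_pow G l hd) (t := g)
    (by rwa [Nat.add_sub_cancel])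
  have h2 : p ^ n - 1 - m * p ^ l + m * p ^ l = p ^ n - 1 := by omega
  rw [h2, Nat.div_eq_of_lt (by omega)] at h1
  exact h1

/-- the points outside -/
theorem point_out [hp : Fact p.Prime] [CharP S p] (hS : FrobProj p S) {m : ℕ} (hm : 1 ≤ m)
    (h : S) {n l G : ℕ} {c : ℝ} (hl : 1 ≤ l) (hml : m * p ^ l < p ^ n)
    (hd : G % p ≠ 0) (hc : c * (p : ℝ) ^ n < G + 1) :
    Phi p m h ![((p ^ n - 1 - m * (p ^ l - 1) : ℕ) : ℝ) / (p : ℝ) ^ n,
      ((G + p ^ l - 1 : ℕ) : ℝ) / (p : ℝ) ^ n] ≤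
      Ideal.span {(X : S[X]) ^ (0 + 1)} ⊔ Ideal.map (C : S →+* S[X]) (tau1 p h c) := by
  have hp0 := hp.out.pos
  have hpl : 0 < p ^ l := Nat.pow_pos hp0
  rw [Phi_rat hS hp0]
  refine upper hS h fun i hi hch => ?_
  rcases Nat.lt_or_ge i (p ^ l) with h1 | h1
  · right
    apply pow_mem_frobMap_tau1 hS hp0
    have h2 : G + 1 ≤ G + p ^ l - 1 - i := by
      by_contra h3
      push Not at h3
      have h4 : i = p ^ l - 1 := by omega
      apply hch
      rw [← Nat.choose_symm (by omega : i ≤ G + p ^ l - 1)]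
      have h5 : G + p ^ l - 1 - i = G := by omega
      rw [h5]
      exact dvd_choose_out G l hl hd
    have h3 : ((G + 1 : ℕ) : ℝ) ≤ ((G + p ^ l - 1 - i : ℕ) : ℝ) := by exact_mod_cast h2
    push_cast at h3
    linarith
  · left
    have h2 : m * p ^ l ≤ m * i := Nat.mul_le_mul_left _ h1
    have h3 : m * (p ^ l - 1) + m = m * p ^ l := by
      rw [Nat.mul_sub, mul_one]
      have : m * 1 ≤ m * p ^ l := Nat.mul_le_mul_left _ hpl
      omega
    omega

/-- A jumping number in `(0,1)` without `p`-power denominator excludes convex decompositions. -/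
theorem padic_of_decomp [hp : Fact p.Prime] [CharP S p] (hS : FrobProj p S) {m : ℕ}
    (hm : ¬ p ∣ m) (h : S) {M : ℝ} (hM : 1 ≤ M) {N : ℕ} {P : Fin N → Set (Fin 2 → ℝ)}
    (hP : ∀ j, IsClosed (P j)) (hcv : ∀ j, Convex ℝ (P j)) (hcov : box 2 M ⊆ ⋃ j, P j)
    (hconst : ∀ j, ∀ x ∈ interior (P j), ∀ y ∈ interior (P j), Phi p m h x = Phi p m h y)
    {c : ℝ} (hc : FJump p h c) (hc1 : c < 1) : ∃ n N' : ℕ, c * (p : ℝ) ^ n = N' := by
  classical
  have hp0 := hp.out.pos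
  have hpR : (0 : ℝ) < p := by exact_mod_cast hp0
  have hm1 : 1 ≤ m := by
    rcases Nat.eq_zero_or_pos m with h0 | h0
    · exact absurd (h0 ▸ dvd_zero p) hm
    · exact h0
  by_contra hcon
  push Not at hcon
  obtain ⟨n, l, h1, h2, h3⟩ := exists_places (p := p) hc.1.le hcon m (N + 1)
  set G : ℕ := ⌊c * (p : ℝ) ^ n⌋₊ with hC
  have hQ : (0 : ℝ) < (p : ℝ) ^ n := by positivity
  have hC1 : (G : ℝ) < c * (p : ℝ) ^ n :=
    lt_of_le_of_ne (Nat.floor_le (by have := hc.1; positivity)) (hcon n G).symm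
  have hC2 : c * (p : ℝ) ^ n < G + 1 := Nat.lt_floor_add_one _
  have hCQ : G < p ^ n := by
    have : (G : ℝ) < (p : ℝ) ^ n := by nlinarith
    exact_mod_cast this
  -- the element
  obtain ⟨g, hg1, hg2⟩ : ∃ g ∈ tau1 p h ((G : ℝ) / (p : ℝ) ^ n), g ∉ tau1 p h c := by
    have h4 : (G : ℝ) / (p : ℝ) ^ n < c := by rwa [div_lt_iff₀ hQ]
    have h5 : tau1 p h c < tau1 p h ((G : ℝ) / (p : ℝ) ^ n) :=
      lt_of_le_of_ne (tau1_anti h h4.le) (hc.2 _ (by positivity) h4).symm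
    exact SetLike.exists_of_lt h5
  obtain ⟨e0, he0⟩ := Phi_right hS hm1 h
  -- the points
  let B : ℕ → ℕ := fun i => G + p ^ l (i / 2) - 1 + i % 2
  let A : ℕ → ℕ := fun i => p ^ n - 1 - m * (p ^ l (i / 2) - 1 + i % 2)
  have hpl : ∀ k, 0 < p ^ l k := fun k => Nat.pow_pos hp0
  have hlt : ∀ i, i ≤ 2 * N + 1 → m * (p ^ l (i / 2) - 1 + i % 2) < p ^ n := by
    intro i hi
    refine lt_of_le_of_lt (Nat.mul_le_mul_left _ ?_) (h3 (i / 2) (by omega)).2.2.1
    have := hpl (i / 2)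
    omega
  have hBlt : ∀ i, i ≤ 2 * N + 1 → B i + 1 ≤ p ^ n := by
    intro i hi
    have h4 := h3 (i / 2) (by omega)
    have h5 := add_pow_lt h4.2.1 hCQ h4.2.2.2
    have := hpl (i / 2)
    simp only [B]
    omega
  have hAlt : ∀ i, A i + 1 ≤ p ^ n := by
    intro i
    have : 0 < p ^ n := Nat.pow_pos hp0
    simp only [A]
    omega
  have hline : ∀ i, i ≤ 2 * N + 1 →
      (![((p : ℝ) ^ n - 1 + m * G) / (p : ℝ) ^ n, 0] : Fin 2 → ℝ) +
        ((B i : ℝ) / (p : ℝ) ^ n) • (![-(m : ℝ), 1] : Fin 2 → ℝ) =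
      ![(A i : ℝ) / (p : ℝ) ^ n, (B i : ℝ) / (p : ℝ) ^ n] := by
    intro i hi
    have h4 := hlt i hi
    have h5 : (A i : ℝ) = (p : ℝ) ^ n - 1 + m * G - m * B i := by
      have h6 : A i + m * B i = p ^ n - 1 + m * G := by
        simp only [A, B]
        have h7 : G + p ^ l (i / 2) - 1 + i % 2 = G + (p ^ l (i / 2) - 1 + i % 2) := by
          have := hpl (i / 2)
          omega
        rw [h7, mul_add m G]
        omega
      have h8 : ((A i + m * B i : ℕ) : ℝ) = ((p ^ n - 1 + m * G : ℕ) : ℝ) := by rw [h6]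
      have h9 : 1 ≤ p ^ n := Nat.pow_pos hp0
      push_cast [Nat.cast_sub h9] at h8
      linarith
    ext r
    fin_cases r
    · simp only [Fin.zero_eta, Pi.add_apply, Pi.smul_apply, smul_eq_mul, Matrix.cons_val_zero]
      rw [h5]
      field_simp
      ring
    · simp
  have hin : ∀ i, i ≤ 2 * N + 1 → i % 2 = 1 → C g * X ^ 0 ∈
      Phi p m h ![(A i : ℝ) / (p : ℝ) ^ n, (B i : ℝ) / (p : ℝ) ^ n] := by
    intro i hi hi2
    have h4 := h3 (i / 2) (by omega)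
    have h5 : A i = p ^ n - 1 - m * p ^ l (i / 2) := by
      simp only [A]
      have := hpl (i / 2)
      rw [hi2, Nat.sub_add_cancel this]
    have h6 : B i = G + p ^ l (i / 2) := by
      simp only [B]
      have := hpl (i / 2)
      omega
    rw [h5, h6]
    exact point_in hS hm h hCQ h4.2.1 h4.2.2.1 h4.2.2.2 hg1
  have hout : ∀ i, i ≤ 2 * N + 1 → i % 2 = 0 →
      Phi p m h ![(A i : ℝ) / (p : ℝ) ^ n, (B i : ℝ) / (p : ℝ) ^ n] ≤
      Ideal.span {(X : S[X]) ^ (0 + 1)} ⊔ Ideal.map (C : S →+* S[X]) (tau1 p h c) := by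
    intro i hi hi2
    have h4 := h3 (i / 2) (by omega)
    have h5 : A i = p ^ n - 1 - m * (p ^ l (i / 2) - 1) := by
      simp only [A]
      rw [hi2, add_zero]
    have h6 : B i = G + p ^ l (i / 2) - 1 := by
      simp only [B]
      omega
    rw [h5, h6]
    exact point_out hS hm1 h h4.1 h4.2.2.1 h1 hC2
  have hK : 2 * N + 1 < N := by
    refine alternation hP hcv hcov hconst (2 * N + 1)
      ![((p : ℝ) ^ n - 1 + m * G) / (p : ℝ) ^ n, 0] ![-(m : ℝ), 1]
      (fun i => (B i : ℝ) / (p : ℝ) ^ n) ?_ ?_ ?_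
    · intro i hi
      have h4 : B i < B (i + 1) := by
        simp only [B]
        rcases Nat.mod_two_eq_zero_or_one i with h5 | h5
        · have h6 : (i + 1) / 2 = i / 2 := by omega
          have h7 : (i + 1) % 2 = 1 := by omega
          rw [h6, h7, h5]
          omega
        · have h6 : (i + 1) / 2 = i / 2 + 1 := by omega
          have h7 : (i + 1) % 2 = 0 := by omega
          rw [h6, h7, h5]
          have h8 := h2 (i / 2) (by omega)
          have h9 := (h3 (i / 2) (by omega)).1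
          have h10 : p ^ l (i / 2) * 2 ≤ p ^ l (i / 2 + 1) := by
            calc p ^ l (i / 2) * 2 ≤ p ^ l (i / 2) * p := Nat.mul_le_mul_left _ hp.out.two_le
              _ = p ^ (l (i / 2) + 1) := (pow_succ _ _).symm
              _ ≤ _ := Nat.pow_le_pow_right hp0 h8
          have h11 : 2 ≤ p ^ l (i / 2) := by
            calc 2 ≤ p := hp.out.two_le
              _ = p ^ 1 := (pow_one p).symm
              _ ≤ _ := Nat.pow_le_pow_right hp0 h9
          omega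
      have h5 : (B i : ℝ) < (B (i + 1) : ℝ) := by exact_mod_cast h4
      exact div_lt_div_of_pos_right h5 hQ
    · intro i hi
      rw [hline i (by omega), hline (i + 1) (by omega)]
      intro heq
      rcases Nat.mod_two_eq_zero_or_one i with h5 | h5
      · have h6 := hin (i + 1) (by omega) (by omega)
        rw [← heq] at h6
        exact hg2 (mem_of_mul_X_pow (hout i (by omega) h5 h6))
      · have h6 := hin i (by omega) h5
        rw [heq] at h6
        exact hg2 (mem_of_mul_X_pow (hout (i + 1) (by omega) (by omega) h6))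
    · intro i hi
      refine ⟨1 / (p : ℝ) ^ (n + e0), by positivity, fun w hw => ?_⟩
      rw [hline i hi]
      exact ⟨mem_box_of hM hp.out.one_lt (hAlt i) (hBlt i hi) hw, he0 _ _ _ w hw⟩
  omega

end pair2

end Pool.Agent.Lib.MP_71915d_ag
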