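import Pool.Agent.Lib.MP_71915d_ag.Pair2

set_option autoImplicit false

namespace Pool.Agent.Lib.MP_71915d_ag

open Polynomial

section pair3

/-- The number of values on finitely many points is bounded by the number of pieces. -/
theorem distinct_bound {r N K : ℕ} {V : Type*} {Φ : (Fin r → ℝ) → V} {M : ℝ}
    {P : Fin N → Set (Fin r → ℝ)} (hP : ∀ j, IsClosed (P j))
    (hcov : box r M ⊆ ⋃ j, P j)
    (hconst : ∀ j, ∀ x ∈ interior (P j), ∀ y ∈ interior (P j), Φ x = Φ y)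
    (x : Fin K → Fin r → ℝ) (hΦ : ∀ i i', i ≠ i' → Φ (x i) ≠ Φ (x i')) {δ : ℝ} (hδ : 0 < δ)
    (hrc : ∀ i, ∀ w : Fin r → ℝ, (∀ l, 0 < w l ∧ w l < δ) →
      x i + w ∈ box r M ∧ Φ (x i + w) = Φ (x i)) : K ≤ N := by
  classical
  by_contra hKN
  push Not at hKN
  let W : Set (Fin r → ℝ) := {w | ∀ l, 0 < w l ∧ w l < δ}
  have hWo : IsOpen W := by
    have : W = ⋂ l, {w : Fin r → ℝ | 0 < w l ∧ w l < δ} := by
      ext w; simp [W]
    rw [this]
    refine isOpen_iInter_of_finite fun l => ?_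
    exact (isOpen_lt continuous_const (continuous_apply l)).inter
      (isOpen_lt (continuous_apply l) continuous_const)
  have hWne : W.Nonempty := ⟨fun _ => δ / 2, fun _ => ⟨by positivity, by linarith⟩⟩
  obtain ⟨w, hw, hj⟩ := exists_common hP hcov x hWo hWne (fun i w hw => (hrc i w hw).1)
  choose j hj using hj
  obtain ⟨i, i', hne, hjj⟩ := Fintype.exists_ne_map_eq_of_card_lt j (by
    simpa only [Fintype.card_fin] using hKN)
  have hB := hj i'
  rw [← hjj] at hB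
  have h5 := hconst (j i) _ (hj i) _ hB
  rw [(hrc i w hw).2, (hrc i' w hw).2] at h5
  exact hΦ i i' hne h5

variable {p : ℕ} {S : Type*} [CommRing S] [ExpChar S p]

/-- a change of `Φ` on the line `b = (q-1)/q` for every jumping number -/
theorem step_change [hp : Fact p.Prime] [CharP S p] (hS : FrobProj p S) {m : ℕ}
    (hm : ¬ p ∣ m) (h : S) {n G : ℕ} (hG : 0 < G) (hG1 : G < p ^ n)
    (hc : FJump p h ((G : ℝ) / (p : ℝ) ^ n)) :
    Phi p m h ![((p ^ n - 1 - m * (p ^ n - G) % p ^ n : ℕ) : ℝ) / (p : ℝ) ^ n,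
      ((p ^ n - 1 : ℕ) : ℝ) / (p : ℝ) ^ n] ≠
    Phi p m h ![((p ^ n - 1 - m * (p ^ n - G) % p ^ n + 1 : ℕ) : ℝ) / (p : ℝ) ^ n,
      ((p ^ n - 1 : ℕ) : ℝ) / (p : ℝ) ^ n] := by
  have hp0 := hp.out.pos
  have hpR : (0 : ℝ) < p := by exact_mod_cast hp0
  have hQ : (0 : ℝ) < (p : ℝ) ^ n := by positivity
  have hq : 0 < p ^ n := Nat.pow_pos hp0
  set q := p ^ n with hqdef
  set E := m * (q - G) with hE
  obtain ⟨g, hg1, hg2⟩ : ∃ g ∈ tau1 p h (((G - 1 : ℕ) : ℝ) / (p : ℝ) ^ n),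
      g ∉ tau1 p h ((G : ℝ) / (p : ℝ) ^ n) := by
    have h4 : ((G - 1 : ℕ) : ℝ) / (p : ℝ) ^ n < (G : ℝ) / (p : ℝ) ^ n := by
      apply div_lt_div_of_pos_right _ hQ
      have : G - 1 < G := by omega
      exact_mod_cast this
    have h5 : tau1 p h ((G : ℝ) / (p : ℝ) ^ n) < tau1 p h (((G - 1 : ℕ) : ℝ) / (p : ℝ) ^ n) :=
      lt_of_le_of_ne (tau1_anti h h4.le) (hc.2 _ (by positivity) h4).symm
    exact SetLike.exists_of_lt h5
  have hEm : E % q < q := Nat.mod_lt _ hq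
  have hEd := Nat.mod_add_div E q
  rw [Phi_rat hS hp0, Phi_rat hS hp0]
  intro heq
  have h1 : C g * X ^ (E / q) ∈ rt p n (X ^ (q - 1 - E % q) * gg m h ^ (q - 1)) := by
    have hch : ¬ p ∣ (q - 1).choose (q - G) := not_dvd_choose_top n _ (by omega)
    have h2 := lower (p := p) hm h (e := n) (A := q - 1 - E % q) (B := q - 1)
      (i := q - G) (by omega) (by omega) hch (t := g) (by
        have h3 : q - 1 - (q - G) = G - 1 := by omega
        rw [h3, ← tau1_rat hS hp0]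
        exact hg1)
    have h3 : (q - 1 - E % q + m * (q - G)) / p ^ n = E / q := by
      rw [← hE, ← hqdef]
      have h4 : q - 1 - E % q + E = (q - 1) + q * (E / q) := by omega
      rw [h4, Nat.add_mul_div_left _ _ hq, Nat.div_eq_of_lt (by omega), zero_add]
    rwa [h3] at h2
  rw [heq] at h1
  have h2 : rt p n (X ^ (q - 1 - E % q + 1) * gg m h ^ (q - 1)) ≤
      Ideal.span {(X : S[X]) ^ (E / q + 1)} ⊔
        Ideal.map (C : S →+* S[X]) (tau1 p h ((G : ℝ) / (p : ℝ) ^ n)) := by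
    refine upper hS h fun i hi _ => ?_
    rcases Nat.lt_or_ge i (q - G) with h3 | h3
    · right
      apply pow_mem_frobMap_tau1 hS hp0
      rw [div_mul_cancel₀ _ hQ.ne']
      have : G ≤ q - 1 - i := by omega
      exact_mod_cast this
    · left
      have h4 : m * (q - G) ≤ m * i := Nat.mul_le_mul_left _ h3
      rw [← hE] at h4
      rw [← hqdef, add_mul, one_mul, mul_comm (E / q) q]
      omega
  exact hg2 (mem_of_mul_X_pow (h2 h1))

/-- Convex decompositions bound the number of jumping numbers in `(0,1)`. -/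
theorem card_le_of_decomp [hp : Fact p.Prime] [CharP S p] (hS : FrobProj p S) {m : ℕ}
    (hm : ¬ p ∣ m) (h : S) {M : ℝ} (hM : 1 ≤ M) {N : ℕ} {P : Fin N → Set (Fin 2 → ℝ)}
    (hP : ∀ j, IsClosed (P j)) (hcov : box 2 M ⊆ ⋃ j, P j)
    (hconst : ∀ j, ∀ x ∈ interior (P j), ∀ y ∈ interior (P j), Phi p m h x = Phi p m h y)
    (T : Finset ℝ) (hT : ∀ c ∈ T, FJump p h c ∧ c < 1 ∧ ∃ n N' : ℕ, c * (p : ℝ) ^ n = N') :
    T.card ≤ N := by
  classical
  have hp0 := hp.out.pos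
  have hpR : (0 : ℝ) < p := by exact_mod_cast hp0
  have hm1 : 1 ≤ m := by
    rcases Nat.eq_zero_or_pos m with h0 | h0
    · exact absurd (h0 ▸ dvd_zero p) hm
    · exact h0
  -- a common denominator
  obtain ⟨n, hn⟩ : ∃ n, ∀ c ∈ T, ∃ G : ℕ, c * (p : ℝ) ^ n = G := by
    have h1 : ∀ c : ℝ, ∃ n : ℕ, c ∈ T → ∃ G : ℕ, c * (p : ℝ) ^ n = G := by
      intro c
      by_cases hc : c ∈ T
      · obtain ⟨n, G, hG⟩ := (hT c hc).2.2
        exact ⟨n, fun _ => ⟨G, hG⟩⟩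
      · exact ⟨0, fun h => absurd h hc⟩
    choose ν hν using h1
    refine ⟨∑ c ∈ T, ν c, fun c hc => ?_⟩
    obtain ⟨G, hG⟩ := hν c hc
    have h2 : ν c ≤ ∑ c ∈ T, ν c := Finset.single_le_sum (fun _ _ => Nat.zero_le _) hc
    obtain ⟨d, hd⟩ := Nat.exists_eq_add_of_le h2
    refine ⟨G * p ^ d, ?_⟩
    rw [hd, pow_add, ← mul_assoc, hG]
    push_cast
    rfl
  choose! G hG using hn
  have hQ : (0 : ℝ) < (p : ℝ) ^ n := by positivity
  have hq : 0 < p ^ n := Nat.pow_pos hp0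
  have hcG : ∀ c ∈ T, c = (G c : ℝ) / (p : ℝ) ^ n := by
    intro c hc
    rw [← hG c hc, mul_div_cancel_right₀ _ hQ.ne']
  have hG0 : ∀ c ∈ T, 0 < G c := by
    intro c hc
    have h1 := hG c hc
    have h2 : 0 < c * (p : ℝ) ^ n := mul_pos (hT c hc).1.1 hQ
    rw [h1] at h2
    exact_mod_cast h2
  have hG1 : ∀ c ∈ T, G c < p ^ n := by
    intro c hc
    have h1 := hG c hc
    have h2 : c * (p : ℝ) ^ n < 1 * (p : ℝ) ^ n := mul_lt_mul_of_pos_right (hT c hc).2.1 hQ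
    rw [h1, one_mul] at h2
    exact_mod_cast h2
  let A : ℝ → ℕ := fun c => p ^ n - 1 - m * (p ^ n - G c) % p ^ n
  let pt : ℕ → Fin 2 → ℝ := fun a => ![(a : ℝ) / (p : ℝ) ^ n, ((p ^ n - 1 : ℕ) : ℝ) / (p : ℝ) ^ n]
  have hpt : ∀ a b, a ≤ b → Phi p m h (pt b) ≤ Phi p m h (pt a) := by
    intro a b hab
    refine Phi_anti m h fun i => ?_
    fin_cases i
    · change (a : ℝ) / (p : ℝ) ^ n ≤ (b : ℝ) / (p : ℝ) ^ n
      apply div_le_div_of_nonneg_right _ hQ.le
      exact_mod_cast hab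
    · exact le_rfl
  have hch : ∀ c ∈ T, Phi p m h (pt (A c)) ≠ Phi p m h (pt (A c + 1)) := by
    intro c hc
    refine step_change hS hm h (hG0 c hc) (hG1 c hc) ?_
    rw [← hcG c hc]
    exact (hT c hc).1
  have hAinj : ∀ c ∈ T, ∀ c' ∈ T, A c = A c' → c = c' := by
    intro c hc c' hc' hA
    have h1 := Nat.mod_lt (m * (p ^ n - G c)) hq
    have h2 := Nat.mod_lt (m * (p ^ n - G c')) hq
    have h3 : m * (p ^ n - G c) ≡ m * (p ^ n - G c') [MOD p ^ n] := by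
      simp only [A] at hA
      unfold Nat.ModEq
      omega
    have h4 : Nat.gcd (p ^ n) m = 1 :=
      Nat.Coprime.pow_left n ((Nat.Prime.coprime_iff_not_dvd hp.out).2 hm)
    have h5 := Nat.ModEq.cancel_left_of_coprime h4 h3
    have h6 := hG0 c hc
    have h7 := hG0 c' hc'
    have h8 := hG1 c hc
    have h9 := hG1 c' hc'
    have h10 := Nat.ModEq.eq_of_lt_of_lt h5 (by omega) (by omega)
    rw [hcG c hc, hcG c' hc']
    have : G c = G c' := by omega
    rw [this]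
  have hlt : ∀ c ∈ T, ∀ c' ∈ T, A c < A c' → Phi p m h (pt (A c)) ≠ Phi p m h (pt (A c')) := by
    intro c hc c' _ hA heq
    apply hch c hc
    apply le_antisymm _ (hpt _ _ (Nat.le_succ _))
    rw [heq]
    exact hpt _ _ hA
  obtain ⟨e0, he0⟩ := Phi_right hS hm1 h
  refine distinct_bound hP hcov hconst (K := T.card)
    (fun i => pt (A (T.equivFin.symm i))) ?_ (δ := 1 / (p : ℝ) ^ (n + e0)) (by positivity) ?_
  · intro i i' hne
    have h1 : ((T.equivFin.symm i : T) : ℝ) ≠ T.equivFin.symm i' := by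
      intro h2
      exact hne (T.equivFin.symm.injective (Subtype.ext h2))
    have h2 := (T.equivFin.symm i).2
    have h3 := (T.equivFin.symm i').2
    rcases Nat.lt_trichotomy (A (T.equivFin.symm i)) (A (T.equivFin.symm i')) with h4 | h4 | h4
    · exact hlt _ h2 _ h3 h4
    · exact absurd (hAinj _ h2 _ h3 h4) h1
    · exact (hlt _ h3 _ h2 h4).symm
  · intro i w hw
    refine ⟨mem_box_of hM hp.out.one_lt ?_ ?_ hw, he0 _ _ _ w hw⟩
    · have h5 : A (T.equivFin.symm i) ≤ p ^ n - 1 := Nat.sub_le _ _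
      omega
    · omega

/-- the direct implication -/
theorem exists_denominator [hp : Fact p.Prime] [CharP S p] (hS : FrobProj p S) {m : ℕ}
    (hm : ¬ p ∣ m) (h : S) {M : ℝ} (hM : 1 ≤ M) (hno : ¬ NoConvexDecomposition (Phi p m h) M) :
    ∃ s : ℕ, ∀ c, FJump p h c → c < 1 → ∃ N' : ℕ, c * (p : ℝ) ^ s = N' := by
  classical
  unfold NoConvexDecomposition at hno
  push Not at hno
  obtain ⟨N, P, hP, hcv, hcov, hconst⟩ := hno
  have h1 : ∀ c, FJump p h c → c < 1 → ∃ n N' : ℕ, c * (p : ℝ) ^ n = N' := fun c hc hc1 =>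
    padic_of_decomp hS hm h hM hP hcv hcov hconst hc hc1
  have hfin : {c : ℝ | FJump p h c ∧ c < 1}.Finite := by
    by_contra hinf
    obtain ⟨T, hT, hcard⟩ := Set.Infinite.exists_subset_card_eq hinf (N + 1)
    have h2 := card_le_of_decomp hS hm h hM hP hcov hconst T
      (fun c hc => ⟨(hT hc).1, (hT hc).2, h1 c (hT hc).1 (hT hc).2⟩)
    omega
  have h2 : ∀ c : ℝ, ∃ n : ℕ, c ∈ hfin.toFinset → ∃ G : ℕ, c * (p : ℝ) ^ n = G := by
    intro c
    by_cases hc : c ∈ hfin.toFinset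
    · rw [Set.Finite.mem_toFinset] at hc
      obtain ⟨n, G, hG⟩ := h1 c hc.1 hc.2
      exact ⟨n, fun _ => ⟨G, hG⟩⟩
    · exact ⟨0, fun h => absurd h hc⟩
  choose ν hν using h2
  refine ⟨∑ c ∈ hfin.toFinset, ν c, fun c hc hc1 => ?_⟩
  have hmem : c ∈ hfin.toFinset := by
    rw [Set.Finite.mem_toFinset]
    exact ⟨hc, hc1⟩
  obtain ⟨G, hG⟩ := hν c hmem
  have h3 : ν c ≤ ∑ c ∈ hfin.toFinset, ν c := Finset.single_le_sum (fun _ _ => Nat.zero_le _) hmem
  obtain ⟨d, hd⟩ := Nat.exists_eq_add_of_le h3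
  refine ⟨G * p ^ d, ?_⟩
  rw [hd, pow_add, ← mul_assoc, hG]
  push_cast
  rfl

end pair3

end Pool.Agent.Lib.MP_71915d_ag
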