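import Pool.Agent.Lib.MP_71915d_ag.Pair3

set_option autoImplicit false

namespace Pool.Agent.Lib.MP_71915d_ag

open Polynomial

section pair4

variable {p : ℕ} {S : Type*} [CommRing S] [ExpChar S p]

/-- all jumping numbers in `(0,1)` have denominator dividing `p^s` -/
def Padic (p : ℕ) {S : Type*} [CommRing S] [ExpChar S p] (h : S) (s : ℕ) : Prop :=
  ∀ c, FJump p h c → c < 1 → ∃ N : ℕ, c * (p : ℝ) ^ s = N

theorem tau1_of_padic [hp : Fact p.Prime] [IsNoetherianRing S] (hS : FrobProj p S) {h : S}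
    (hh : h ∈ nonZeroDivisors S) {s : ℕ} (hs : Padic p h s) {j : ℕ} (hj : j < p ^ s) {c : ℝ}
    (h1 : (j : ℝ) / (p : ℝ) ^ s ≤ c) (h2 : c < ((j : ℝ) + 1) / (p : ℝ) ^ s) :
    tau1 p h c = tau1 p h ((j : ℝ) / (p : ℝ) ^ s) := by
  have hpR : (0 : ℝ) < p := by exact_mod_cast hp.out.pos
  have hQ : (0 : ℝ) < (p : ℝ) ^ s := by positivity
  refine tau1_const hS hp.out.two_le hh (by positivity) h1 fun c' hc1 hc2 hc3 => ?_
  rw [lt_div_iff₀ hQ] at h2
  rw [div_lt_iff₀ hQ] at hc1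
  have h3 : c' * (p : ℝ) ^ s ≤ c * (p : ℝ) ^ s := mul_le_mul_of_nonneg_right hc2 hQ.le
  have h4 : c' < 1 := by
    by_contra h5
    push Not at h5
    have h6 : (p : ℝ) ^ s ≤ c' * (p : ℝ) ^ s := by nlinarith
    have h7 : (j : ℝ) + 1 ≤ (p : ℝ) ^ s := by exact_mod_cast hj
    linarith
  obtain ⟨N, hN⟩ := hs c' hc3 h4
  rw [hN] at h3 hc1
  have h5 : j < N := by exact_mod_cast hc1
  have h6 : (N : ℝ) < j + 1 := by linarith
  have h7 : N < j + 1 := by exact_mod_cast h6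
  omega

omit [ExpChar S p] in
theorem rt_mul_pow (e : ℕ) (F c : S) : rt p e (c ^ p ^ e * F) = Ideal.span {c} * rt p e F := by
  apply le_antisymm
  · rintro _ ⟨D, hD, rfl⟩
    rw [hD]
    exact Ideal.mul_mem_mul (Ideal.mem_span_singleton_self c) ⟨D, hD, rfl⟩
  · rw [Ideal.mul_le]
    intro a ha b hb
    obtain ⟨a', rfl⟩ := Ideal.mem_span_singleton'.1 ha
    obtain ⟨D, hD, rfl⟩ := hb
    rw [mul_assoc, ← hD]
    exact Ideal.mul_mem_left _ _ ⟨D, hD, rfl⟩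

/-- the monomial part of the main inclusion -/
theorem term_mem [hp : Fact p.Prime] [CharP S p] [IsNoetherianRing S] (hS : FrobProj p S) {m : ℕ}
    (hm : ¬ p ∣ m) {h : S} (hh : h ∈ nonZeroDivisors S) {s : ℕ} (hs : Padic p h s)
    (d A B B1 B0 i : ℕ) (hB : B < p ^ (s + d)) (hBe : B1 * p ^ d + B0 = B) (hB0 : B0 < p ^ d)
    (hi : i ≤ B1) (hch : ¬ p ∣ B1.choose i) {t : S} (ht : t ∈ rt p s (h ^ (B1 - i))) :
    C t * X ^ ((A / p ^ d + m * i) / p ^ s) ∈ rt p (s + d) ((X : S[X]) ^ A * gg m h ^ B) := by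
  have hp0 := hp.out.pos
  have hpR : (0 : ℝ) < p := by exact_mod_cast hp0
  have hd0 : 0 < p ^ d := Nat.pow_pos hp0
  have hB1lt : B1 < p ^ s := by
    have h1 : B1 * p ^ d < p ^ s * p ^ d := by rw [← pow_add]; omega
    exact Nat.lt_of_mul_lt_mul_right h1
  obtain ⟨j1, hji⟩ : ∃ j1, j1 + i = B1 := ⟨B1 - i, by omega⟩
  have hj1 : B1 - i = j1 := by omega
  rw [hj1] at ht
  -- the exponent at level `s + d`
  have hBe2 : B = j1 * p ^ d + B0 + i * p ^ d := by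
    rw [← hBe, ← hji, add_mul]
    ring
  have hj : B - i * p ^ d = j1 * p ^ d + B0 := by omega
  have hle : i * p ^ d ≤ B := by omega
  have hch2 : ¬ p ∣ B.choose (i * p ^ d) := by
    rw [← Nat.choose_symm hle, hj, ← hBe]
    refine not_dvd_choose_lift B1 j1 d B0 hB0 ?_
    rw [← hj1, Nat.choose_symm hi]
    exact hch
  have htau : rt p s (h ^ j1) = rt p (s + d) (h ^ (B - i * p ^ d)) := by
    rw [← tau1_rat hS hp0, ← tau1_rat hS hp0]
    symm
    refine tau1_of_padic hS hh hs (by omega) ?_ ?_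
    · rw [hj, pow_add, div_le_div_iff₀ (by positivity) (by positivity)]
      push_cast
      have : (0 : ℝ) ≤ (B0 : ℝ) * (p : ℝ) ^ s := by positivity
      nlinarith
    · rw [hj, pow_add, div_lt_div_iff₀ (by positivity) (by positivity)]
      push_cast
      have h1 : (B0 : ℝ) < (p : ℝ) ^ d := by exact_mod_cast hB0
      have h2 : (0 : ℝ) < (p : ℝ) ^ s := by positivity
      nlinarith
  have hu : (A + m * (i * p ^ d)) / p ^ (s + d) = (A / p ^ d + m * i) / p ^ s := by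
    rw [pow_add, mul_comm (p ^ s), ← Nat.div_div_eq_div_mul, ← mul_assoc,
      Nat.add_mul_div_right _ _ hd0]
  rw [htau] at ht
  have := lower (p := p) hm h (A := A) hB hle hch2 ht
  rwa [hu] at this

theorem span_mul_map_le {K : Ideal S[X]} {L : Ideal S} {u : ℕ}
    (hlow : ∀ t ∈ L, C t * X ^ u ∈ K) :
    Ideal.span {(X : S[X]) ^ u} * Ideal.map (C : S →+* S[X]) L ≤ K := by
  rw [Ideal.mul_le]
  intro a ha b hb
  obtain ⟨a', rfl⟩ := Ideal.mem_span_singleton'.1 ha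
  rw [mul_assoc]
  apply Ideal.mul_mem_left
  unfold Ideal.map at hb
  refine Submodule.span_induction (p := fun b _ => X ^ u * b ∈ K) ?_ ?_ ?_ ?_ hb
  · rintro _ ⟨t, ht, rfl⟩
    have := hlow t ht
    rwa [mul_comm] at this
  · simp
  · intro a b _ _ ha hb
    rw [mul_add]
    exact Ideal.add_mem _ ha hb
  · intro a b _ hb
    rw [smul_eq_mul, mul_left_comm]
    exact Ideal.mul_mem_left _ _ hb

theorem term_mem_frobMap {K : Ideal S[X]} {L : Ideal S} {u w s : ℕ} {x c : S}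
    (hlow : ∀ t ∈ L, C t * X ^ u ∈ K) (hx : x ∈ frobMap p s L) (hw : w / p ^ s = u) :
    C (x * c) * (X : S[X]) ^ w ∈ frobMap p s K := by
  have h2 : C x * ((X : S[X]) ^ u) ^ p ^ s ∈ frobMap p s K := by
    have h1 : frobMap p s (Ideal.span {(X : S[X]) ^ u} * Ideal.map (C : S →+* S[X]) L) ≤
        frobMap p s K := Ideal.map_mono (span_mul_map_le hlow)
    have h4 : frobMap p s (Ideal.span {(X : S[X]) ^ u} * Ideal.map (C : S →+* S[X]) L) =
        frobMap p s (Ideal.span {(X : S[X]) ^ u}) *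
          frobMap p s (Ideal.map (C : S →+* S[X]) L) := Ideal.map_mul _ _ _
    have h5 : ((X : S[X]) ^ u) ^ p ^ s ∈ frobMap p s (Ideal.span {(X : S[X]) ^ u}) :=
      pow_mem_frobMap (Ideal.mem_span_singleton_self _) s
    have h6 := Ideal.mul_mem_mul h5 (map_C_frobMap L s hx)
    rw [← h4] at h6
    rw [mul_comm (C x)]
    exact h1 h6
  have h3 : C (x * c) * (X : S[X]) ^ w =
      (C c * X ^ (w % p ^ s)) * (C x * ((X : S[X]) ^ u) ^ p ^ s) := by
    have h4 : w = w % p ^ s + u * p ^ s := by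
      rw [← hw, mul_comm]
      exact (Nat.mod_add_div _ _).symm
    have h5 : (X : S[X]) ^ w = X ^ (w % p ^ s) * (X ^ u) ^ p ^ s := by
      rw [← pow_mul, ← pow_add, ← h4]
    rw [C_mul, h5]
    ring
  rw [h3]
  exact Ideal.mul_mem_left _ _ h2

/-- the main inclusion -/
theorem rt_le_rt [hp : Fact p.Prime] [CharP S p] [IsNoetherianRing S] (hS : FrobProj p S) {m : ℕ}
    (hm : ¬ p ∣ m) {h : S} (hh : h ∈ nonZeroDivisors S) {s : ℕ} (hs : Padic p h s) (d A B : ℕ)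
    (hB : B < p ^ (s + d)) :
    rt p s ((X : S[X]) ^ (A / p ^ d) * gg m h ^ (B / p ^ d)) ≤
      rt p (s + d) ((X : S[X]) ^ A * gg m h ^ B) := by
  have hp0 := hp.out.pos
  have hd0 : 0 < p ^ d := Nat.pow_pos hp0
  rw [rt_le_iff (hS.poly hp0), expand m h (A / p ^ d) (B / p ^ d)]
  refine Ideal.sum_mem _ fun i hi => ?_
  rw [Finset.mem_range] at hi
  by_cases hch : p ∣ (B / p ^ d).choose i
  · rw [cast_eq_zero_of_dvd (S := S) hch, mul_zero, C_0, zero_mul]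
    exact Ideal.zero_mem _
  · refine term_mem_frobMap (L := rt p s (h ^ (B / p ^ d - i))) (u := (A / p ^ d + m * i) / p ^ s)
      (fun t ht => ?_) (mem_frobMap_rt hS s _) rfl
    refine term_mem hS hm hh hs d A B (B / p ^ d) (B % p ^ d) i hB ?_ (Nat.mod_lt _ hd0)
      (by omega) hch ht
    rw [mul_comm]; exact Nat.div_add_mod B (p ^ d)

/-- the main inclusion for all exponents -/
theorem rt_le_rt' [hp : Fact p.Prime] [CharP S p] [IsNoetherianRing S] (hS : FrobProj p S) {m : ℕ}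
    (hm : ¬ p ∣ m) {h : S} (hh : h ∈ nonZeroDivisors S) {s : ℕ} (hs : Padic p h s) (d A B : ℕ) :
    rt p s ((X : S[X]) ^ (A / p ^ d) * gg m h ^ (B / p ^ d)) ≤
      rt p (s + d) ((X : S[X]) ^ A * gg m h ^ B) := by
  have hp0 := hp.out.pos
  have hd0 : 0 < p ^ d := Nat.pow_pos hp0
  have hsd0 : 0 < p ^ (s + d) := Nat.pow_pos hp0
  set b := B / p ^ (s + d) with hb
  set B'' := B % p ^ (s + d) with hB''
  have hBe : B = b * p ^ (s + d) + B'' := by
    rw [mul_comm]; exact (Nat.div_add_mod B _).symm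
  have h1 : B / p ^ d = b * p ^ s + B'' / p ^ d := by
    conv_lhs => rw [hBe]
    rw [pow_add, ← mul_assoc, add_comm, Nat.add_mul_div_right _ _ hd0, add_comm]
  have h2 : rt p s (X ^ (A / p ^ d) * gg m h ^ (B / p ^ d)) =
      Ideal.span {gg m h ^ b} * rt p s (X ^ (A / p ^ d) * gg m h ^ (B'' / p ^ d)) := by
    rw [← rt_mul_pow, h1, pow_add, ← pow_mul]
    congr 1
    ring
  have h3 : rt p (s + d) (X ^ A * gg m h ^ B) =
      Ideal.span {gg m h ^ b} * rt p (s + d) (X ^ A * gg m h ^ B'') := by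
    rw [← rt_mul_pow]
    conv_lhs => rw [hBe]
    rw [pow_add, ← pow_mul]
    congr 1
    ring
  rw [h2, h3]
  exact Ideal.mul_mono le_rfl (rt_le_rt hS hm hh hs d A B'' (Nat.mod_lt _ hsd0))

/-- approximation of real numbers from the right inside a grid interval -/
theorem exists_approx [hp : Fact p.Prime] (s : ℕ) {x : ℝ} (hx : 0 ≤ x) :
    ∃ d0 : ℕ, ∀ d, d0 ≤ d → ∃ A : ℕ, x ≤ (A : ℝ) / (p : ℝ) ^ (s + d) ∧
      A / p ^ d = ⌊x * (p : ℝ) ^ s⌋₊ := by
  have hpR : (1 : ℝ) < p := by exact_mod_cast hp.out.one_lt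
  set a := ⌊x * (p : ℝ) ^ s⌋₊ with ha
  have h1 : 0 < (a : ℝ) + 1 - x * (p : ℝ) ^ s := by
    have := Nat.lt_floor_add_one (x * (p : ℝ) ^ s)
    linarith
  obtain ⟨d0, hd0⟩ := pow_unbounded_of_one_lt (1 / ((a : ℝ) + 1 - x * (p : ℝ) ^ s)) hpR
  refine ⟨d0, fun d hd => ⟨⌈x * (p : ℝ) ^ (s + d)⌉₊, ?_, ?_⟩⟩
  · rw [le_div_iff₀ (by positivity)]
    exact Nat.le_ceil _
  · have hdpos : (0 : ℝ) < (p : ℝ) ^ d := by positivity
    have h2 : (p : ℝ) ^ d0 ≤ (p : ℝ) ^ d := pow_le_pow_right₀ hpR.le hd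
    have h3 : 1 < (p : ℝ) ^ d * ((a : ℝ) + 1 - x * (p : ℝ) ^ s) := by
      rw [div_lt_iff₀ h1] at hd0
      nlinarith
    have h4 : (⌈x * (p : ℝ) ^ (s + d)⌉₊ : ℝ) < x * (p : ℝ) ^ (s + d) + 1 :=
      Nat.ceil_lt_add_one (by positivity)
    have h5 : x * (p : ℝ) ^ (s + d) = x * (p : ℝ) ^ s * (p : ℝ) ^ d := by rw [pow_add]; ring
    have h6 : (a : ℝ) ≤ x * (p : ℝ) ^ s := Nat.floor_le (by positivity)
    apply Nat.div_eq_of_lt_le
    · have h7 : ((a * p ^ d : ℕ) : ℝ) ≤ (⌈x * (p : ℝ) ^ (s + d)⌉₊ : ℝ) := by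
        refine le_trans ?_ (Nat.le_ceil _)
        push_cast
        rw [h5]
        exact mul_le_mul_of_nonneg_right h6 hdpos.le
      exact_mod_cast h7
    · have h7 : (⌈x * (p : ℝ) ^ (s + d)⌉₊ : ℝ) < (((a + 1) * p ^ d : ℕ) : ℝ) := by
        push_cast
        rw [h5] at h4 ⊢
        nlinarith
      exact_mod_cast h7

/-- the values on grid squares -/
theorem Phi_eq_corner [hp : Fact p.Prime] [CharP S p] [IsNoetherianRing S] (hS : FrobProj p S)
    {m : ℕ} (hm : ¬ p ∣ m) {h : S} (hh : h ∈ nonZeroDivisors S) {s : ℕ} (hs : Padic p h s)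
    (x : Fin 2 → ℝ) (hx : ∀ i, 0 ≤ x i) :
    Phi p m h x = rt p s ((X : S[X]) ^ ⌊x 0 * (p : ℝ) ^ s⌋₊ * gg m h ^ ⌊x 1 * (p : ℝ) ^ s⌋₊) := by
  have hp0 := hp.out.pos
  have hpR : (0 : ℝ) < p := by exact_mod_cast hp0
  have hQ : (0 : ℝ) < (p : ℝ) ^ s := by positivity
  apply le_antisymm
  · rw [← Phi_rat hS hp0]
    refine Phi_anti m h fun i => ?_
    fin_cases i
    · change (⌊x 0 * (p : ℝ) ^ s⌋₊ : ℝ) / (p : ℝ) ^ s ≤ x 0
      rw [div_le_iff₀ hQ]
      exact Nat.floor_le (mul_nonneg (hx 0) hQ.le)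
    · change (⌊x 1 * (p : ℝ) ^ s⌋₊ : ℝ) / (p : ℝ) ^ s ≤ x 1
      rw [div_le_iff₀ hQ]
      exact Nat.floor_le (mul_nonneg (hx 1) hQ.le)
  · obtain ⟨d0, h0⟩ := exists_approx (p := p) s (hx 0)
    obtain ⟨d1, h1⟩ := exists_approx (p := p) s (hx 1)
    obtain ⟨A, hA1, hA2⟩ := h0 (max d0 d1) (le_max_left _ _)
    obtain ⟨B, hB1, hB2⟩ := h1 (max d0 d1) (le_max_right _ _)
    rw [← hA2, ← hB2]
    refine (rt_le_rt' hS hm hh hs (max d0 d1) A B).trans ?_
    rw [← Phi_rat hS hp0]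
    refine Phi_anti m h fun i => ?_
    fin_cases i
    · exact hA1
    · exact hB1

/-- the converse implication -/
theorem decomposition_of_padic [hp : Fact p.Prime] [CharP S p] [IsNoetherianRing S]
    (hS : FrobProj p S) {m : ℕ} (hm : ¬ p ∣ m) {h : S} (hh : h ∈ nonZeroDivisors S) {s : ℕ}
    (hs : Padic p h s) (M : ℝ) : HasRationalDecomposition (Phi p m h) M := by
  refine grid_decomposition (Q := p ^ s) (Nat.pow_pos hp.out.pos) (fun x y hx hy hxy => ?_) M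
  rw [Phi_eq_corner hS hm hh hs x hx, Phi_eq_corner hS hm hh hs y hy]
  have h0 := hxy 0
  have h1 := hxy 1
  push_cast at h0 h1
  rw [h0, h1]

end pair4

end Pool.Agent.Lib.MP_71915d_ag
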