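import Pool.Agent.Lib.MP_71915d_ag.Iter

set_option autoImplicit false

namespace Pool.Agent.Lib.MP_71915d_ag

open MvPolynomial

section perf

variable {p : ℕ} {k : Type*} [Field k] [ExpChar k p] [PerfectRing k p]

/-- `p^e`-th roots -/
noncomputable def root (p : ℕ) (k : Type*) [Field k] [ExpChar k p] [PerfectRing k p] (e : ℕ) :
    k →+ k := ((iterateFrobeniusEquiv k p e).symm : k ≃+* k).toRingHom.toAddMonoidHom

theorem root_pow (e : ℕ) (x : k) : (root p k e x) ^ p ^ e = x := by
  have := (iterateFrobeniusEquiv k p e).apply_symm_apply x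
  rwa [iterateFrobeniusEquiv_def] at this

theorem root_unique {e : ℕ} {x y : k} (h : y ^ p ^ e = x) : root p k e x = y := by
  apply (iterateFrobeniusEquiv k p e).injective
  rw [iterateFrobeniusEquiv_def, iterateFrobeniusEquiv_def, root_pow, h]

theorem isCart_root (e : ℕ) : IsCart p e (root p k e) := by
  intro r s
  apply root_unique
  rw [mul_pow, root_pow]

theorem root_one (e : ℕ) : root p k e 1 = 1 := root_unique (one_pow _)

theorem split_perf : Split p k := fun e => ⟨root p k e, isCart_root e, root_one e⟩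

theorem root_succ_pow (e : ℕ) (x : k) : (root p k (e + 1) x) ^ p = root p k e x := by
  symm
  apply root_unique
  rw [← pow_mul, ← pow_succ', root_pow]

theorem FF_perf (z : ℕ → k) (hp : 0 < p) (n : ℕ) :
    FF p z (fun _ => 0) n = lin (z 0) * cub 0 ^ (p ^ n - 1) := by
  induction n with
  | zero => simp [FF]
  | succ n ih =>
    unfold FF
    rw [ih, ← pow_mul, mul_assoc, ← pow_add]
    congr 2
    have h1 : 1 ≤ p ^ n := Nat.one_le_pow _ _ hp
    obtain ⟨q, rfl⟩ : ∃ q, p = q + 1 := ⟨p - 1, by omega⟩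
    rw [pow_succ, Nat.add_sub_cancel]
    have h2 : (q + 1) ^ n * (q + 1) = q * (q + 1) ^ n + (q + 1) ^ n := by ring
    omega

/-- infinitely many values for the pair `x + t y`, `x y (x + y)` -/
theorem infinite_perf (hp : 2 ≤ p) (t : k) (ht : ∀ n, 0 < n → t ^ p ^ n ≠ t) :
    NoClosedDecomposition
      (mixedTestIdeal p (fun i => Ideal.span {(![lin t, cub 0] : Fin 2 → MvPolynomial (Fin 2) k) i})) 1 ∧
    (mixedTestIdeal p (fun i => Ideal.span {(![lin t, cub 0] : Fin 2 → MvPolynomial (Fin 2) k) i}) ''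
      box 2 1).Infinite := by
  have hp0 : 0 < p := by omega
  set z : ℕ → k := fun n => root p k n t with hz
  have hz0 : z 0 = t := by
    simp only [hz]
    apply root_unique
    simp
  have hzs : ∀ n, z (n + 1) ^ p = z n - 0 + 0 ^ p := by
    intro n
    simp only [hz]
    rw [root_succ_pow, sub_zero, zero_pow (by omega), add_zero]
  have hzinj : ∀ n m, n < m → z n ≠ z m := by
    intro n m hnm h
    apply ht (m - n) (by omega)
    have h1 : z n ^ p ^ m = t ^ p ^ (m - n) := by
      have : m = n + (m - n) := by omega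
      conv_lhs => rw [this, pow_add, pow_mul]
      simp only [hz]
      rw [root_pow]
    have h2 : z m ^ p ^ m = t := root_pow m t
    rw [← h1, h, h2]
  have hprod : ∀ n, ∏ i, (![lin t, cub 0] : Fin 2 → MvPolynomial (Fin 2) k) i ^
      (![1, p ^ (n + 1) - 1] : Fin 2 → ℕ) i = FF p z (fun _ => 0) (n + 1) := by
    intro n
    rw [FF_perf z hp0, hz0]
    simp [Fin.prod_univ_two]
  have hC : ∀ n, ∃ D : MvPolynomial (Fin 2) k →+ MvPolynomial (Fin 2) k, IsCart p (n + 1) D ∧
      D (FF p z (fun _ => 0) (n + 1)) - lin (z (n + 1)) ∈ M2 k := fun n =>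
    exists_cart hp (root p k 1) (isCart_root 1) (root_one 1) z (fun _ => 0) hzs (n + 1)
  choose D hD1 hD2 using hC
  have hQ : 0 < p ^ 2 := Nat.pow_pos hp0
  have h4 : 2 ^ 2 ≤ p ^ 2 := Nat.pow_le_pow_left hp 2
  refine core (by omega) (split_mvPolynomial hp0 split_perf) _ (fun n => n + 1)
    (fun n => ![1, p ^ (n + 1) - 1]) (fun n => LL (z (n + 1)))
    (fun n => D n (FF p z (fun _ => 0) (n + 1))) 2 (cart (root p k 2) hQ (ex 3 1)) ?_ ?_ ?_ ?_ ?_ ?_
  · refine isCart_cart _ (isCart_root 2) hQ _ ?_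
    intro i
    fin_cases i
    · change ex 3 1 0 < p ^ 2
      rw [ex_zero]; omega
    · change ex 3 1 1 < p ^ 2
      rw [ex_one]; omega
  · have : (∏ i, (![lin t, cub 0] : Fin 2 → MvPolynomial (Fin 2) k) i) = lin t * cub 0 := by
      simp [Fin.prod_univ_two]
    rw [this]
    exact cart_two _ (root_one 2) hQ t
  · intro n
    rw [hprod]
    exact FF_mem hp z _ hzs (n + 1)
  · intro n
    refine ⟨D n, hD1 n, ?_⟩
    rw [hprod]
  · intro n m hnm hmem
    have h1 := eq_of_mem_LL (hD2 n) hmem
    rcases lt_or_gt_of_ne hnm with h | h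
    · exact hzinj (n + 1) (m + 1) (by omega) h1
    · exact hzinj (m + 1) (n + 1) (by omega) h1.symm
  · intro n i
    have h1 : 1 < p ^ (n + 1) := Nat.one_lt_pow (by omega) (by omega)
    fin_cases i
    · exact h1
    · change p ^ (n + 1) - 1 < p ^ (n + 1)
      omega

end perf

end Pool.Agent.Lib.MP_71915d_ag
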