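import Pool.Agent.Lib.MP_71915d_ag.Pair4

set_option autoImplicit false

namespace Pool.Agent.Lib.MP_71915d_ag

section ufd

variable {S : Type*} [CommRing S] [IsDomain S] [UniqueFactorizationMonoid S]

omit [UniqueFactorizationMonoid S] in
theorem pow_dvd_cancel {π q a : S} (hπ : Prime π) (hq : Prime q) {k : ℕ}
    (h : π ^ (k + 1) ∣ q * a) : π ^ k ∣ a := by
  by_cases hd : π ∣ q
  · obtain ⟨u, hu⟩ := hd
    have hunit : IsUnit u := by
      rcases hq.irreducible.isUnit_or_isUnit hu with h1 | h1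
      · exact absurd h1 hπ.not_unit
      · exact h1
    rw [hu, pow_succ', mul_assoc] at h
    have h2 := (mul_dvd_mul_iff_left hπ.ne_zero).1 h
    exact (hunit.dvd_mul_left).1 h2
  · have h1 : π ^ (k + 1) ∣ a := hπ.pow_dvd_of_dvd_mul_left _ hd h
    exact (pow_dvd_pow π (Nat.le_succ k)).trans h1

omit [UniqueFactorizationMonoid S] in
theorem le_of_pow_dvd {π z : S} (hπ : Prime π) (hz : ¬ π ∣ z) {k a : ℕ}
    (h : π ^ k ∣ π ^ a * z) : k ≤ a := by
  by_contra hcon
  push Not at hcon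
  apply hz
  have h1 : π ^ (a + 1) ∣ π ^ a * z := (pow_dvd_pow π hcon).trans h
  rw [pow_succ] at h1
  exact (mul_dvd_mul_iff_left (pow_ne_zero a hπ.ne_zero)).1 h1

/-- the exponents of primes are bounded -/
theorem exists_bound {D : S} (hD : D ≠ 0) : ∃ N : ℕ, ∀ π : S, Prime π → ∀ k, π ^ k ∣ D → k ≤ N := by
  induction D using UniqueFactorizationMonoid.induction_on_prime with
  | h₁ => exact absurd rfl hD
  | h₂ u hu =>
    refine ⟨0, fun π hπ k hk => ?_⟩
    by_contra hcon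
    push Not at hcon
    have h1 : π ∣ u := (dvd_pow_self π hcon.ne').trans hk
    exact hπ.not_unit (isUnit_of_dvd_unit h1 hu)
  | h₃ a q ha hq ih =>
    obtain ⟨N, hN⟩ := ih ha
    refine ⟨N + 1, fun π hπ k hk => ?_⟩
    cases k with
    | zero => omega
    | succ k =>
      have := hN π hπ k (pow_dvd_cancel hπ hq hk)
      omega

/-- exact exponents -/
theorem exists_exact {D : S} (hD : D ≠ 0) {π : S} (hπ : Prime π) :
    ∃ (e : ℕ) (z : S), D = π ^ e * z ∧ ¬ π ∣ z := by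
  obtain ⟨N, hN⟩ := exists_bound hD
  classical
  let e := Nat.findGreatest (fun k => π ^ k ∣ D) N
  have h1 : π ^ e ∣ D := by
    have : (fun k => π ^ k ∣ D) e := Nat.findGreatest_spec (P := fun k => π ^ k ∣ D)
      (Nat.zero_le N) (by simp)
    exact this
  obtain ⟨z, hz⟩ := h1
  refine ⟨e, z, hz, ?_⟩
  rintro ⟨w, rfl⟩
  have h2 : π ^ (e + 1) ∣ D := ⟨w, by rw [hz, pow_succ, mul_assoc]⟩
  have h3 := hN π hπ _ h2
  have h4 : e + 1 ≤ e := Nat.le_findGreatest h3 h2
  omega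

theorem dvd_of_forall_prime_pow {a b : S} (hb : b ≠ 0)
    (h : ∀ π : S, Prime π → ∀ k, π ^ k ∣ a → π ^ k ∣ b) (ha : a ≠ 0) : a ∣ b := by
  induction a using UniqueFactorizationMonoid.induction_on_prime generalizing b with
  | h₁ => exact absurd rfl ha
  | h₂ u hu => exact hu.dvd
  | h₃ a q ha' hq ih =>
    have hqb : q ∣ b := by
      have := h q hq 1 (by rw [pow_one]; exact dvd_mul_right _ _)
      rwa [pow_one] at this
    obtain ⟨b', rfl⟩ := hqb
    have hb' : b' ≠ 0 := right_ne_zero_of_mul hb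
    refine mul_dvd_mul_left q (ih hb' (fun π hπ k hk => ?_) ha')
    by_cases hd : π ∣ q
    · obtain ⟨u, hu⟩ := hd
      have hunit : IsUnit u := by
        rcases hq.irreducible.isUnit_or_isUnit hu with h1 | h1
        · exact absurd h1 hπ.not_unit
        · exact h1
      have h1 : π ^ (k + 1) ∣ q * a := by
        rw [hu, pow_succ', mul_assoc]
        exact mul_dvd_mul_left _ (hk.mul_left _)
      exact pow_dvd_cancel hπ hq (h π hπ (k + 1) h1)
    · exact hπ.pow_dvd_of_dvd_mul_left _ hd (h π hπ k (hk.mul_left _))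

end ufd

section grid

variable {p : ℕ}

/-- the roots of powers of `h` are constant on the grid intervals of level `s` -/
def Grid (p : ℕ) {S : Type*} [CommRing S] (h : S) (s : ℕ) : Prop :=
  ∀ d j r : ℕ, r < p ^ d → rt p s (h ^ j) ≤ rt p (s + d) (h ^ (j * p ^ d + r))

variable {S : Type*} [CommRing S] [ExpChar S p]

theorem rt_le_span_iff (hS : FrobProj p S) {e : ℕ} {F z : S} :
    rt p e F ≤ Ideal.span {z} ↔ z ^ p ^ e ∣ F := by
  rw [rt_le_iff hS]
  unfold frobMap
  rw [Ideal.map_span, Set.image_singleton, iterateFrobenius_def, Ideal.mem_span_singleton]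

/-- principal ideal domains -/
theorem grid_of_orders [hp : Fact p.Prime] [IsDomain S] [IsPrincipalIdealRing S]
    (hS : FrobProj p S) {h : S} (hh : h ≠ 0) {s : ℕ}
    (hs : ∀ π : S, Prime π → π ∣ h → ∃ t, t ≤ s ∧ π ^ p ^ t ∣ h ∧ ¬ π ^ (p ^ t + 1) ∣ h) :
    Grid p h s := by
  have hp0 := hp.out.pos
  intro d j r hr
  obtain ⟨z, hz⟩ := (IsPrincipalIdealRing.principal (rt p (s + d) (h ^ (j * p ^ d + r)))).principal
  have hz' : rt p (s + d) (h ^ (j * p ^ d + r)) = Ideal.span {z} := hz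
  rw [hz', rt_le_span_iff hS]
  have h1 : z ^ p ^ (s + d) ∣ h ^ (j * p ^ d + r) := by
    rw [← rt_le_span_iff hS, hz']
  have hz0 : z ≠ 0 := by
    rintro rfl
    rw [zero_pow (Nat.pow_pos hp0).ne', zero_dvd_iff] at h1
    exact pow_ne_zero _ hh h1
  refine dvd_of_forall_prime_pow (pow_ne_zero _ hh) (fun π hπ k hk => ?_) (pow_ne_zero _ hz0)
  obtain ⟨e, z', hz1, hz2⟩ := exists_exact hz0 hπ
  have hk2 : k ≤ e * p ^ s := by
    rw [hz1, mul_pow, ← pow_mul] at hk
    exact le_of_pow_dvd hπ (fun hd => hz2 (hπ.dvd_of_dvd_pow hd)) hk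
  by_cases hd : π ∣ h
  · obtain ⟨t, hts, ht1, ht2⟩ := hs π hπ hd
    obtain ⟨y, hy⟩ := ht1
    have hy2 : ¬ π ∣ y := by
      rintro ⟨w, rfl⟩
      apply ht2
      exact ⟨w, by rw [hy, pow_succ, mul_assoc]⟩
    have h2 : π ^ (e * p ^ (s + d)) ∣ h ^ (j * p ^ d + r) := by
      refine dvd_trans ?_ h1
      rw [hz1, mul_pow, ← pow_mul]
      exact dvd_mul_right _ _
    have h3 : e * p ^ (s + d) ≤ p ^ t * (j * p ^ d + r) := by
      rw [hy, mul_pow, ← pow_mul] at h2
      exact le_of_pow_dvd hπ (fun hd => hy2 (hπ.dvd_of_dvd_pow hd)) h2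
    -- divide
    obtain ⟨v, rfl⟩ := Nat.exists_eq_add_of_le hts
    have h4 : p ^ t * ((e * p ^ v) * p ^ d) ≤ p ^ t * (j * p ^ d + r) := by
      calc p ^ t * ((e * p ^ v) * p ^ d) = e * p ^ (t + v + d) := by rw [pow_add, pow_add]; ring
        _ ≤ _ := h3
    have h5 : (e * p ^ v) * p ^ d ≤ j * p ^ d + r :=
      Nat.le_of_mul_le_mul_left h4 (Nat.pow_pos hp0)
    have h6 : e * p ^ v ≤ j := by
      by_contra hcon
      push Not at hcon
      have h7 : (j + 1) * p ^ d ≤ (e * p ^ v) * p ^ d := Nat.mul_le_mul_right _ hcon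
      rw [add_mul, one_mul] at h7
      omega
    have h8 : k ≤ p ^ t * j := by
      calc k ≤ e * p ^ (t + v) := hk2
        _ = p ^ t * (e * p ^ v) := by rw [pow_add]; ring
        _ ≤ p ^ t * j := Nat.mul_le_mul_left _ h6
    rw [hy, mul_pow, ← pow_mul]
    exact (pow_dvd_pow π h8).mul_right _
  · have h2 : e = 0 := by
      by_contra he
      apply hd
      have h3 : π ∣ z := by rw [hz1]; exact (dvd_pow_self π he).mul_right _
      have h4 : π ∣ h ^ (j * p ^ d + r) :=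
        (h3.trans (dvd_pow_self z (Nat.pow_pos hp0).ne')).trans h1
      exact hπ.dvd_of_dvd_pow h4
    rw [h2, zero_mul] at hk2
    have : k = 0 := by omega
    rw [this, pow_zero]
    exact one_dvd _

/-- the monomial part of the main inclusion -/
theorem term_mem_grid [hp : Fact p.Prime] [CharP S p] {m : ℕ}
    (hm : ¬ p ∣ m) {h : S} {s : ℕ} (hs : Grid p h s)
    (d A B B1 B0 i : ℕ) (hB : B < p ^ (s + d)) (hBe : B1 * p ^ d + B0 = B) (hB0 : B0 < p ^ d)
    (hi : i ≤ B1) (hch : ¬ p ∣ B1.choose i) {t : S} (ht : t ∈ rt p s (h ^ (B1 - i))) :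
    Polynomial.C t * Polynomial.X ^ ((A / p ^ d + m * i) / p ^ s) ∈
      rt p (s + d) ((Polynomial.X : Polynomial S) ^ A * gg m h ^ B) := by
  have hp0 := hp.out.pos
  have hd0 : 0 < p ^ d := Nat.pow_pos hp0
  obtain ⟨j1, hji⟩ : ∃ j1, j1 + i = B1 := ⟨B1 - i, by omega⟩
  have hj1 : B1 - i = j1 := by omega
  rw [hj1] at ht
  have hBe2 : B = j1 * p ^ d + B0 + i * p ^ d := by
    rw [← hBe, ← hji, add_mul]
    ring
  have hj : B - i * p ^ d = j1 * p ^ d + B0 := by omega
  have hle : i * p ^ d ≤ B := by omega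
  have hch2 : ¬ p ∣ B.choose (i * p ^ d) := by
    rw [← Nat.choose_symm hle, hj, ← hBe]
    refine not_dvd_choose_lift B1 j1 d B0 hB0 ?_
    rw [← hj1, Nat.choose_symm hi]
    exact hch
  have htau : rt p s (h ^ j1) ≤ rt p (s + d) (h ^ (B - i * p ^ d)) := by
    rw [hj]
    exact hs d j1 B0 hB0
  have hu : (A + m * (i * p ^ d)) / p ^ (s + d) = (A / p ^ d + m * i) / p ^ s := by
    rw [pow_add, mul_comm (p ^ s), ← Nat.div_div_eq_div_mul, ← mul_assoc,
      Nat.add_mul_div_right _ _ hd0]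
  have := lower (p := p) hm h (A := A) hB hle hch2 (htau ht)
  rwa [hu] at this

/-- the main inclusion -/
theorem rt_le_rt_grid [hp : Fact p.Prime] [CharP S p] (hS : FrobProj p S) {m : ℕ}
    (hm : ¬ p ∣ m) {h : S} {s : ℕ} (hs : Grid p h s) (d A B : ℕ)
    (hB : B < p ^ (s + d)) :
    rt p s ((Polynomial.X : Polynomial S) ^ (A / p ^ d) * gg m h ^ (B / p ^ d)) ≤
      rt p (s + d) ((Polynomial.X : Polynomial S) ^ A * gg m h ^ B) := by
  have hp0 := hp.out.pos
  have hd0 : 0 < p ^ d := Nat.pow_pos hp0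
  rw [rt_le_iff (hS.poly hp0), expand m h (A / p ^ d) (B / p ^ d)]
  refine Ideal.sum_mem _ fun i hi => ?_
  rw [Finset.mem_range] at hi
  by_cases hch : p ∣ (B / p ^ d).choose i
  · rw [cast_eq_zero_of_dvd (S := S) hch, mul_zero, Polynomial.C_0, zero_mul]
    exact Ideal.zero_mem _
  · refine term_mem_frobMap (L := rt p s (h ^ (B / p ^ d - i))) (u := (A / p ^ d + m * i) / p ^ s)
      (fun t ht => ?_) (mem_frobMap_rt hS s _) rfl
    refine term_mem_grid hm hs d A B (B / p ^ d) (B % p ^ d) i hB ?_ (Nat.mod_lt _ hd0)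
      (by omega) hch ht
    rw [mul_comm]; exact Nat.div_add_mod B (p ^ d)

/-- the main inclusion for all exponents -/
theorem rt_le_rt_grid' [hp : Fact p.Prime] [CharP S p] (hS : FrobProj p S) {m : ℕ}
    (hm : ¬ p ∣ m) {h : S} {s : ℕ} (hs : Grid p h s) (d A B : ℕ) :
    rt p s ((Polynomial.X : Polynomial S) ^ (A / p ^ d) * gg m h ^ (B / p ^ d)) ≤
      rt p (s + d) ((Polynomial.X : Polynomial S) ^ A * gg m h ^ B) := by
  have hp0 := hp.out.pos
  have hd0 : 0 < p ^ d := Nat.pow_pos hp0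
  have hsd0 : 0 < p ^ (s + d) := Nat.pow_pos hp0
  set b := B / p ^ (s + d) with hb
  set B'' := B % p ^ (s + d) with hB''
  have hBe : B = b * p ^ (s + d) + B'' := by
    rw [mul_comm]; exact (Nat.div_add_mod B _).symm
  have h1 : B / p ^ d = b * p ^ s + B'' / p ^ d := by
    conv_lhs => rw [hBe]
    rw [pow_add, ← mul_assoc, add_comm, Nat.add_mul_div_right _ _ hd0, add_comm]
  have h2 : rt p s ((Polynomial.X : Polynomial S) ^ (A / p ^ d) * gg m h ^ (B / p ^ d)) =
      Ideal.span {gg m h ^ b} *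
        rt p s (Polynomial.X ^ (A / p ^ d) * gg m h ^ (B'' / p ^ d)) := by
    rw [← rt_mul_pow, h1, pow_add, ← pow_mul]
    congr 1
    ring
  have h3 : rt p (s + d) ((Polynomial.X : Polynomial S) ^ A * gg m h ^ B) =
      Ideal.span {gg m h ^ b} * rt p (s + d) (Polynomial.X ^ A * gg m h ^ B'') := by
    rw [← rt_mul_pow]
    conv_lhs => rw [hBe]
    rw [pow_add, ← pow_mul]
    congr 1
    ring
  rw [h2, h3]
  exact Ideal.mul_mono le_rfl (rt_le_rt_grid hS hm hs d A B'' (Nat.mod_lt _ hsd0))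

end grid

end Pool.Agent.Lib.MP_71915d_ag
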