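import Pool.Agent.Lib.MP_71915d_ag.Cart

set_option autoImplicit false

namespace Pool.Agent.Lib.MP_71915d_ag

open MvPolynomial

section poly

variable {A : Type*} [CommRing A]

/-- the variable `x` -/
noncomputable abbrev xx : MvPolynomial (Fin 2) A := X 0
/-- the variable `y` -/
noncomputable abbrev yy : MvPolynomial (Fin 2) A := X 1

/-- the linear form `x + z y` -/
noncomputable def lin (z : A) : MvPolynomial (Fin 2) A := xx + C z * yy

/-- the cubic form `X y (X + y)`, where `X = x + τ y` -/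
noncomputable def cub (τ : A) : MvPolynomial (Fin 2) A := lin τ * yy * (lin τ + yy)

/-- the ideal `(x^2, x y, y^2)` -/
noncomputable def M2 (A : Type*) [CommRing A] : Ideal (MvPolynomial (Fin 2) A) :=
  Ideal.span {xx ^ 2, xx * yy, yy ^ 2}

/-- the ideal `(x + z y) + (x^2, x y, y^2)` -/
noncomputable def LL (z : A) : Ideal (MvPolynomial (Fin 2) A) := Ideal.span {lin z} ⊔ M2 A

/-- evaluation in the dual numbers -/
noncomputable def ev (z : A) : MvPolynomial (Fin 2) A →ₐ[A] DualNumber A :=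
  aeval ![-(z • DualNumber.eps), DualNumber.eps]

theorem ev_lin (z w : A) : ev z (lin w) = (w - z) • DualNumber.eps := by
  unfold ev lin
  simp only [map_add, map_mul, aeval_X, algHom_C, Matrix.cons_val_zero, Matrix.cons_val_one]
  rw [sub_smul, ← Algebra.smul_def]
  abel

theorem M2_le (z : A) : M2 A ≤ RingHom.ker (ev z).toRingHom := by
  unfold M2
  rw [Ideal.span_le]
  have he : (DualNumber.eps : DualNumber A) * DualNumber.eps = 0 := DualNumber.eps_mul_eps
  rintro _ (rfl | rfl | rfl)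
  · change ev z (xx ^ 2) = 0
    simp [ev, pow_two]
  · change ev z (xx * yy) = 0
    simp [ev]
  · change ev z (yy ^ 2) = 0
    simp [ev, pow_two]

theorem LL_le (z : A) : LL z ≤ RingHom.ker (ev z).toRingHom := by
  unfold LL
  refine sup_le ?_ (M2_le z)
  rw [Ideal.span_singleton_le_iff_mem]
  change ev z (lin z) = 0
  rw [ev_lin, sub_self, zero_smul]

theorem eq_of_mem_LL {z w : A} {u : MvPolynomial (Fin 2) A} (h1 : u - lin w ∈ M2 A)
    (h2 : u ∈ LL z) : w = z := by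
  have h3 : ev z (u - lin w) = 0 := M2_le z h1
  have h4 : ev z u = 0 := LL_le z h2
  rw [map_sub, h4, zero_sub, neg_eq_zero, ev_lin] at h3
  have h5 := congrArg TrivSqZeroExt.snd h3
  simp only [TrivSqZeroExt.snd_smul, DualNumber.snd_eps, smul_eq_mul, mul_one,
    TrivSqZeroExt.snd_zero] at h5
  exact sub_eq_zero.1 h5

theorem sq_mem (τ : A) : lin τ ^ 2 ∈ M2 A := by
  have h1 : (xx ^ 2 : MvPolynomial (Fin 2) A) ∈ M2 A := Ideal.subset_span (by simp)
  have h2 : (xx * yy : MvPolynomial (Fin 2) A) ∈ M2 A := Ideal.subset_span (by simp)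
  have h3 : (yy ^ 2 : MvPolynomial (Fin 2) A) ∈ M2 A := Ideal.subset_span (by simp)
  have : lin τ ^ 2 = xx ^ 2 + 2 * C τ * (xx * yy) + C τ ^ 2 * yy ^ 2 := by unfold lin; ring
  rw [this]
  exact (M2 A).add_mem ((M2 A).add_mem h1 ((M2 A).mul_mem_left _ h2)) ((M2 A).mul_mem_left _ h3)

theorem xy_mem (τ : A) : lin τ * yy ∈ M2 A := by
  have h2 : (xx * yy : MvPolynomial (Fin 2) A) ∈ M2 A := Ideal.subset_span (by simp)
  have h3 : (yy ^ 2 : MvPolynomial (Fin 2) A) ∈ M2 A := Ideal.subset_span (by simp)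
  have : lin τ * yy = xx * yy + C τ * yy ^ 2 := by unfold lin; ring
  rw [this]
  exact (M2 A).add_mem h2 ((M2 A).mul_mem_left _ h3)

theorem yy_mem : (yy ^ 2 : MvPolynomial (Fin 2) A) ∈ M2 A := Ideal.subset_span (by simp)

theorem M2_eq (τ : A) : M2 A = Ideal.span {lin τ ^ 2, lin τ * yy, yy ^ 2} := by
  apply le_antisymm
  · unfold M2
    rw [Ideal.span_le]
    set S := Ideal.span {lin τ ^ 2, lin τ * yy, yy ^ 2} with hS
    have h1 : lin τ ^ 2 ∈ S := Ideal.subset_span (by simp)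
    have h2 : lin τ * yy ∈ S := Ideal.subset_span (by simp)
    have h3 : yy ^ 2 ∈ S := Ideal.subset_span (by simp)
    rintro _ (rfl | rfl | rfl)
    · have : (xx ^ 2 : MvPolynomial (Fin 2) A) =
          lin τ ^ 2 - 2 * C τ * (lin τ * yy) + C τ ^ 2 * yy ^ 2 := by unfold lin; ring
      rw [SetLike.mem_coe, this]
      exact S.add_mem (S.sub_mem h1 (S.mul_mem_left _ h2)) (S.mul_mem_left _ h3)
    · have : (xx * yy : MvPolynomial (Fin 2) A) = lin τ * yy - C τ * yy ^ 2 := by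
        unfold lin; ring
      rw [SetLike.mem_coe, this]
      exact S.sub_mem h2 (S.mul_mem_left _ h3)
    · exact h3
  · rw [Ideal.span_le]
    rintro _ (rfl | rfl | rfl)
    · exact sq_mem τ
    · exact xy_mem τ
    · exact yy_mem

theorem add_pow_form {S : Type*} [CommRing S] (a b : S) (n : ℕ) :
    ∃ r, (a + b) ^ (n + 1) = a ^ (n + 1) + b ^ (n + 1) + a * b * r := by
  induction n with
  | zero => exact ⟨0, by ring⟩
  | succ n ih =>
    obtain ⟨r, hr⟩ := ih
    refine ⟨a ^ n + b ^ n + r * (a + b), ?_⟩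
    rw [pow_succ, hr]
    ring

variable {p : ℕ} [ExpChar A p]

theorem pow_p_mem {m : MvPolynomial (Fin 2) A} (h : m ∈ M2 A) : m ^ p ∈ frobMap p 1 (M2 A) := by
  have := pow_mem_frobMap (p := p) h 1
  rwa [pow_one] at this

/-- (S1) -/
theorem step1 (hp : 2 ≤ p) {τ z z' : A} (hz : z' ^ p = z - τ + τ ^ p) :
    ∃ m ∈ frobMap p 1 (M2 A), cub τ ^ (p - 1) * lin z = lin z' ^ p * (lin τ * yy) ^ (p - 1) + m := by
  obtain ⟨q, rfl⟩ : ∃ q, p = q + 2 := ⟨p - 2, by omega⟩
  set T : MvPolynomial (Fin 2) A := lin τ with hT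
  obtain ⟨r, hr⟩ := add_pow_form T yy q
  have hlin : lin z = T + C (z - τ) * yy := by
    rw [hT]; unfold lin; rw [C_sub]; ring
  have hTp : T ^ (q + 2) = xx ^ (q + 2) + C (τ ^ (q + 2)) * yy ^ (q + 2) := by
    rw [hT]; unfold lin
    rw [add_pow_expChar, mul_pow, C_pow]
  have hz' : lin z' ^ (q + 2) = T ^ (q + 2) + C (z - τ) * yy ^ (q + 2) := by
    rw [hTp]; unfold lin
    rw [add_pow_expChar, mul_pow, ← C_pow, hz, C_add]
    ring
  refine ⟨(T * yy) ^ (q + 2) * (C (z - τ) * T ^ q + yy ^ q + r * (T + C (z - τ) * yy)), ?_, ?_⟩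
  · exact Ideal.mul_mem_right _ _ (pow_p_mem (xy_mem τ))
  · have h1 : q + 2 - 1 = q + 1 := rfl
    rw [h1, hz', hlin]
    unfold cub
    rw [← hT, mul_pow, hr]
    ring

/-- (S2) -/
theorem step2 (hp : 2 ≤ p) (τ : A) {m : MvPolynomial (Fin 2) A} (hm : m ∈ M2 A) :
    cub τ ^ (p - 1) * m ∈ frobMap p 1 (M2 A) := by
  obtain ⟨q, rfl⟩ : ∃ q, p = q + 2 := ⟨p - 2, by omega⟩
  set T : MvPolynomial (Fin 2) A := lin τ with hT
  obtain ⟨r, hr⟩ := add_pow_form T yy q
  have h1 : (T ^ 2) ^ (q + 2) ∈ frobMap (q + 2) 1 (M2 A) := pow_p_mem (sq_mem τ)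
  have h2 : (T * yy) ^ (q + 2) ∈ frobMap (q + 2) 1 (M2 A) := pow_p_mem (xy_mem τ)
  have h3 : (yy ^ 2) ^ (q + 2) ∈ frobMap (q + 2) 1 (M2 A) := pow_p_mem yy_mem
  have hc : cub τ ^ (q + 2 - 1) = (T * yy) ^ (q + 1) * (T ^ (q + 1) + yy ^ (q + 1) + T * yy * r) := by
    have h1 : q + 2 - 1 = q + 1 := rfl
    rw [h1]
    unfold cub
    rw [← hT, mul_pow, hr]
  rw [M2_eq τ, ← hT] at hm
  rw [hc]
  refine Submodule.span_induction (p := fun m _ =>
    (T * yy) ^ (q + 1) * (T ^ (q + 1) + yy ^ (q + 1) + T * yy * r) * m ∈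
      frobMap (q + 2) 1 (M2 A)) ?_ ?_ ?_ ?_ hm
  · rintro _ (rfl | rfl | rfl)
    · have : (T * yy) ^ (q + 1) * (T ^ (q + 1) + yy ^ (q + 1) + T * yy * r) * T ^ 2 =
          (T ^ 2) ^ (q + 2) * yy ^ (q + 1) + (T * yy) ^ (q + 2) * (T * yy ^ q + T ^ 2 * r) := by
        ring
      rw [this]
      exact Ideal.add_mem _ (Ideal.mul_mem_right _ _ h1) (Ideal.mul_mem_right _ _ h2)
    · have : (T * yy) ^ (q + 1) * (T ^ (q + 1) + yy ^ (q + 1) + T * yy * r) * (T * yy) =
          (T * yy) ^ (q + 2) * (T ^ (q + 1) + yy ^ (q + 1) + T * yy * r) := by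
        ring
      rw [this]
      exact Ideal.mul_mem_right _ _ h2
    · have : (T * yy) ^ (q + 1) * (T ^ (q + 1) + yy ^ (q + 1) + T * yy * r) * yy ^ 2 =
          (yy ^ 2) ^ (q + 2) * T ^ (q + 1) + (T * yy) ^ (q + 2) * (yy * T ^ q + yy ^ 2 * r) := by
        ring
      rw [this]
      exact Ideal.add_mem _ (Ideal.mul_mem_right _ _ h3) (Ideal.mul_mem_right _ _ h2)
  · simp
  · intro a b _ _ ha hb
    rw [mul_add]
    exact Ideal.add_mem _ ha hb
  · intro a b _ hb
    rw [smul_eq_mul, mul_left_comm]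
    exact Ideal.mul_mem_left _ _ hb

/-- the exponent `(i,j)` -/
noncomputable def ex (i j : ℕ) : Fin 2 →₀ ℕ := Finsupp.equivFunOnFinite.symm ![i, j]

theorem ex_zero (i j : ℕ) : ex i j 0 = i := by simp [ex]
theorem ex_one (i j : ℕ) : ex i j 1 = j := by simp [ex]

theorem monomial_ex (i j : ℕ) : (monomial (ex i j) (1 : A)) = xx ^ i * yy ^ j := by
  rw [monomial_eq]
  simp [Finsupp.prod_fintype, ex]

/-- coefficient of `x^i y^j` in `x^i y^j + y^(j+1) r` -/
theorem coeff_top (i j : ℕ) (r : MvPolynomial (Fin 2) A) :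
    coeff (ex i j) (xx ^ i * yy ^ j + yy ^ (j + 1) * r) = 1 := by
  have h1 : (yy ^ (j + 1) : MvPolynomial (Fin 2) A) = monomial (ex 0 (j + 1)) 1 := by
    rw [monomial_ex, pow_zero, one_mul]
  rw [coeff_add, ← monomial_ex, coeff_monomial, if_pos rfl, h1, coeff_monomial_mul', if_neg, add_zero]
  intro h
  have := h 1
  rw [ex_one, ex_one] at this
  omega

theorem degree_ex (i j : ℕ) : (ex i j).degree = i + j := by
  rw [Finsupp.degree_eq_sum]
  simp [Fin.sum_univ_two, ex_zero, ex_one]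

theorem lin_pow_form (τ : A) (n : ℕ) : ∃ r, lin τ ^ n = xx ^ n + yy * r := by
  induction n with
  | zero => exact ⟨0, by simp⟩
  | succ n ih =>
    obtain ⟨r, hr⟩ := ih
    refine ⟨C τ * xx ^ n + r * lin τ, ?_⟩
    rw [pow_succ, hr]
    unfold lin
    ring

theorem totalDegree_lin_le (τ : A) : (lin τ).totalDegree ≤ 1 := by
  unfold lin
  refine (totalDegree_add _ _).trans (max_le ?_ ?_)
  · exact totalDegree_monomial_le _ _ |>.trans (by simp)
  · refine (totalDegree_mul _ _).trans ?_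
    rw [totalDegree_C, zero_add]
    exact totalDegree_monomial_le _ _ |>.trans (by simp)

theorem totalDegree_yy_le : (yy : MvPolynomial (Fin 2) A).totalDegree ≤ 1 :=
  totalDegree_monomial_le _ _ |>.trans (by simp)

/-- (S3) -/
theorem step3 (hp : 2 ≤ p) (κ : A →+ A) (h1 : κ 1 = 1) (hQ : 0 < p ^ 1) (τ : A) :
    cart κ hQ (ex (p - 1) (p - 1)) ((lin τ * yy) ^ (p - 1)) = 1 := by
  obtain ⟨r, hr⟩ := lin_pow_form τ (p - 1)
  rw [cart_of_degree_lt]
  · rw [mul_pow, hr]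
    have : (xx ^ (p - 1) + yy * r) * yy ^ (p - 1) =
        xx ^ (p - 1) * yy ^ (p - 1) + yy ^ (p - 1 + 1) * r := by ring
    rw [this, coeff_top, h1, C_1]
  · rw [degree_ex]
    refine (totalDegree_pow _ _).trans_lt ?_
    have : (lin τ * yy).totalDegree ≤ 2 :=
      (totalDegree_mul _ _).trans (add_le_add (totalDegree_lin_le τ) totalDegree_yy_le)
    calc (p - 1) * (lin τ * yy).totalDegree ≤ (p - 1) * 2 := Nat.mul_le_mul_left _ this
      _ < p - 1 + (p - 1) + p ^ 1 := by omega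

end poly

end Pool.Agent.Lib.MP_71915d_ag
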