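import Pool.Agent.Lib.MP_71915d_ag.Perf

set_option autoImplicit false

namespace Pool.Agent.Lib.MP_71915d_ag

open MvPolynomial

section power

variable {p : ℕ} {k : Type*} [Field k] [ExpChar k p] [PerfectRing k p]

instance expChar_powerSeries (p : ℕ) (k : Type*) [Field k] [ExpChar k p] :
    ExpChar (PowerSeries k) p :=
  expChar_of_injective_ringHom (PowerSeries.C_injective (R := k)) p

omit [PerfectRing k p] in
theorem coeff_pow_expChar (f : PowerSeries k) (e m : ℕ) :
    PowerSeries.coeff m (f ^ p ^ e) =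
      if p ^ e ∣ m then (PowerSeries.coeff (m / p ^ e) f) ^ p ^ e else 0 := by
  have hp0 : p ≠ 0 := expChar_ne_zero k p
  have h1 := MvPowerSeries.map_iterateFrobenius_expand (R := k) p hp0 (σ := Unit) f e
  have h2 : PowerSeries.map (iterateFrobenius k p e)
      (PowerSeries.expand (p ^ e) (pow_ne_zero e hp0) f) = f ^ p ^ e := h1
  rw [← h2, PowerSeries.coeff_map, PowerSeries.coeff_expand]
  split_ifs
  · rw [iterateFrobenius_def]
  · rw [map_zero]

/-- the operator `∑ a_i t^i ↦ ∑ a_{p^e i}^{1/p^e} t^i` -/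
noncomputable def kap (p : ℕ) (k : Type*) [Field k] [ExpChar k p] [PerfectRing k p] (e : ℕ) :
    PowerSeries k →+ PowerSeries k where
  toFun f := PowerSeries.mk fun i => root p k e (PowerSeries.coeff (p ^ e * i) f)
  map_zero' := by ext i; simp
  map_add' f g := by ext i; simp

theorem coeff_kap (e : ℕ) (f : PowerSeries k) (i : ℕ) :
    PowerSeries.coeff i (kap p k e f) = root p k e (PowerSeries.coeff (p ^ e * i) f) := by
  simp [kap]

theorem isCart_kap (e : ℕ) : IsCart p e (kap p k e) := by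
  classical
  intro f g
  have hQ : 0 < p ^ e := pow_pos (expChar_pos k p) e
  ext i
  rw [coeff_kap, PowerSeries.coeff_mul, PowerSeries.coeff_mul, map_sum]
  have h1 : ∀ x ∈ Finset.HasAntidiagonal.antidiagonal i,
      root p k e (PowerSeries.coeff (p ^ e * x.1) (f ^ p ^ e) * PowerSeries.coeff (p ^ e * x.2) g) =
        PowerSeries.coeff x.1 f * PowerSeries.coeff x.2 (kap p k e g) := by
    intro x _
    rw [coeff_kap, coeff_pow_expChar, if_pos (dvd_mul_right _ _), Nat.mul_div_cancel_left _ hQ]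
    exact isCart_root e _ _
  rw [← Finset.sum_congr rfl h1]
  symm
  rw [← Finset.sum_image (f := fun y : ℕ × ℕ =>
    root p k e (PowerSeries.coeff y.1 (f ^ p ^ e) * PowerSeries.coeff y.2 g))
    (g := fun x : ℕ × ℕ => (p ^ e * x.1, p ^ e * x.2))]
  · refine Finset.sum_subset ?_ ?_
    · intro y hy
      rw [Finset.mem_image] at hy
      obtain ⟨x, hx, rfl⟩ := hy
      rw [Finset.HasAntidiagonal.mem_antidiagonal] at hx ⊢
      rw [← hx]
      ring
    · intro y hy hny
      rw [coeff_pow_expChar]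
      split_ifs with hd
      · exfalso
        apply hny
        obtain ⟨a, ha⟩ := hd
        rw [Finset.HasAntidiagonal.mem_antidiagonal] at hy
        have h2 : p ^ e ∣ y.2 := by
          have h3 : p ^ e ∣ y.1 + y.2 := ⟨i, hy⟩
          exact (Nat.dvd_add_right ⟨a, ha⟩).1 h3
        obtain ⟨b, hb⟩ := h2
        rw [Finset.mem_image]
        refine ⟨(a, b), ?_, ?_⟩
        · rw [Finset.HasAntidiagonal.mem_antidiagonal]
          have : p ^ e * (a + b) = p ^ e * i := by rw [← hy, ha, hb]; ring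
          exact Nat.eq_of_mul_eq_mul_left hQ this
        · ext
          · exact ha.symm
          · exact hb.symm
      · rw [zero_mul, map_zero]
  · rintro ⟨a, b⟩ _ ⟨c, d⟩ _ h
    have h2 : p ^ e * a = p ^ e * c ∧ p ^ e * b = p ^ e * d := by
      simpa [Prod.ext_iff] using h
    ext
    · exact Nat.eq_of_mul_eq_mul_left hQ h2.1
    · exact Nat.eq_of_mul_eq_mul_left hQ h2.2

theorem kap_one (e : ℕ) : kap p k e 1 = 1 := by
  have hQ : 0 < p ^ e := pow_pos (expChar_pos k p) e
  ext i
  rw [coeff_kap, PowerSeries.coeff_one, PowerSeries.coeff_one]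
  by_cases h : i = 0
  · subst h
    simp [root_one]
  · rw [if_neg h, if_neg, map_zero]
    intro h2
    rcases Nat.mul_eq_zero.1 h2 with h3 | h3
    · exact hQ.ne' h3
    · exact h h3

theorem split_power : Split p (PowerSeries k) := fun e => ⟨kap p k e, isCart_kap e, kap_one e⟩

/-- the digit sequence: `1` at the powers of two -/
def dig (n : ℕ) : Prop := ∃ i, n = 2 ^ i

theorem dig_sep {n m : ℕ} (h : n < m) : ∃ j, dig (n + j) ∧ ¬ dig (m + j) := by
  have h1 : m < 2 ^ m := Nat.lt_two_pow_self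
  refine ⟨2 ^ m - n, ⟨m, by omega⟩, ?_⟩
  rintro ⟨i, hi⟩
  have h2 : 2 ^ m < 2 ^ i := by omega
  have h3 : 2 ^ i < 2 ^ (m + 1) := by
    rw [pow_succ]; omega
  have h4 := (Nat.pow_lt_pow_iff_right (by omega : 1 < 2)).1 h2
  have h5 := (Nat.pow_lt_pow_iff_right (by omega : 1 < 2)).1 h3
  omega

open Classical in
/-- `y_n = ∑_j ε_{n+j} t^{p^j}` -/
noncomputable def yser (p : ℕ) (k : Type*) [Field k] (n : ℕ) : PowerSeries k :=
  PowerSeries.mk fun m => if ∃ j, m = p ^ j ∧ dig (n + j) then 1 else 0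

/-- `z_n = y_n - y_n^p` -/
noncomputable def zser (p : ℕ) (k : Type*) [Field k] (n : ℕ) : PowerSeries k :=
  yser p k n - yser p k n ^ p

open Classical in
/-- `τ_n = ε_n t` -/
noncomputable def tser (k : Type*) [Field k] (n : ℕ) : PowerSeries k :=
  if dig n then PowerSeries.X else 0

theorem yser_rec (hp : 2 ≤ p) (n : ℕ) : yser p k (n + 1) ^ p = yser p k n - tser k n := by
  classical
  ext m
  have h := coeff_pow_expChar (p := p) (yser p k (n + 1)) 1 m
  rw [pow_one] at h
  rw [h, map_sub]
  unfold yser tser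
  rw [PowerSeries.coeff_mk, PowerSeries.coeff_mk]
  by_cases hm1 : m = 1
  · subst hm1
    have hnd : ¬ p ∣ 1 := by
      intro h
      have := Nat.le_of_dvd one_pos h
      omega
    rw [if_neg hnd]
    by_cases hd : dig n
    · rw [if_pos hd, if_pos ⟨0, by simp, by simpa using hd⟩, PowerSeries.coeff_one_X, sub_self]
    · rw [if_neg hd, if_neg, map_zero, sub_zero]
      rintro ⟨j, hj, hj2⟩
      have : j = 0 := by
        by_contra hj0
        have : 1 < p ^ j := Nat.one_lt_pow hj0 (by omega)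
        omega
      subst this
      exact hd (by simpa using hj2)
  · have hX : PowerSeries.coeff m (if dig n then (PowerSeries.X : PowerSeries k) else 0) = 0 := by
      split_ifs
      · rw [PowerSeries.coeff_X, if_neg hm1]
      · exact map_zero _
    rw [hX, sub_zero]
    by_cases hd : p ∣ m
    · obtain ⟨m', rfl⟩ := hd
      rw [if_pos (dvd_mul_right _ _), Nat.mul_div_cancel_left _ (by omega : 0 < p)]
      have hiff : (∃ j, m' = p ^ j ∧ dig (n + 1 + j)) ↔ ∃ j, p * m' = p ^ j ∧ dig (n + j) := by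
        constructor
        · rintro ⟨j, rfl, hj⟩
          refine ⟨j + 1, by rw [pow_succ, mul_comm], ?_⟩
          have : n + (j + 1) = n + 1 + j := by omega
          rwa [this]
        · rintro ⟨j, hj, hj2⟩
          have hj0 : j ≠ 0 := by
            rintro rfl
            exact hm1 (by simpa using hj)
          obtain ⟨i, rfl⟩ := Nat.exists_eq_succ_of_ne_zero hj0
          refine ⟨i, ?_, ?_⟩
          · rw [Nat.succ_eq_add_one, pow_succ, mul_comm (p ^ i) p] at hj
            exact Nat.eq_of_mul_eq_mul_left (by omega : 0 < p) hj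
          · have : n + 1 + i = n + i.succ := by omega
            rwa [this]
      by_cases hc : ∃ j, m' = p ^ j ∧ dig (n + 1 + j)
      · rw [if_pos hc, if_pos (hiff.1 hc), one_pow]
      · rw [if_neg hc, if_neg (fun h => hc (hiff.2 h)), zero_pow (by omega)]
    · rw [if_neg hd, if_neg]
      rintro ⟨j, rfl, _⟩
      have hj0 : j ≠ 0 := by
        rintro rfl
        exact hm1 (by simp)
      exact hd (dvd_pow_self p hj0)

theorem zser_rec (hp : 2 ≤ p) (n : ℕ) :
    zser p k (n + 1) ^ p = zser p k n - tser k n + tser k n ^ p := by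
  have h1 := yser_rec (p := p) (k := k) hp n
  unfold zser
  rw [sub_pow_expChar, h1, sub_pow_expChar]
  ring

theorem coeff_yser (n j : ℕ) (hp : 2 ≤ p) :
    (PowerSeries.coeff (p ^ j) (yser p k n) = 1 ↔ dig (n + j)) ∧
      (PowerSeries.coeff (p ^ j) (yser p k n) = 0 ↔ ¬ dig (n + j)) := by
  classical
  unfold yser
  rw [PowerSeries.coeff_mk]
  have hiff : (∃ i, p ^ j = p ^ i ∧ dig (n + i)) ↔ dig (n + j) := by
    constructor
    · rintro ⟨i, hi, h2⟩
      have := Nat.pow_right_injective hp hi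
      subst this
      exact h2
    · intro h
      exact ⟨j, rfl, h⟩
  by_cases h : dig (n + j)
  · rw [if_pos (hiff.2 h)]
    simp [h]
  · rw [if_neg (fun h' => h (hiff.1 h'))]
    simp [h]

theorem yser_eq_of_zser_eq (hp : 2 ≤ p) {n m : ℕ} (h : zser p k n = zser p k m) (j : ℕ) :
    PowerSeries.coeff (p ^ j) (yser p k n) = PowerSeries.coeff (p ^ j) (yser p k m) := by
  induction j with
  | zero =>
    have h1 := congrArg (PowerSeries.coeff (p ^ 0)) h
    unfold zser at h1
    have hnd : ¬ p ^ 1 ∣ p ^ 0 := by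
      intro hd
      rw [pow_zero, pow_one] at hd
      have := Nat.le_of_dvd one_pos hd
      omega
    have h2 := coeff_pow_expChar (p := p) (yser p k n) 1 (p ^ 0)
    have h3 := coeff_pow_expChar (p := p) (yser p k m) 1 (p ^ 0)
    rw [if_neg hnd, pow_one] at h2 h3
    rw [map_sub, map_sub, h2, h3, sub_zero, sub_zero] at h1
    exact h1
  | succ j ih =>
    have h1 := congrArg (PowerSeries.coeff (p ^ (j + 1))) h
    unfold zser at h1
    have hd : p ^ 1 ∣ p ^ (j + 1) := pow_dvd_pow p (by omega)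
    have hdiv : p ^ (j + 1) / p ^ 1 = p ^ j := by
      rw [pow_one, pow_succ, Nat.mul_div_cancel _ (by omega : 0 < p)]
    have h2 := coeff_pow_expChar (p := p) (yser p k n) 1 (p ^ (j + 1))
    have h3 := coeff_pow_expChar (p := p) (yser p k m) 1 (p ^ (j + 1))
    rw [if_pos hd, hdiv, pow_one] at h2 h3
    rw [map_sub, map_sub, h2, h3, ih] at h1
    exact sub_left_injective h1

theorem zser_ne (hp : 2 ≤ p) {n m : ℕ} (h : n < m) : zser p k n ≠ zser p k m := by
  intro heq
  obtain ⟨j, h1, h2⟩ := dig_sep h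
  have h3 := yser_eq_of_zser_eq hp heq j
  rw [((coeff_yser (k := k) n j hp).1).2 h1, ((coeff_yser (k := k) m j hp).2).2 h2] at h3
  exact one_ne_zero h3

open Classical in
/-- exponent of `g_0` -/
noncomputable def ex0 (p : ℕ) : ℕ → ℕ
  | 0 => 0
  | n + 1 => ex0 p n + if dig n then 0 else (p - 1) * p ^ n

open Classical in
/-- exponent of `g_1` -/
noncomputable def ex1 (p : ℕ) : ℕ → ℕ
  | 0 => 0
  | n + 1 => ex1 p n + if dig n then (p - 1) * p ^ n else 0

theorem ex_sum {p : ℕ} (hp : 0 < p) (n : ℕ) : ex0 p n + ex1 p n + 1 = p ^ n := by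
  induction n with
  | zero => simp [ex0, ex1]
  | succ n ih =>
    unfold ex0 ex1
    obtain ⟨q, rfl⟩ : ∃ q, p = q + 1 := ⟨p - 1, by omega⟩
    rw [pow_succ, Nat.add_sub_cancel]
    split_ifs
    · have : (q + 1) ^ n * (q + 1) = q * (q + 1) ^ n + (q + 1) ^ n := by ring
      omega
    · have : (q + 1) ^ n * (q + 1) = q * (q + 1) ^ n + (q + 1) ^ n := by ring
      omega

theorem FF_power (z : ℕ → PowerSeries k) (n : ℕ) :
    FF p z (tser k) n = lin (z 0) * cub 0 ^ ex0 p n * cub PowerSeries.X ^ ex1 p n := by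
  classical
  induction n with
  | zero => simp [FF, ex0, ex1]
  | succ n ih =>
    unfold FF ex0 ex1
    rw [ih, ← pow_mul]
    unfold tser
    split_ifs
    · rw [add_zero, pow_add]
      ring
    · rw [add_zero, pow_add]
      ring

/-- infinitely many values over `k[[t]][x,y]` -/
theorem infinite_power (hp : 2 ≤ p) :
    NoClosedDecomposition
      (mixedTestIdeal p (fun i => Ideal.span
        {(![lin (zser p k 0), cub 0, cub PowerSeries.X] :
          Fin 3 → MvPolynomial (Fin 2) (PowerSeries k)) i})) 1 ∧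
    (mixedTestIdeal p (fun i => Ideal.span
        {(![lin (zser p k 0), cub 0, cub PowerSeries.X] :
          Fin 3 → MvPolynomial (Fin 2) (PowerSeries k)) i}) '' box 3 1).Infinite := by
  have hp0 : 0 < p := by omega
  set z : ℕ → PowerSeries k := zser p k with hz
  have hprod : ∀ n, ∏ i, (![lin (z 0), cub 0, cub PowerSeries.X] :
      Fin 3 → MvPolynomial (Fin 2) (PowerSeries k)) i ^
      (![1, ex0 p (n + 1), ex1 p (n + 1)] : Fin 3 → ℕ) i = FF p z (tser k) (n + 1) := by
    intro n
    rw [FF_power z]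
    simp [Fin.prod_univ_three]
  have hC : ∀ n, ∃ D : MvPolynomial (Fin 2) (PowerSeries k) →+ MvPolynomial (Fin 2) (PowerSeries k),
      IsCart p (n + 1) D ∧ D (FF p z (tser k) (n + 1)) - lin (z (n + 1)) ∈ M2 (PowerSeries k) :=
    fun n => exists_cart hp (kap p k 1) (isCart_kap 1) (kap_one 1) z (tser k) (zser_rec hp) (n + 1)
  choose D hD1 hD2 using hC
  have hQ : 0 < p ^ 3 := Nat.pow_pos hp0
  have h4 : 2 ^ 3 ≤ p ^ 3 := Nat.pow_le_pow_left hp 3
  refine core (by omega) (split_mvPolynomial hp0 split_power) _ (fun n => n + 1)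
    (fun n => ![1, ex0 p (n + 1), ex1 p (n + 1)]) (fun n => LL (z (n + 1)))
    (fun n => D n (FF p z (tser k) (n + 1))) 3 (cart (kap p k 3) hQ (ex 5 2)) ?_ ?_ ?_ ?_ ?_ ?_
  · refine isCart_cart _ (isCart_kap 3) hQ _ ?_
    intro i
    fin_cases i
    · change ex 5 2 0 < p ^ 3
      rw [ex_zero]; omega
    · change ex 5 2 1 < p ^ 3
      rw [ex_one]; omega
  · have : (∏ i, (![lin (z 0), cub 0, cub PowerSeries.X] :
        Fin 3 → MvPolynomial (Fin 2) (PowerSeries k)) i) = lin (z 0) * cub 0 * cub PowerSeries.X := by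
      simp [Fin.prod_univ_three]
    rw [this]
    exact cart_three _ (kap_one 3) hQ _ _
  · intro n
    rw [hprod]
    exact FF_mem hp z _ (zser_rec hp) (n + 1)
  · intro n
    refine ⟨D n, hD1 n, ?_⟩
    rw [hprod]
  · intro n m hnm hmem
    have h1 := eq_of_mem_LL (hD2 n) hmem
    rcases lt_or_gt_of_ne hnm with h | h
    · exact zser_ne hp (by omega : n + 1 < m + 1) h1
    · exact zser_ne hp (by omega : m + 1 < n + 1) h1.symm
  · intro n i
    have h1 : 1 < p ^ (n + 1) := Nat.one_lt_pow (by omega) (by omega)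
    have h2 := ex_sum hp0 (n + 1)
    fin_cases i
    · exact h1
    · change ex0 p (n + 1) < p ^ (n + 1)
      omega
    · change ex1 p (n + 1) < p ^ (n + 1)
      omega

end power

end Pool.Agent.Lib.MP_71915d_ag
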