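import Pool.Agent.Lib.MP_71915d_ag.PC

set_option autoImplicit false

namespace Pool.Agent.Lib.MP_71915d_ag

section taus

variable {p : ℕ} {S : Type*} [CommRing S] [ExpChar S p]

/-- The test ideal `τ(h^c)` of one element. -/
noncomputable def tau1 (p : ℕ) {S : Type*} [CommRing S] [ExpChar S p] (h : S) (c : ℝ) : Ideal S :=
  mixedTestIdeal p (fun _ : Fin 1 => Ideal.span {h}) (fun _ => c)

/-- `c` is an F-jumping number of `h`. -/
def FJump (p : ℕ) {S : Type*} [CommRing S] [ExpChar S p] (h : S) (c : ℝ) : Prop :=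
  0 < c ∧ ∀ c', 0 ≤ c' → c' < c → tau1 p h c' ≠ tau1 p h c

theorem tau1_anti (h : S) {a b : ℝ} (hab : a ≤ b) : tau1 p h b ≤ tau1 p h a :=
  mixed_anti _ fun _ => hab

theorem tau1_rat (hS : FrobProj p S) (hp : 0 < p) (h : S) (a n : ℕ) :
    tau1 p h ((a : ℝ) / (p : ℝ) ^ n) = rt p n (h ^ a) := by
  have := mixed_rat (r := 1) hS hp (fun _ => h) (fun _ => a) n
  simpa [tau1] using this

/-- a non zero divisor has a unit root -/
theorem exists_unit_root_of [IsNoetherianRing S] (hS : FrobProj p S) (hp : 2 ≤ p) {h : S}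
    (hh : h ∈ nonZeroDivisors S) : ∃ e, ∃ D : S →+ S, IsCart p e D ∧ D h = 1 := by
  have hp0 : 0 < p := by omega
  have hmono : Monotone fun e => rt p e h := by
    refine monotone_nat_of_le_succ fun e => ?_
    rw [← rt_pow hS hp0 e 1 h]
    exact rt_dvd _ (dvd_pow_self h (Nat.pow_pos hp0).ne')
  obtain ⟨N, hN⟩ := (monotone_stabilizes_iff_noetherian (R := S) (M := S)).2 inferInstance
    ⟨_, hmono⟩
  change ∀ m, N ≤ m → rt p N h = rt p m h at hN
  have h1 : (1 : S) ∈ rt p N h := by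
    by_contra hcon
    obtain ⟨m, hm, hle⟩ := Ideal.exists_le_maximal (rt p N h) ((Ideal.ne_top_iff_one _).2 hcon)
    have h2 : ∀ e, h ∈ m ^ e := by
      intro e
      have h3 : rt p (max e N) h ≤ m := by
        rw [← hN _ (le_max_right e N)]
        exact hle
      have h4 := (rt_le_iff hS).1 h3
      have h5 : frobMap p (max e N) m ≤ m ^ p ^ max e N := by
        unfold frobMap
        rw [Ideal.map_le_iff_le_comap]
        intro x hx
        rw [Ideal.mem_comap, iterateFrobenius_def]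
        exact Ideal.pow_mem_pow hx _
      refine Ideal.pow_le_pow_right ?_ (h5 h4)
      exact ((Nat.lt_pow_self (by omega)).le.trans (Nat.pow_le_pow_right hp0 (le_max_left e N)))
    have h6 : h ∈ (⨅ i : ℕ, m ^ i • ⊤ : Submodule S S) := by
      rw [Submodule.mem_iInf]
      intro i
      rw [smul_eq_mul, Ideal.mul_top]
      exact h2 i
    obtain ⟨⟨r, hr⟩, hr2⟩ := (Ideal.mem_iInf_smul_pow_eq_bot_iff m h).1 h6
    have h7 : (1 - r) * h = 0 := by
      have : r * h = h := hr2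
      rw [sub_mul, one_mul, this, sub_self]
    have h8 : 1 - r = 0 := (mem_nonZeroDivisors_iff_right.1 hh) _ h7
    have h9 : (1 : S) = r := by rwa [sub_eq_zero] at h8
    exact (Ideal.ne_top_iff_one _).1 hm.ne_top (h9 ▸ hr)
  obtain ⟨D, hD, hD1⟩ := h1
  exact ⟨N, D, hD, hD1⟩

/-- stabilisation -/
theorem tau1_eq_rt [IsNoetherianRing S] (hS : FrobProj p S) (hp : 0 < p) (h : S) (c : ℝ) :
    ∃ N, tau1 p h c = rt p N (h ^ ⌈c * (p : ℝ) ^ N⌉₊) := by
  have hmono : Monotone (TT p (fun _ : Fin 1 => Ideal.span {h}) (fun _ => c)) := by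
    refine monotone_nat_of_le_succ fun e => ?_
    exact TT_mono (hS.split hp) _ _ e 1
  obtain ⟨N, hN⟩ := (monotone_stabilizes_iff_noetherian (R := S) (M := S)).2 inferInstance
    ⟨_, hmono⟩
  refine ⟨N, ?_⟩
  have h1 : TT p (fun _ : Fin 1 => Ideal.span {h}) (fun _ => c) N =
      rt p N (h ^ ⌈c * (p : ℝ) ^ N⌉₊) := by
    unfold TT JJ
    simp only [Finset.univ_unique, Finset.prod_const, Finset.card_singleton, pow_one,
      Ideal.span_singleton_pow]
    exact sInf_span_eq hS N _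
  rw [← h1]
  unfold tau1
  rw [mixed_eq]
  apply le_antisymm
  · refine iSup_le fun e => ?_
    refine (hmono (le_max_left e N)).trans ?_
    exact (hN (max e N) (le_max_right _ _)).ge
  · exact le_iSup (TT p (fun _ : Fin 1 => Ideal.span {h}) (fun _ => c)) N

/-- right constancy -/
theorem tau1_right [IsNoetherianRing S] (hS : FrobProj p S) (hp : 2 ≤ p) {h : S}
    (hh : h ∈ nonZeroDivisors S) (c : ℝ) :
    ∃ δ > 0, ∀ b, c ≤ b → b ≤ c + δ → tau1 p h b = tau1 p h c := by
  have hp0 : 0 < p := by omega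
  have hpR : (0 : ℝ) < p := by exact_mod_cast hp0
  obtain ⟨N, hN⟩ := tau1_eq_rt hS hp0 h c
  obtain ⟨e, D, hD, hD1⟩ := exists_unit_root_of hS hp hh
  set a := ⌈c * (p : ℝ) ^ N⌉₊ with ha
  rw [← tau1_rat hS hp0] at hN
  have hca : c ≤ (a : ℝ) / (p : ℝ) ^ N := by
    rw [le_div_iff₀ (by positivity)]
    exact Nat.le_ceil _
  refine ⟨1 / (p : ℝ) ^ (N + e), by positivity, fun b hb1 hb2 => ?_⟩
  apply le_antisymm (tau1_anti h hb1)
  rw [hN]
  have h1 : tau1 p h ((a : ℝ) / (p : ℝ) ^ N + 1 / (p : ℝ) ^ (N + e)) =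
      tau1 p h ((a : ℝ) / (p : ℝ) ^ N) := by
    refine mixed_right (r := 1) hS hp0 (fun _ => h) (fun _ => a) N e hD (by simpa using hD1) _
      (fun _ => ?_) (fun _ => le_rfl)
    have : 0 < 1 / (p : ℝ) ^ (N + e) := by positivity
    linarith
  rw [← h1]
  exact tau1_anti h (by linarith)

/-- constancy away from jumping numbers -/
theorem tau1_const [IsNoetherianRing S] (hS : FrobProj p S) (hp : 2 ≤ p) {h : S}
    (hh : h ∈ nonZeroDivisors S) {u v : ℝ}
    (hu : 0 ≤ u) (huv : u ≤ v) (hno : ∀ c, u < c → c ≤ v → ¬ FJump p h c) :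
    tau1 p h v = tau1 p h u := by
  set T : Set ℝ := {w | u ≤ w ∧ w ≤ v ∧ tau1 p h w = tau1 p h u} with hT
  have hne : T.Nonempty := ⟨u, le_rfl, huv, rfl⟩
  have hbdd : BddAbove T := ⟨v, fun w hw => hw.2.1⟩
  set σ := sSup T with hσ
  have huσ : u ≤ σ := le_csSup hbdd ⟨le_rfl, huv, rfl⟩
  have hσv : σ ≤ v := csSup_le hne fun w hw => hw.2.1
  -- below σ the value is constant
  have hbelow : ∀ b, u ≤ b → b < σ → tau1 p h b = tau1 p h u := by
    intro b hub hbσ
    obtain ⟨w, hw, hbw⟩ := exists_lt_of_lt_csSup hne hbσ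
    apply le_antisymm (tau1_anti h hub)
    rw [← hw.2.2]
    exact tau1_anti h hbw.le
  have hσS : tau1 p h σ = tau1 p h u := by
    rcases eq_or_lt_of_le huσ with heq | hlt
    · rw [← heq]
    · have hnj := hno σ hlt hσv
      unfold FJump at hnj
      push Not at hnj
      obtain ⟨b, hb0, hbσ, hb⟩ := hnj (lt_of_le_of_lt hu hlt)
      rcases le_total u b with h1 | h1
      · rw [← hb, hbelow b h1 hbσ]
      · apply le_antisymm (tau1_anti h huσ)
        rw [← hb]
        exact tau1_anti h h1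
  rcases eq_or_lt_of_le hσv with heq | hlt
  · rw [← heq, hσS]
  · obtain ⟨δ, hδ, hconst⟩ := tau1_right hS hp hh σ
    set w := min v (σ + δ) with hw
    have h1 : σ < w := lt_min hlt (by linarith)
    have h2 : w ∈ T := by
      refine ⟨huσ.trans h1.le, min_le_left _ _, ?_⟩
      rw [hconst w h1.le (min_le_right _ _), hσS]
    have := le_csSup hbdd h2
    linarith

end taus

end Pool.Agent.Lib.MP_71915d_ag
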